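import Pool.Agent.TH578.BE.Defs

set_option autoImplicit false

/-!
Functions whose fibres are continuous in the direction near the vertices of the polygon.
-/

namespace Pool.Agent.Zk55.CF

open Complex Set MeasureTheory Pool.Agent.W780.PG Pool.Agent.W780.BB

open scoped Real

/-- For some `r > 0` and almost every position `z` in the polygon whose distance from some vertex is
less than `r`, the function `θ ↦ f (z, θ)` of the direction agrees almost everywhere with a
continuous function. Nothing is required of the dependence on `z`, and nothing of the positions away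
from the vertices. -/
def ContinuousNearVertices {n : ℕ} (p : Fin (n + 3) → ℂ) (f : ℂ × ℝ → ℂ) : Prop :=
  ∃ r : ℝ, 0 < r ∧ ∀ᵐ z : ℂ, z ∈ region p → (∃ j, ‖z - p j‖ < r) →
    ∃ g : ℝ → ℂ, Continuous g ∧ ∀ᵐ θ : ℝ, f (z, θ) = g θ

end Pool.Agent.Zk55.CF
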