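import Pool.Agent.Zk55.CF.Ident3

set_option autoImplicit false

/-!
The fibres near the vertices are constant.
-/

namespace Pool.Agent.Zk55.CF

open Complex Set MeasureTheory Filter Topology Pool.Agent.W780.PG Pool.Agent.W780.BB
  Pool.Agent.TH578.BE Pool.Agent.K3h17.BK

open scoped Real ComplexConjugate

variable {n : ℕ} {p : Fin (n + 3) → ℂ} {χ : Fin (n + 3) → ℂ} {f : ℂ × ℝ → ℂ}

/-- The condition on the constants at the vertices. -/
def VC (p : Fin (n + 3) → ℂ) (f : ℂ × ℝ → ℂ) (c : Fin (n + 3) → ℂ) : Prop :=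
  ∀ (j : Fin (n + 3)) (ψ : ℝ → ℂ), Continuous ψ → (∀ θ, ψ (θ + 2 * π) = ψ θ) →
    (∀ θ, ψ θ ≠ 0 → θ ∈ Inc p j) →
      Tendsto (fun ρ : ℝ => ∫ θ in (0 : ℝ)..(2 * π), ψ θ * Kp p f j ρ θ) (𝓝[>] 0)
        (𝓝 (c j * ∫ θ in (0 : ℝ)..(2 * π), ψ θ))

theorem ident_ae (hp : IsConvexPolygon p) (hf : Measurable f) (hb : ∀ x, ‖f x‖ ≤ 1)
    (hχ : ∀ i, χ i = 1 ∨ χ i = -1) (hE : IsEigenfunction p 0 χ f) {rv : ℝ} {G : ℂ → ℝ → ℂ}
    (hG : Fib p rv f G) {c : Fin (n + 3) → ℂ} (hc : VC p f c) :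
    ∀ᵐ z : ℂ, z ∈ reg p ∧ (∃ j, ‖z - p j‖ < rv) → ∀ (w : List (Fin (n + 3))) (j : Fin (n + 3))
      (θ : ℝ), VisAt p z w j θ → G z (arg (uf p w (p j) - z)) = sg χ w * c j := by
  have key : ∀ (w : List (Fin (n + 3))) (j : Fin (n + 3)), ∀ᵐ z : ℂ,
      z ∈ reg p ∧ (∃ j, ‖z - p j‖ < rv) → ∀ θ : ℝ, VisAt p z w j θ →
        G z (arg (uf p w (p j) - z)) = sg χ w * c j := by
    intro w j
    set S : Set ℂ := {z | (z ∈ reg p ∧ (∃ j, ‖z - p j‖ < rv)) ∧ (∃ θ, VisAt p z w j θ) ∧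
      G z (arg (uf p w (p j) - z)) ≠ sg χ w * c j} with hS
    have hS0 : volume S = 0 := by
      refine measure_null_of_locally_null S fun z0 hz0 => ?_
      obtain ⟨⟨h1, h1'⟩, ⟨θ0, h2⟩, -⟩ := hz0
      obtain ⟨r, hr, h3⟩ := ident_loc hp hf hb hχ hE hG h1 h1' h2 (hc j)
      refine ⟨S ∩ Metric.ball z0 r, inter_mem_nhdsWithin S (Metric.ball_mem_nhds z0 hr), ?_⟩
      refine measure_eq_zero_iff_ae_notMem.2 ?_
      filter_upwards [h3] with z h4
      rintro ⟨⟨-, -, h5⟩, h6⟩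
      rw [Metric.mem_ball, dist_eq_norm] at h6
      exact h5 (h4 h6)
    filter_upwards [measure_eq_zero_iff_ae_notMem.1 hS0] with z hz hzV θ hv
    by_contra hne
    exact hz ⟨hzV, ⟨θ, hv⟩, hne⟩
  have h1 : ∀ᵐ z : ℂ, ∀ (w : List (Fin (n + 3))) (j : Fin (n + 3)),
      z ∈ reg p ∧ (∃ j, ‖z - p j‖ < rv) → ∀ θ : ℝ, VisAt p z w j θ →
        G z (arg (uf p w (p j) - z)) = sg χ w * c j :=
    ae_all_iff.2 fun w => ae_all_iff.2 fun j => key w j
  filter_upwards [h1] with z h hz w j θ hv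
  exact h w j hz θ hv

theorem vis_self {z : ℂ} (hz : z ∈ reg p) (j : Fin (n + 3)) :
    VisAt p z [] j (arg (p j - z)) := by
  have hne : z ≠ p j := by
    rintro rfl
    have h4 := hz j
    rw [Pool.Agent.W174.PG.lft_left] at h4
    exact lt_irrefl _ h4
  have h0 : 0 < ‖z - p j‖ := by rw [norm_pos_iff, sub_ne_zero]; exact hne
  have h1 := on_ray hne
  have h2 : p j - z = (‖z - p j‖ : ℂ) * dir (arg (p j - z)) := by
    rw [← real_smul]
    linear_combination -h1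
  have h3 : conj (dir (arg (p j - z))) * (p j - z) = (‖z - p j‖ : ℂ) := by
    refine (congrArg (fun v => conj (dir (arg (p j - z))) * v) h2).trans ?_
    rw [mul_left_comm, conj_dir_mul, mul_one]
  refine ⟨trivial, ?_, ?_, ‖z - p j‖, h0, ?_⟩
  · show ph (ln z (arg (p j - z))) (p j) = 0
    rw [ph_ln, h3, Complex.ofReal_im]
  · show 0 < rr (p j) (arg (p j - z)) z
    unfold rr
    rw [h3, Complex.ofReal_re]
    exact h0
  · show p j - ‖z - p j‖ • dir (arg (p j - z)) ∈ reg p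
    rw [← h1]
    exact hz

theorem fib_const (hp : IsConvexPolygon p) (hf : Measurable f) (hb : ∀ x, ‖f x‖ ≤ 1)
    (hχ : ∀ i, χ i = 1 ∨ χ i = -1) (hE : IsEigenfunction p 0 χ f) {rv : ℝ} {G : ℂ → ℝ → ℂ}
    (hG : Fib p rv f G) {c : Fin (n + 3) → ℂ} (hc : VC p f c) :
    ∀ᵐ z : ℂ, z ∈ reg p ∧ (∃ j, ‖z - p j‖ < rv) → ∀ (j : Fin (n + 3)) (θ : ℝ), G z θ = c j := by
  filter_upwards [hG, ident_ae hp hf hb hχ hE hG hc, vis_dense hp] with z h1 h2 h3 hz
  obtain ⟨hcont, hae⟩ := h1 hz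
  have hper : ∀ θ, G z (θ + 2 * π) = G z θ := by
    have e : (fun θ => G z (θ + 2 * π)) =ᵐ[volume] G z := by
      filter_upwards [hae, (measurePreserving_add_right (volume : Measure ℝ)
        (2 * π)).quasiMeasurePreserving.ae hae] with θ a b
      rw [← b, ← a, hE.periodic]
    have h4 := (Continuous.ae_eq_iff_eq (volume : Measure ℝ)
      (hcont.comp (continuous_id.add continuous_const)) hcont).1 e
    exact fun θ => congrFun h4 θ
  have hvis : ∀ w j θ, VisAt p z w j θ → G z θ = sg χ w * c j := by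
    intro w j θ hv
    rw [← h2 hz w j θ hv]
    obtain ⟨-, h4, h5, -⟩ := hv
    have h6 := on_line (ph_ln_self z θ) h4
    rw [← tt_rr] at h6
    have h7 : uf p w (p j) - z = rr (uf p w (p j)) θ z • dir θ := by
      conv_lhs => rw [h6]
      rw [add_sub_cancel_left]
      rfl
    rw [h7, arg_dir hper h5]
  set T : Set ℂ := range c ∪ range (fun j => - c j) with hT
  have hTf : T.Finite := (finite_range _).union (finite_range _)
  have hTm : ∀ θ, G z θ ∈ T := by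
    have hcl : IsClosed {θ | G z θ ∈ T} := hTf.isClosed.preimage hcont
    have hd : Dense {θ | G z θ ∈ T} := by
      rw [dense_iff_exists_between]
      intro a b hab
      obtain ⟨θ, hθ, w, j, hv⟩ := h3 hz.1 a b hab
      refine ⟨θ, ?_, hθ.1, hθ.2⟩
      show G z θ ∈ T
      rw [hvis w j θ hv]
      rcases sg_norm hχ w with h | h
      · rw [h, one_mul]
        exact Or.inl ⟨j, rfl⟩
      · rw [h, neg_one_mul]
        exact Or.inr ⟨j, rfl⟩
    intro θ
    have := hd.closure_eq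
    rw [hcl.closure_eq] at this
    have h5 : θ ∈ (univ : Set ℝ) := mem_univ θ
    rw [← this] at h5
    exact h5
  have hconst : ∀ θ θ', G z θ = G z θ' := by
    have himg : IsPreconnected (range (G z)) := isPreconnected_range hcont
    have hfin : (range (G z)).Finite := hTf.subset (by rintro _ ⟨θ, rfl⟩; exact hTm θ)
    have hsub : (range (G z)).Subsingleton := by
      by_contra hns
      rw [Set.not_subsingleton_iff] at hns
      exact (himg.infinite_of_nontrivial hns) hfin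
    intro θ θ'
    exact hsub ⟨θ, rfl⟩ ⟨θ', rfl⟩
  intro j θ
  rw [hconst θ (arg (p j - z)), hvis [] j _ (vis_self hz.1 j)]
  show 1 * c j = c j
  rw [one_mul]

end Pool.Agent.Zk55.CF
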