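import Pool.Agent.Zk55.CF.Fin
import Pool.Agent.TH103.BL.Ch
import Pool.Agent.Zk55.CF.Defs

set_option autoImplicit false

/-!
The theorem on continuous fibres near the vertices.
-/

namespace Pool.Agent.Zk55.CF

open Complex Set MeasureTheory Filter Topology Pool.Agent.W780.PG Pool.Agent.W780.BB
  Pool.Agent.TH578.BE Pool.Agent.K3h17.BK

open scoped Real ComplexConjugate

variable {n : ℕ} {p : Fin (n + 3) → ℂ} {χ : Fin (n + 3) → ℂ} {f : ℂ × ℝ → ℂ}

theorem fd_fp (w : List (Fin (n + 3))) : ∀ x : ℂ × ℝ, (fd p w x).1 = fp p w x.1 := by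
  induction w with
  | nil => intro x; rfl
  | cons i w ih => intro x; exact ih (rs p i x)

theorem fd_fw (w : List (Fin (n + 3))) : ∀ (x : ℂ × ℝ) (y : ℝ × ℝ), x.2 = y.1 →
    (fd p w x).2 = (fw p w y).1 := by
  induction w with
  | nil => intro x y h; exact h
  | cons i w ih =>
    intro x y h
    refine ih (rs p i x) (fl p i y) ?_
    show 2 * tau p i - x.2 = 2 * tau p i - y.1
    rw [h]

/-- The value along a folded motion. -/
theorem val_fd (hp : IsConvexPolygon p) (hE : IsEigenfunction p 0 χ f) {w : List (Fin (n + 3))}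
    {z : ℂ} {θ q : ℝ} (hz : z ∈ reg p) (hq : 0 < q) (hch : Ch p w z (z + q • dir θ)) :
    (fd p w (z + q • dir θ, θ)).1 ∈ reg p ∧
      f (fd p w (z + q • dir θ, θ)) = sg χ w * f (z, θ) := by
  obtain ⟨hr1, -, -, -, -, -, hfu, -⟩ := Pool.Agent.W347.BB.ref n p hp
  have h1 : fp p w (z + q • dir θ) ∈ reg p := ch_fp w _ _ hch
  have hRW : RW p w (ln z θ) := RW_of_Ch hp w z _ (ln z θ) q hq (ph_ln_self z θ) rfl hch
  have h2 : ph (fw p w (ln z θ)) (fp p w (z + q • dir θ)) = 0 := by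
    rw [ph_fw hr1, (hfu w _).2]
    have h3 : ph (ln z θ) (z + q • dir θ) = 0 := by
      have := ph_shift (ln z θ) z q
      rw [ph_ln_self] at this
      exact this
    rw [h3, mul_zero]
  have h4 := val hp hE w (ln z θ) z _ hz (ph_ln_self z θ) hRW h1 h2
  have e : fd p w (z + q • dir θ, θ) = (fp p w (z + q • dir θ), (fw p w (ln z θ)).1) := by
    ext1
    · exact fd_fp w _
    · exact fd_fw w _ _ rfl
  rw [e]
  exact ⟨h1, h4⟩

/-- From the vertices to the polygon. -/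
theorem ext_all (hp : IsConvexPolygon p) (hχ : ∀ i, χ i = 1 ∨ χ i = -1)
    (hE : IsEigenfunction p 0 χ f) {rv : ℝ} (hrv : 0 < rv) {c : ℂ} (hc : c ≠ 0 → ∀ i, χ i = 1)
    (hV : ∀ᵐ x : ℂ × ℝ, x.1 ∈ reg p ∧ (∃ j, ‖x.1 - p j‖ < rv) → f x = c) :
    ∀ᵐ x : ℂ × ℝ, x.1 ∈ reg p → f x = c := by
  have h1 : ∀ (w : List (Fin (n + 3))) (q : ℚ), ∀ᵐ x : ℂ × ℝ,
      (fd p w (x.1 + (q : ℝ) • dir x.2, x.2)).1 ∈ reg p ∧
      (∃ j, ‖(fd p w (x.1 + (q : ℝ) • dir x.2, x.2)).1 - p j‖ < rv) →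
      f (fd p w (x.1 + (q : ℝ) • dir x.2, x.2)) = c := by
    intro w q
    have m1 : MeasurePreserving (fun x : ℂ × ℝ => (x.1 + (q : ℝ) • dir x.2, x.2)) := by
      refine shear (fun θ => (q : ℝ) • dir θ) ?_
      have := cont_dir
      exact (this.const_smul (q : ℝ)).measurable
    have m2 : MeasurePreserving (fd p w) := (Pool.Agent.W333.BB.mp n p hp w).2.2.1
    exact (m2.comp m1).quasiMeasurePreserving.ae hV
  have h2 : ∀ᵐ x : ℂ × ℝ, ∀ (w : List (Fin (n + 3))) (q : ℚ),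
      (fd p w (x.1 + (q : ℝ) • dir x.2, x.2)).1 ∈ reg p ∧
      (∃ j, ‖(fd p w (x.1 + (q : ℝ) • dir x.2, x.2)).1 - p j‖ < rv) →
      f (fd p w (x.1 + (q : ℝ) • dir x.2, x.2)) = c :=
    ae_all_iff.2 fun w => ae_all_iff.2 fun q => h1 w q
  filter_upwards [h2, Pool.Agent.TH103.BL.app_ae hp hrv] with x hx happ hxr
  obtain ⟨z, θ⟩ := x
  obtain ⟨w, q, j, hq, hch, hd⟩ := happ hxr
  simp only at hx hch hd hxr
  have hcont : Continuous fun s : ℝ => z + s • dir θ := by fun_prop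
  have e1 : ∀ᶠ s in 𝓝 q, Ch p w z (z + s • dir θ) :=
    ((Pool.Agent.W762.BB.open_it n p hp w).preimage
      (continuous_const.prodMk hcont)).mem_nhds hch
  have e2 : ∀ᶠ s in 𝓝 q, ‖(fd p w (z + s • dir θ, θ)).1 - p j‖ < rv := by
    have : Continuous fun s : ℝ => ‖(fd p w (z + s • dir θ, θ)).1 - p j‖ :=
      ((continuous_fst.comp ((Pool.Agent.TH103.BL.fd_cont hp w).comp
        (hcont.prodMk continuous_const))).sub continuous_const).norm
    exact (this.tendsto q).eventually_lt_const hd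
  have e3 : ∀ᶠ s in 𝓝 q, 0 < s := lt_mem_nhds hq
  obtain ⟨δ, hδ, hball⟩ := Metric.eventually_nhds_iff.1 ((e1.and e2).and e3)
  obtain ⟨q', hq1, hq2⟩ := exists_rat_btwn (show q < q + δ by linarith)
  obtain ⟨⟨a1, a2⟩, a3⟩ := hball (show dist (q' : ℝ) q < δ by
    rw [Real.dist_eq, abs_of_pos (by linarith)]; linarith)
  obtain ⟨b1, b2⟩ := val_fd hp hE hxr a3 a1
  have b3 := hx w q' ⟨b1, j, a2⟩
  rw [b2] at b3
  by_cases hc0 : c = 0
  · rw [hc0] at b3 ⊢
    rcases mul_eq_zero.1 b3 with h | h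
    · exfalso
      rcases sg_norm hχ w with h' | h' <;> rw [h'] at h <;> norm_num at h
    · exact h
  · have hall := hc hc0
    have hsg : sg χ w = 1 := by
      clear b3 b2 b1 hx a1 a2 hball e1 e2 hch hd
      induction w with
      | nil => rfl
      | cons i w ih => simp [sg, hall i, ih]
    rwa [hsg, one_mul] at b3

theorem bdd_case (hp : IsConvexPolygon p) (hi : ∀ i, Irrational (ang p i / π))
    (hχ : ∀ i, χ i = 1 ∨ χ i = -1) (hf : Measurable f) (hb : ∀ x, ‖f x‖ ≤ 1)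
    (hE : IsEigenfunction p 0 χ f) (hC : ContinuousNearVertices p f) :
    ∃ c : ℂ, (∀ᵐ x : ℂ × ℝ, x.1 ∈ reg p → f x = c) ∧ (c ≠ 0 → ∀ i, χ i = 1) := by
  classical
  obtain ⟨rv, hrv, hC⟩ := hC
  rw [hull hp] at hC
  set G : ℂ → ℝ → ℂ := fun z => if h : ∃ g : ℝ → ℂ, Continuous g ∧ ∀ᵐ θ : ℝ, f (z, θ) = g θ then
    h.choose else 0 with hGdef
  have hG : Fib p rv f G := by
    filter_upwards [hC] with z hz h
    have h1 := hz h.1 h.2
    have h2 : G z = h1.choose := dif_pos h1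
    rw [h2]
    exact h1.choose_spec
  have hir : ∀ j, Irrational ((tau p j - tau p (j - 1)) / π) := fun j =>
    irr_tau Pool.Agent.W337.BB.tau_th hp (hi j)
  choose c hc h1 h2 using fun j => vtx_const hp hf hb hχ hE hrv hG j (hir j)
  have hVC : VC p f c := hc
  have hfc := fib_const hp hf hb hχ hE hG hVC
  -- the neighbourhood of the vertices is not empty
  have hVo : IsOpen {z : ℂ | z ∈ reg p ∧ ∃ j, ‖z - p j‖ < rv} := by
    refine (reg_op hp).inter ?_
    have : {z : ℂ | ∃ j, ‖z - p j‖ < rv} = ⋃ j, Metric.ball (p j) rv := by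
      ext z
      simp [Metric.mem_ball, dist_eq_norm]
    change IsOpen {z : ℂ | ∃ j, ‖z - p j‖ < rv}
    rw [this]
    exact isOpen_iUnion fun j => Metric.isOpen_ball
  have hVn : {z : ℂ | z ∈ reg p ∧ ∃ j, ‖z - p j‖ < rv}.Nonempty := by
    obtain ⟨z0, hz0⟩ : (reg p).Nonempty := (Pool.Agent.W174.PG.basic n p hp).2.2.2.2.2.1
    have hne : z0 ≠ p 0 := by
      rintro rfl
      have h4 := hz0 0
      rw [Pool.Agent.W174.PG.lft_left] at h4
      exact lt_irrefl _ h4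
    have h5 : 0 < ‖z0 - p 0‖ := by rw [norm_pos_iff, sub_ne_zero]; exact hne
    have h6 : arg (p 0 - z0) ∈ Inc p 0 := inc_of_mem hp h5 (by rw [← on_ray hne]; exact hz0)
    obtain ⟨r2, hr2, hin⟩ := mem_of_inc hp (0 : Fin (n + 3))
    have h7 : 0 < min r2 (rv / 2) := lt_min hr2 (by linarith)
    refine ⟨p 0 - min r2 (rv / 2) • dir (arg (p 0 - z0)), hin _ h6 _ h7 (min_le_left _ _), 0, ?_⟩
    have e : p 0 - min r2 (rv / 2) • dir (arg (p 0 - z0)) - p 0 =
        - (min r2 (rv / 2) • dir (arg (p 0 - z0))) := by ring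
    rw [e, norm_neg, norm_smul, nd, mul_one, Real.norm_eq_abs, abs_of_pos h7]
    exact (min_le_right _ _).trans_lt (by linarith)
  have hcc : ∀ j, c j = c 0 := by
    obtain ⟨z, h3, h4⟩ := (Measure.dense_of_ae hfc).exists_mem_open hVo hVn
    intro j
    have h5 := h3 h4
    rw [← h5 j 0, ← h5 0 0]
  have hc0 : c 0 ≠ 0 → ∀ i, χ i = 1 := by
    intro hne i
    have h3 := h1 i
    rw [hcc i] at h3
    rcases mul_eq_zero.1 h3 with h4 | h4
    · exact (sub_eq_zero.1 h4).symm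
    · exact absurd h4 hne
  refine ⟨c 0, ext_all hp hχ hE hrv hc0 ?_, hc0⟩
  have hm : MeasurableSet {x : ℂ × ℝ | (x.1 ∈ reg p ∧ ∃ j, ‖x.1 - p j‖ < rv) ∧ f x ≠ c 0} := by
    refine MeasurableSet.inter ?_ ?_
    · exact measurable_fst hVo.measurableSet
    · exact (hf (measurableSet_singleton (c 0))).compl
  have h0 : volume {x : ℂ × ℝ | (x.1 ∈ reg p ∧ ∃ j, ‖x.1 - p j‖ < rv) ∧ f x ≠ c 0} = 0 := by
    rw [Measure.volume_eq_prod, Measure.measure_prod_null hm]
    filter_upwards [hfc, hG] with z h3 h4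
    refine measure_eq_zero_iff_ae_notMem.2 ?_
    by_cases hz : z ∈ reg p ∧ ∃ j, ‖z - p j‖ < rv
    · filter_upwards [(h4 hz).2] with θ h5
      rintro ⟨-, h6⟩
      exact h6 (by rw [h5, h3 hz 0 θ])
    · refine Filter.Eventually.of_forall fun θ h5 => hz h5.1
  filter_upwards [measure_eq_zero_iff_ae_notMem.1 h0] with x hx hxr
  by_contra hcon
  exact hx ⟨hxr, hcon⟩

theorem cp_cont : Continuous cp := by
  have h1 : Continuous fun v : ℂ => 1 + ‖v‖ := by fun_prop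
  have h2 : Continuous fun v : ℂ => (1 + ‖v‖)⁻¹ := h1.inv₀ fun v => by positivity
  exact h2.smul continuous_id

theorem cp_zero_iff (v : ℂ) : cp v = 0 ↔ v = 0 := by
  constructor
  · intro h
    have h1 := ci_cp v
    rw [h] at h1
    rw [← h1]
    unfold ci
    simp
  · rintro rfl
    unfold cp
    simp

/-- The theorem. -/
theorem final (hp : IsConvexPolygon p) (hi : ∀ i, Irrational (ang p i / π))
    (hχ : ∀ i, χ i = 1 ∨ χ i = -1) (hf : Measurable f)
    (hE : IsEigenfunction p 0 χ f) (hC : ContinuousNearVertices p f) :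
    ∃ c : ℂ, (∀ᵐ x : ℂ × ℝ, x.1 ∈ region p → f x = c) ∧ (c ≠ 0 → ∀ i, χ i = 1) := by
  have hχ1 : ∀ i, ‖χ i‖ = 1 := by
    intro i
    rcases hχ i with h | h <;> rw [h] <;> simp
  obtain ⟨c, h1, h2⟩ := bdd_case hp hi hχ (meas_cp.comp hf) (fun x => cp_le _)
    (eigen_cp hχ1 hE) (by
      obtain ⟨r, hr, h⟩ := hC
      refine ⟨r, hr, ?_⟩
      filter_upwards [h] with z hz hzr hzj
      obtain ⟨g, hg, hgae⟩ := hz hzr hzj
      refine ⟨fun θ => cp (g θ), cp_cont.comp hg, ?_⟩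
      filter_upwards [hgae] with θ hθ
      simp only [Function.comp]
      rw [hθ])
  refine ⟨ci c, ?_, ?_⟩
  · rw [hull hp]
    filter_upwards [h1] with x hx hxr
    have h3 := hx hxr
    rw [← h3]
    exact (ci_cp (f x)).symm
  · intro hne
    apply h2
    rintro rfl
    apply hne
    unfold ci
    simp

end Pool.Agent.Zk55.CF
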