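import Mathlib

set_option autoImplicit false

/-!
Families of bounded periodic functions which are asymptotically invariant under two reflections.
-/

namespace Pool.Agent.Zk55.CF

open Complex Set MeasureTheory Filter Topology

open scoped Real

/-- Reflection of the variable. -/
theorem int_refl {g : ℝ → ℂ} (hg : ∀ θ, g (θ + 2 * π) = g θ) (c : ℝ) :
    ∫ θ in (0 : ℝ)..(2 * π), g (c - θ) = ∫ θ in (0 : ℝ)..(2 * π), g θ := by
  rw [intervalIntegral.integral_comp_sub_left]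
  have hp : Function.Periodic g (2 * π) := hg
  have h1 := hp.intervalIntegral_add_eq (c - 2 * π) 0
  rw [zero_add, sub_add_cancel] at h1
  rw [sub_zero, h1]

/-- Translation of the variable. -/
theorem int_shift {g : ℝ → ℂ} (hg : ∀ θ, g (θ + 2 * π) = g θ) (c : ℝ) :
    ∫ θ in (0 : ℝ)..(2 * π), g (c + θ) = ∫ θ in (0 : ℝ)..(2 * π), g θ := by
  rw [intervalIntegral.integral_comp_add_left]
  have hp : Function.Periodic g (2 * π) := hg
  have h1 := hp.intervalIntegral_add_eq c 0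
  rw [zero_add] at h1
  rw [add_zero, h1]

/-- The exponentials. -/
noncomputable def ek (k : ℤ) (θ : ℝ) : ℂ := exp ((k : ℂ) * θ * I)

theorem ek_norm (k : ℤ) (θ : ℝ) : ‖ek k θ‖ = 1 := by
  unfold ek
  have : (k : ℂ) * θ * I = ((k * θ : ℝ) : ℂ) * I := by push_cast; ring
  rw [this, Complex.norm_exp_ofReal_mul_I]

theorem ek_cont (k : ℤ) : Continuous (ek k) := by
  unfold ek
  fun_prop

theorem ek_per (k : ℤ) (θ : ℝ) : ek k (θ + 2 * π) = ek k θ := by
  unfold ek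
  have : (k : ℂ) * ((θ + 2 * π : ℝ) : ℂ) * I = (k : ℂ) * θ * I + k * (2 * π * I) := by
    push_cast; ring
  rw [this, Complex.exp_add, Complex.exp_int_mul_two_pi_mul_I, mul_one]

theorem ek_refl (k : ℤ) (c θ : ℝ) : ek k (c - θ) = ek k c * ek (-k) θ := by
  unfold ek
  rw [← Complex.exp_add]
  congr 1
  push_cast
  ring

variable {k1 k2 : ℝ → ℝ → ℂ} {τ1 τ2 : ℝ} {χ1 χ2 : ℂ}

theorem meas_mul {κ : ℝ → ℝ → ℂ} (hm : ∀ ρ, Measurable (κ ρ)) (k : ℤ) (ρ : ℝ) :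
    Measurable fun θ => ek k θ * κ ρ θ := (ek_cont k).measurable.mul (hm ρ)

theorem ii_mul {κ : ℝ → ℝ → ℂ} (hm : ∀ ρ, Measurable (κ ρ)) (hb : ∀ ρ θ, ‖κ ρ θ‖ ≤ 1) (k : ℤ)
    (ρ : ℝ) (a b : ℝ) : IntervalIntegrable (fun θ => ek k θ * κ ρ θ) volume a b := by
  refine (intervalIntegrable_const (c := (1 : ℝ))).mono_fun
    (meas_mul hm k ρ).aestronglyMeasurable (Filter.Eventually.of_forall fun θ => ?_)
  simp only
  rw [norm_mul, ek_norm, one_mul, norm_one]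
  exact hb ρ θ

/-- The Fourier coefficients under a reflection. -/
theorem refl_coeff {κ : ℝ → ℝ → ℂ} (hm : ∀ ρ, Measurable (κ ρ)) (hb : ∀ ρ θ, ‖κ ρ θ‖ ≤ 1)
    (hper : ∀ ρ θ, κ ρ (θ + 2 * π) = κ ρ θ) {τ : ℝ} {χ : ℂ} (hχ : ‖χ‖ ≤ 1)
    (h : ∀ᵐ θ : ℝ, Tendsto (fun ρ => κ ρ (2 * τ - θ) - χ * κ ρ θ) (𝓝[>] 0) (𝓝 0)) (k : ℤ) :
    Tendsto (fun ρ => (∫ θ in (0 : ℝ)..(2 * π), ek k θ * κ ρ θ) -
      χ * ek k (2 * τ) * ∫ θ in (0 : ℝ)..(2 * π), ek (-k) θ * κ ρ θ) (𝓝[>] 0) (𝓝 0) := by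
  have hm' : ∀ ρ, Measurable fun θ => κ ρ (2 * τ - θ) := fun ρ =>
    (hm ρ).comp (measurable_const.sub measurable_id)
  have e : ∀ ρ, (∫ θ in (0 : ℝ)..(2 * π), ek k θ * κ ρ θ) -
      χ * ek k (2 * τ) * (∫ θ in (0 : ℝ)..(2 * π), ek (-k) θ * κ ρ θ) =
      ek k (2 * τ) * ∫ θ in (0 : ℝ)..(2 * π), ek (-k) θ * (κ ρ (2 * τ - θ) - χ * κ ρ θ) := by
    intro ρ
    have h1 := int_refl (g := fun θ => ek k θ * κ ρ θ)
      (fun θ => by rw [ek_per, hper]) (2 * τ)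
    rw [← h1]
    have h2 : ∀ θ : ℝ, ek (-k) θ * (κ ρ (2 * τ - θ) - χ * κ ρ θ) =
        ek (-k) θ * κ ρ (2 * τ - θ) - χ * (ek (-k) θ * κ ρ θ) := fun θ => by ring
    simp only [ek_refl, h2]
    rw [intervalIntegral.integral_sub, intervalIntegral.integral_const_mul]
    · have h3 : ∀ θ : ℝ, ek k (2 * τ) * ek (-k) θ * κ ρ (2 * τ - θ) =
          ek k (2 * τ) * (ek (-k) θ * κ ρ (2 * τ - θ)) := fun θ => by ring
      simp only [h3]
      rw [intervalIntegral.integral_const_mul]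
      ring
    · exact ii_mul (κ := fun ρ θ => κ ρ (2 * τ - θ)) hm' (fun ρ θ => hb ρ _) (-k) ρ _ _
    · exact (ii_mul hm hb (-k) ρ _ _).const_mul χ
  simp only [e]
  have h3 : Tendsto (fun ρ => ∫ θ in (0 : ℝ)..(2 * π), ek (-k) θ * (κ ρ (2 * τ - θ) - χ * κ ρ θ))
      (𝓝[>] 0) (𝓝 (∫ θ in (0 : ℝ)..(2 * π), (0 : ℂ))) := by
    refine intervalIntegral.tendsto_integral_filter_of_dominated_convergence (fun _ => 2) ?_ ?_ ?_ ?_
    · refine Filter.Eventually.of_forall fun ρ => ?_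
      exact ((ek_cont _).measurable.mul ((hm' ρ).sub
        (measurable_const.mul (hm ρ)))).aestronglyMeasurable
    · refine Filter.Eventually.of_forall fun ρ => Filter.Eventually.of_forall fun θ _ => ?_
      rw [norm_mul, ek_norm, one_mul]
      have h4 := hb ρ (2 * τ - θ)
      have h5 := hb ρ θ
      have h6 : ‖χ * κ ρ θ‖ ≤ 1 := by
        rw [norm_mul]
        exact mul_le_one₀ hχ (norm_nonneg _) h5
      linarith [norm_sub_le (κ ρ (2 * τ - θ)) (χ * κ ρ θ)]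
    · exact intervalIntegrable_const
    · filter_upwards [h] with θ hθ _
      have := hθ.const_mul (ek (-k) θ)
      rwa [mul_zero] at this
  rw [intervalIntegral.integral_zero] at h3
  have h7 := h3.const_mul (ek k (2 * τ))
  rwa [mul_zero] at h7

theorem ek_ne (k : ℤ) (hk : k ≠ 0) {α : ℝ} (hα : Irrational (α / π)) {c : ℂ} (hc : c = 1 ∨ c = -1) :
    c * ek k (2 * α) ≠ 1 := by
  intro h
  have h1 : ek (2 * k) (2 * α) = 1 := by
    have e : ek (2 * k) (2 * α) = ek k (2 * α) * ek k (2 * α) := by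
      unfold ek
      rw [← Complex.exp_add]
      congr 1
      push_cast
      ring
    have e2 : (c * ek k (2 * α)) * (c * ek k (2 * α)) = (c * c) * (ek k (2 * α) * ek k (2 * α)) := by
      ring
    have e3 : c * c = 1 := by rcases hc with h' | h' <;> rw [h'] <;> norm_num
    rw [h, e3, one_mul, one_mul] at e2
    rw [e, ← e2]
  unfold ek at h1
  obtain ⟨m, hm⟩ := Complex.exp_eq_one_iff.1 h1
  have h2 : ((2 * k : ℤ) : ℂ) * ((2 * α : ℝ) : ℂ) = m * (2 * π) := by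
    have h3 : ((2 * k : ℤ) : ℂ) * ((2 * α : ℝ) : ℂ) * I = (m * (2 * π)) * I := by
      rw [hm]; ring
    exact mul_right_cancel₀ I_ne_zero h3
  have h4 : ((2 * k : ℤ) : ℝ) * (2 * α) = m * (2 * π) := by exact_mod_cast h2
  apply hα
  refine ⟨(m : ℚ) / (2 * k), ?_⟩
  push_cast at h4 ⊢
  have hk' : (k : ℝ) ≠ 0 := by exact_mod_cast hk
  rw [div_eq_div_iff (by positivity) Real.pi_ne_zero]
  linarith

/-- Two reflections: all Fourier coefficients but the mean tend to zero. -/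
theorem four (hm1 : ∀ ρ, Measurable (k1 ρ)) (hb1 : ∀ ρ θ, ‖k1 ρ θ‖ ≤ 1)
    (hp1 : ∀ ρ θ, k1 ρ (θ + 2 * π) = k1 ρ θ) (hm2 : ∀ ρ, Measurable (k2 ρ))
    (hb2 : ∀ ρ θ, ‖k2 ρ θ‖ ≤ 1) (hp2 : ∀ ρ θ, k2 ρ (θ + 2 * π) = k2 ρ θ)
    (hχ1 : χ1 = 1 ∨ χ1 = -1) (hχ2 : χ2 = 1 ∨ χ2 = -1)
    (h1 : ∀ᵐ θ : ℝ, Tendsto (fun ρ => k1 ρ (2 * τ1 - θ) - χ1 * k1 ρ θ) (𝓝[>] 0) (𝓝 0))
    (h2 : ∀ᵐ θ : ℝ, Tendsto (fun ρ => k2 ρ (2 * τ2 - θ) - χ2 * k2 ρ θ) (𝓝[>] 0) (𝓝 0))
    (hJ : ∀ k : ℤ, Tendsto (fun ρ => ∫ θ in (0 : ℝ)..(2 * π), ek k θ * (k1 ρ θ - k2 ρ θ))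
      (𝓝[>] 0) (𝓝 0)) (hir : Irrational ((τ1 - τ2) / π)) :
    (∀ k : ℤ, k ≠ 0 → Tendsto (fun ρ => ∫ θ in (0 : ℝ)..(2 * π), ek k θ * k1 ρ θ)
      (𝓝[>] 0) (𝓝 0)) ∧
    Tendsto (fun ρ => (1 - χ1) * ∫ θ in (0 : ℝ)..(2 * π), k1 ρ θ) (𝓝[>] 0) (𝓝 0) ∧
    Tendsto (fun ρ => (1 - χ2) * ∫ θ in (0 : ℝ)..(2 * π), k1 ρ θ) (𝓝[>] 0) (𝓝 0) := by
  have n1 : ‖χ1‖ ≤ 1 := by rcases hχ1 with h | h <;> rw [h] <;> simp
  have n2 : ‖χ2‖ ≤ 1 := by rcases hχ2 with h | h <;> rw [h] <;> simp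
  have r1 := refl_coeff hm1 hb1 hp1 n1 h1
  have r2 := refl_coeff hm2 hb2 hp2 n2 h2
  have d : ∀ k : ℤ, Tendsto (fun ρ => (∫ θ in (0 : ℝ)..(2 * π), ek k θ * k1 ρ θ) -
      ∫ θ in (0 : ℝ)..(2 * π), ek k θ * k2 ρ θ) (𝓝[>] 0) (𝓝 0) := by
    intro k
    refine (hJ k).congr fun ρ => ?_
    rw [← intervalIntegral.integral_sub (ii_mul hm1 hb1 k ρ _ _) (ii_mul hm2 hb2 k ρ _ _)]
    simp only [mul_sub]
  set M1 : ℝ → ℤ → ℂ := fun ρ k => ∫ θ in (0 : ℝ)..(2 * π), ek k θ * k1 ρ θ with hM1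
  set M2 : ℝ → ℤ → ℂ := fun ρ k => ∫ θ in (0 : ℝ)..(2 * π), ek k θ * k2 ρ θ with hM2
  have ek_neg : ∀ (k : ℤ) (x : ℝ), ek k x * ek (-k) x = 1 := by
    intro k x
    unfold ek
    rw [← Complex.exp_add]
    have : (k : ℂ) * x * I + ((-k : ℤ) : ℂ) * x * I = 0 := by push_cast; ring
    rw [this, Complex.exp_zero]
  have ek_sub : ∀ (k : ℤ) (x y : ℝ), ek k (x - y) = ek k x * ek (-k) y := ek_refl
  -- the combination
  have comb : ∀ k : ℤ, Tendsto (fun ρ => M1 ρ k * (1 - χ1 * χ2 * ek k (2 * (τ1 - τ2))))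
      (𝓝[>] 0) (𝓝 0) := by
    intro k
    have a1 := r1 k
    have a2 := (d (-k)).const_mul (χ1 * ek k (2 * τ1))
    have a3 := (r2 (-k)).const_mul (χ1 * ek k (2 * τ1))
    have a4 := (d k).const_mul (χ1 * ek k (2 * τ1) * (χ2 * ek (-k) (2 * τ2)))
    rw [neg_neg] at a3
    have a5 := ((a1.add a2).add a3).sub a4
    simp only [mul_zero, add_zero, sub_zero] at a5
    refine a5.congr fun ρ => ?_
    have e : ek k (2 * (τ1 - τ2)) = ek k (2 * τ1) * ek (-k) (2 * τ2) := by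
      rw [← ek_sub]
      congr 1
      ring
    rw [e]
    ring
  have ek0 : ∀ x : ℝ, ek 0 x = 1 := by
    intro x
    unfold ek
    simp
  have hM0 : ∀ ρ, M1 ρ 0 = ∫ θ in (0 : ℝ)..(2 * π), k1 ρ θ := by
    intro ρ
    simp only [hM1, ek0, one_mul]
  refine ⟨fun k hk => ?_, ?_, ?_⟩
  · have hne : 1 - χ1 * χ2 * ek k (2 * (τ1 - τ2)) ≠ 0 := by
      rw [sub_ne_zero]
      refine (ek_ne k hk hir ?_).symm
      rcases hχ1 with h | h <;> rcases hχ2 with h' | h' <;> rw [h, h'] <;> norm_num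
    have h3 := (comb k).mul_const (1 - χ1 * χ2 * ek k (2 * (τ1 - τ2)))⁻¹
    rw [zero_mul] at h3
    refine h3.congr fun ρ => ?_
    rw [mul_assoc, mul_inv_cancel₀ hne, mul_one]
  · have a1 := r1 0
    refine a1.congr fun ρ => ?_
    rw [neg_zero]
    simp only [ek0, one_mul, mul_one]
    ring
  · have a1 := r2 0
    have a2 := (d 0).mul_const (1 - χ2)
    rw [zero_mul] at a2
    have a3 := a1.add a2
    rw [add_zero] at a3
    refine a3.congr fun ρ => ?_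
    rw [neg_zero]
    simp only [ek0, one_mul, mul_one, hM1]
    ring

/-- Density of the trigonometric polynomials. -/
theorem dens {κ : ℝ → ℝ → ℂ} (hm : ∀ ρ, Measurable (κ ρ)) (hb : ∀ ρ θ, ‖κ ρ θ‖ ≤ 1)
    (h : ∀ k : ℤ, k ≠ 0 → Tendsto (fun ρ => ∫ θ in (0 : ℝ)..(2 * π), ek k θ * κ ρ θ)
      (𝓝[>] 0) (𝓝 0)) {ψ : ℝ → ℂ} (hc : Continuous ψ) (hper : ∀ θ, ψ (θ + 2 * π) = ψ θ) :
    Tendsto (fun ρ => (∫ θ in (0 : ℝ)..(2 * π), ψ θ * κ ρ θ) -
      (1 / (2 * π)) * (∫ θ in (0 : ℝ)..(2 * π), ψ θ) * ∫ θ in (0 : ℝ)..(2 * π), κ ρ θ)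
      (𝓝[>] 0) (𝓝 0) := by
  have hpi := Real.pi_pos
  haveI : Fact ((0 : ℝ) < 2 * π) := ⟨by positivity⟩
  have hp : Function.Periodic ψ (2 * π) := hper
  have hint : ∀ (g : C(AddCircle (2 * π), ℂ)) (ρ : ℝ),
      IntervalIntegrable (fun θ : ℝ => g (θ : AddCircle (2 * π)) * κ ρ θ) volume 0 (2 * π) := by
    intro g ρ
    refine (intervalIntegrable_const (c := ‖g‖)).mono_fun
      (((g.continuous.comp (AddCircle.continuous_mk' _)).measurable.mul (hm ρ)).aestronglyMeasurable)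
      (Filter.Eventually.of_forall fun θ => ?_)
    simp only
    rw [norm_mul, norm_norm]
    calc ‖g (θ : AddCircle (2 * π))‖ * ‖κ ρ θ‖ ≤ ‖g‖ * 1 :=
          mul_le_mul (g.norm_coe_le_norm _) (hb ρ θ) (norm_nonneg _) (norm_nonneg _)
      _ = ‖g‖ := mul_one _
  have hint0 : ∀ (g : C(AddCircle (2 * π), ℂ)),
      IntervalIntegrable (fun θ : ℝ => g (θ : AddCircle (2 * π))) volume 0 (2 * π) := fun g =>
    (g.continuous.comp (AddCircle.continuous_mk' _)).intervalIntegrable _ _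
  set Λ : ℝ → C(AddCircle (2 * π), ℂ) → ℂ := fun ρ g =>
    (∫ θ in (0 : ℝ)..(2 * π), g (θ : AddCircle (2 * π)) * κ ρ θ) -
      (1 / (2 * π)) * (∫ θ in (0 : ℝ)..(2 * π), g (θ : AddCircle (2 * π))) *
        ∫ θ in (0 : ℝ)..(2 * π), κ ρ θ with hΛ
  have hadd : ∀ ρ g g', Λ ρ (g + g') = Λ ρ g + Λ ρ g' := by
    intro ρ g g'
    simp only [hΛ, ContinuousMap.add_apply, add_mul]
    rw [intervalIntegral.integral_add (hint g ρ) (hint g' ρ),
      intervalIntegral.integral_add (hint0 g) (hint0 g')]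
    ring
  have hsmul : ∀ ρ (c : ℂ) g, Λ ρ (c • g) = c * Λ ρ g := by
    intro ρ c g
    simp only [hΛ, ContinuousMap.smul_apply, smul_eq_mul, mul_assoc]
    rw [intervalIntegral.integral_const_mul, intervalIntegral.integral_const_mul]
    ring
  have hbd : ∀ ρ g, ‖Λ ρ g‖ ≤ 4 * π * ‖g‖ := by
    intro ρ g
    have b1 : ‖∫ θ in (0 : ℝ)..(2 * π), g (θ : AddCircle (2 * π)) * κ ρ θ‖ ≤ ‖g‖ * (2 * π) := by
      have := intervalIntegral.norm_integral_le_of_norm_le_const (a := 0) (b := 2 * π) (C := ‖g‖)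
        (f := fun θ : ℝ => g (θ : AddCircle (2 * π)) * κ ρ θ) (fun θ _ => by
          rw [norm_mul]
          calc ‖g (θ : AddCircle (2 * π))‖ * ‖κ ρ θ‖ ≤ ‖g‖ * 1 :=
                mul_le_mul (g.norm_coe_le_norm _) (hb ρ θ) (norm_nonneg _) (norm_nonneg _)
            _ = ‖g‖ := mul_one _)
      rwa [sub_zero, abs_of_pos (by positivity : (0 : ℝ) < 2 * π)] at this
    have b2 : ‖∫ θ in (0 : ℝ)..(2 * π), g (θ : AddCircle (2 * π))‖ ≤ ‖g‖ * (2 * π) := by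
      have := intervalIntegral.norm_integral_le_of_norm_le_const (a := 0) (b := 2 * π) (C := ‖g‖)
        (f := fun θ : ℝ => g (θ : AddCircle (2 * π))) (fun θ _ => g.norm_coe_le_norm _)
      rwa [sub_zero, abs_of_pos (by positivity : (0 : ℝ) < 2 * π)] at this
    have b3 : ‖∫ θ in (0 : ℝ)..(2 * π), κ ρ θ‖ ≤ 1 * (2 * π) := by
      have := intervalIntegral.norm_integral_le_of_norm_le_const (a := 0) (b := 2 * π) (C := 1)
        (f := fun θ : ℝ => κ ρ θ) (fun θ _ => hb ρ θ)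
      rwa [sub_zero, abs_of_pos (by positivity : (0 : ℝ) < 2 * π)] at this
    have b4 : ‖(1 / (2 * (π : ℂ)))‖ = 1 / (2 * π) := by
      rw [norm_div, norm_one, norm_mul, Complex.norm_real, Real.norm_eq_abs, abs_of_pos hpi]
      norm_num
    simp only [hΛ]
    refine (norm_sub_le _ _).trans ?_
    rw [norm_mul, norm_mul, b4]
    calc _ ≤ ‖g‖ * (2 * π) + 1 / (2 * π) * (‖g‖ * (2 * π)) * (1 * (2 * π)) := by
          gcongr
      _ = 4 * π * ‖g‖ := by field_simp; ring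
  have hspan : ∀ g ∈ Submodule.span ℂ (range (fourier (T := 2 * π))),
      Tendsto (fun ρ => Λ ρ g) (𝓝[>] 0) (𝓝 0) := by
    intro g hg
    induction hg using Submodule.span_induction with
    | mem g hg =>
      obtain ⟨k, rfl⟩ := hg
      have e1 : ∀ θ : ℝ, fourier k (θ : AddCircle (2 * π)) = ek k θ := by
        intro θ
        rw [fourier_coe_apply]
        unfold ek
        congr 1
        have : (π : ℂ) ≠ 0 := by exact_mod_cast hpi.ne'
        push_cast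
        field_simp
      by_cases hk : k = 0
      · subst hk
        refine tendsto_const_nhds.congr fun ρ => ?_
        simp only [hΛ, e1]
        have ek0 : ∀ x : ℝ, ek 0 x = 1 := by
          intro x
          unfold ek
          simp
        simp only [ek0, one_mul]
        rw [intervalIntegral.integral_const, sub_zero, real_smul, mul_one]
        have : (π : ℂ) ≠ 0 := by exact_mod_cast hpi.ne'
        push_cast
        field_simp
        ring
      · have e2 : ∫ θ in (0 : ℝ)..(2 * π), ek k θ = 0 := by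
          have hk' : (k : ℂ) * I ≠ 0 := mul_ne_zero (by exact_mod_cast hk) I_ne_zero
          have h1 : ∀ θ : ℝ, ek k θ = exp ((k : ℂ) * I * θ) := by
            intro θ; unfold ek; congr 1; ring
          simp only [h1]
          rw [integral_exp_mul_complex hk']
          have h2 : (k : ℂ) * I * ((2 * π : ℝ) : ℂ) = k * (2 * π * I) := by push_cast; ring
          rw [h2, Complex.exp_int_mul_two_pi_mul_I]
          simp
        refine (h k hk).congr fun ρ => ?_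
        simp only [hΛ, e1, e2, mul_zero, zero_mul, sub_zero]
    | zero =>
      refine tendsto_const_nhds.congr fun ρ => ?_
      simp [hΛ]
    | add g g' _ _ h1 h2 =>
      have := h1.add h2
      rw [add_zero] at this
      exact this.congr fun ρ => (hadd ρ g g').symm
    | smul c g _ h1 =>
      have := h1.const_mul c
      rw [mul_zero] at this
      exact this.congr fun ρ => (hsmul ρ c g).symm
  -- approximation
  have hlift : Continuous hp.lift := by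
    exact (QuotientAddGroup.isQuotientMap_mk (AddSubgroup.zmultiples (2 * π))).continuous_iff.2 hc
  set F : C(AddCircle (2 * π), ℂ) := ⟨hp.lift, hlift⟩ with hF
  have hFv : ∀ θ : ℝ, F (θ : AddCircle (2 * π)) = ψ θ := fun θ => hp.lift_coe θ
  have goal : Tendsto (fun ρ => Λ ρ F) (𝓝[>] 0) (𝓝 0) := by
    rw [Metric.tendsto_nhds]
    intro ε hε
    have hcl : F ∈ (Submodule.span ℂ (range (fourier (T := 2 * π)))).topologicalClosure := by
      rw [span_fourier_closure_eq_top]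
      trivial
    have hcl' : F ∈ closure (Submodule.span ℂ (range (fourier (T := 2 * π))) :
        Set C(AddCircle (2 * π), ℂ)) := hcl
    obtain ⟨q, hq1, hq2⟩ := Metric.mem_closure_iff.1 hcl' (ε / (8 * π)) (by positivity)
    have h1 := (Metric.tendsto_nhds.1 (hspan q hq1)) (ε / 2) (by positivity)
    filter_upwards [h1] with ρ hρ
    rw [dist_zero_right] at hρ ⊢
    have h2 : F = q + (F - q) := by abel
    have h3 : ‖F - q‖ < ε / (8 * π) := by rw [← dist_eq_norm]; exact hq2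
    rw [h2, hadd]
    have h4 := hbd ρ (F - q)
    have h5 : 4 * π * ‖F - q‖ < 4 * π * (ε / (8 * π)) := by gcongr
    have h6 : 4 * π * (ε / (8 * π)) = ε / 2 := by field_simp; ring
    linarith [norm_add_le (Λ ρ q) (Λ ρ (F - q))]
  refine goal.congr fun ρ => ?_
  simp only [hΛ, hFv]

end Pool.Agent.Zk55.CF
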