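import Pool.Agent.Zk55.CF.Vis

set_option autoImplicit false

/-!
The fibres at the directions of the visible vertices: the window.
-/

namespace Pool.Agent.Zk55.CF

open Complex Set MeasureTheory Filter Topology Pool.Agent.W780.PG Pool.Agent.W780.BB
  Pool.Agent.TH578.BE Pool.Agent.K3h17.BK

open scoped Real ComplexConjugate

variable {n : ℕ} {p : Fin (n + 3) → ℂ} {χ : Fin (n + 3) → ℂ} {f : ℂ × ℝ → ℂ}

theorem dir_int (θ : ℝ) (k : ℤ) : dir (θ + 2 * π * k) = dir θ := dir_period θ k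

/-- Directions towards `b` from points near `z0`. -/
theorem angle_near {b z0 : ℂ} {θ0 L : ℝ} (hL : 0 < L) (hb : b - z0 = (L : ℂ) * dir θ0) {δ : ℝ}
    (hδ : 0 < δ) : ∃ τ : ℝ, 0 < τ ∧ ∀ z, ‖z - z0‖ < τ → ∀ θ, 0 < rr b θ z → |vv b θ z| < τ →
      ∃ k : ℤ, |θ + 2 * π * k - θ0| < δ := by
  have hpi := Real.pi_pos
  set δ' := min δ (π / 2) with hδ'
  have hδ'0 : 0 < δ' := lt_min hδ (by positivity)
  have hδ'1 : δ' ≤ π / 2 := min_le_right _ _
  have hsin : 0 < Real.sin δ' := Real.sin_pos_of_pos_of_lt_pi hδ'0 (by linarith)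
  have hsin1 : Real.sin δ' ≤ 1 := Real.sin_le_one _
  refine ⟨L * Real.sin δ' / 4, by positivity, fun z hz θ hr hv => ?_⟩
  set τ := L * Real.sin δ' / 4 with hτ
  -- the product
  have e1 : conj (dir θ) * (b - z) = (L : ℂ) * dir (θ0 - θ) - conj (dir θ) * (z - z0) := by
    have h1 : b - z = (L : ℂ) * dir θ0 - (z - z0) := by rw [← hb]; ring
    rw [h1, mul_sub, dir_conj, mul_left_comm, dir_mul]
    congr 3
    ring
  have hn : ‖conj (dir θ) * (z - z0)‖ < τ := by
    rw [norm_mul, RCLike.norm_conj, nd, one_mul]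
    exact hz
  have hre := (Complex.abs_re_le_norm _).trans_lt hn
  have him := (Complex.abs_im_le_norm _).trans_lt hn
  have r1 : rr b θ z = L * Real.cos (θ0 - θ) - (conj (dir θ) * (z - z0)).re := by
    unfold rr
    rw [e1, Complex.sub_re, Complex.re_ofReal_mul]
    unfold dir
    rw [Complex.exp_ofReal_mul_I_re]
  have v1 : vv b θ z = - (L * Real.sin (θ0 - θ) - (conj (dir θ) * (z - z0)).im) := by
    unfold vv
    have e2 : conj (dir θ) * (z - b) = -(conj (dir θ) * (b - z)) := by ring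
    rw [e2, Complex.neg_im, e1, Complex.sub_im, Complex.im_ofReal_mul]
    unfold dir
    rw [Complex.exp_ofReal_mul_I_im]
  rw [r1] at hr
  rw [v1, abs_neg] at hv
  have c1 : -τ < L * Real.cos (θ0 - θ) := by linarith [(abs_lt.1 hre).1]
  have c2 : |L * Real.sin (θ0 - θ)| < 2 * τ := by
    have := abs_sub_abs_le_abs_sub (L * Real.sin (θ0 - θ)) (conj (dir θ) * (z - z0)).im
    linarith
  rw [abs_mul, abs_of_pos hL] at c2
  have c3 : |Real.sin (θ0 - θ)| < Real.sin δ' / 2 := by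
    have : L * |Real.sin (θ0 - θ)| < L * (Real.sin δ' / 2) := by
      rw [hτ] at c2
      linarith
    exact lt_of_mul_lt_mul_left this hL.le
  have c4 : -(1 / 4) < Real.cos (θ0 - θ) := by
    have : L * (-(1 / 4)) < L * Real.cos (θ0 - θ) := by
      rw [hτ] at c1
      nlinarith
    exact lt_of_mul_lt_mul_left this hL.le
  -- normalize
  obtain ⟨k, hk⟩ : ∃ k : ℤ, |θ + 2 * π * k - θ0| ≤ π := by
    refine ⟨-round ((θ - θ0) / (2 * π)), ?_⟩
    have h1 := abs_sub_round ((θ - θ0) / (2 * π))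
    have e3 : θ + 2 * π * ((-round ((θ - θ0) / (2 * π)) : ℤ) : ℝ) - θ0 =
        (2 * π) * ((θ - θ0) / (2 * π) - round ((θ - θ0) / (2 * π))) := by
      push_cast
      field_simp
      ring
    rw [e3, abs_mul, abs_of_pos (by positivity : (0 : ℝ) < 2 * π)]
    nlinarith
  refine ⟨k, ?_⟩
  set x := θ + 2 * π * k - θ0 with hx
  have hcos : Real.cos x = Real.cos (θ0 - θ) := by
    have : x = -(θ0 - θ) + k * (2 * π) := by rw [hx]; ring
    rw [this, Real.cos_add_int_mul_two_pi, Real.cos_neg]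
  have hsinx : |Real.sin x| = |Real.sin (θ0 - θ)| := by
    have : x = -(θ0 - θ) + k * (2 * π) := by rw [hx]; ring
    rw [this, Real.sin_add_int_mul_two_pi, Real.sin_neg, abs_neg]
  have hsa : Real.sin |x| = |Real.sin x| := by
    have h0 : 0 ≤ Real.sin |x| := Real.sin_nonneg_of_nonneg_of_le_pi (abs_nonneg _) hk
    rcases abs_cases x with ⟨h, -⟩ | ⟨h, -⟩
    · rw [h] at h0 ⊢
      rw [abs_of_nonneg h0]
    · rw [h, Real.sin_neg] at h0 ⊢
      rw [abs_of_nonpos (by linarith)]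
  have hhalf : |x| < π / 2 := by
    by_contra hcon
    push Not at hcon
    have h1 : Real.cos |x| ≤ 0 := Real.cos_nonpos_of_pi_div_two_le_of_le hcon (by linarith)
    rw [Real.cos_abs, hcos] at h1
    have h2 := Real.sin_sq_add_cos_sq (θ0 - θ)
    have h3 : Real.sin (θ0 - θ) ^ 2 ≤ 1 / 4 := by
      rw [← sq_abs]
      have : |Real.sin (θ0 - θ)| ≤ 1 / 2 := by linarith
      nlinarith [abs_nonneg (Real.sin (θ0 - θ))]
    nlinarith
  have hlt : |x| < δ' := by
    by_contra hcon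
    push Not at hcon
    have h1 : Real.sin δ' ≤ Real.sin |x| :=
      Real.sin_le_sin_of_le_of_le_pi_div_two (by linarith) hhalf.le hcon
    rw [hsa, hsinx] at h1
    linarith
  exact hlt.trans_le (min_le_left _ _)

/-- The image of the lines near an unfolded vertex. -/
theorem fw_lb {w : List (Fin (n + 3))} (hp : IsConvexPolygon p) (j : Fin (n + 3)) {e c : ℝ}
    (h : ∀ x : ℝ × ℝ, (fw p w x).1 = e * x.1 + c) (θ s : ℝ) :
    fw p w (lb (uf p w (p j)) θ s) = lb (p j) (e * θ + c) ((-1) ^ w.length * s) := by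
  obtain ⟨hr1, -⟩ := Pool.Agent.W347.BB.ref n p hp
  have h1 := ph_fw hr1 w (lb (uf p w (p j)) θ s) (p j)
  rw [ph_lb, sub_self, mul_zero, Complex.zero_im, zero_sub] at h1
  have h2 : (fw p w (lb (uf p w (p j)) θ s)).1 = e * θ + c := h _
  unfold ph at h1
  rw [h2] at h1
  ext
  · exact h2
  · show (fw p w (lb (uf p w (p j)) θ s)).2 = (conj (dir (e * θ + c)) * p j).im +
      (-1) ^ w.length * s
    linarith

theorem on_lb (b : ℂ) (φ s u : ℝ) : ph (lb b φ s) (b - u • dir φ + s • (I * dir φ)) = 0 := by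
  rw [ph_lb]
  have e : conj (dir φ) * (b - u • dir φ + s • (I * dir φ) - b) =
      (conj (dir φ) * dir φ) * (-(u : ℂ) + (s : ℂ) * I) := by
    rw [real_smul, real_smul]
    ring
  rw [e, conj_dir_mul, one_mul]
  simp

/-- The window at a point which sees the vertex. -/
theorem window (hp : IsConvexPolygon p) {z0 : ℂ} (hz0 : z0 ∈ reg p) {w : List (Fin (n + 3))}
    {j : Fin (n + 3)} {θ0 : ℝ} (hv : VisAt p z0 w j θ0) {e c : ℝ} (he : e = 1 ∨ e = -1)
    (h : ∀ x : ℝ × ℝ, (fw p w x).1 = e * x.1 + c) : ∃ τ u : ℝ, 0 < τ ∧ 0 < u ∧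
      ∀ z, ‖z - z0‖ < τ → z ∈ reg p ∧ ∀ θ, 0 < rr (uf p w (p j)) θ z →
        |vv (uf p w (p j)) θ z| < τ → p j - u • dir (e * θ + c) ∈ reg p ∧
        ∃ (k : ℤ) (y : ℂ), RW p w (ln z (θ + 2 * π * k)) ∧ y ∈ reg p ∧
          ph (fw p w (ln z (θ + 2 * π * k))) y = 0 := by
  obtain ⟨hRW, hb0, hrr, u, hu, hin⟩ := hv
  set b := uf p w (p j) with hb
  rw [h] at hin
  -- the direction
  set L := rr b θ0 z0 with hL
  have hbz : b - z0 = (L : ℂ) * dir θ0 := by
    have h1 := on_line (ph_ln_self z0 θ0) hb0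
    rw [← tt_rr, ← hL, real_smul] at h1
    have h2 : (ln z0 θ0).1 = θ0 := rfl
    rw [h2] at h1
    rw [h1]
    ring
  have hvv0 : vv b θ0 z0 = 0 := by
    have h1 : vv b θ0 z0 = - ph (ln z0 θ0) b := by
      rw [ph_ln]
      unfold vv
      rw [← Complex.neg_im]
      congr 1
      ring
    rw [h1, hb0, neg_zero]
  -- the open set
  set e' : ℝ := (-1) ^ w.length with he'
  set O : Set (ℂ × ℝ) := {q | q.1 ∈ reg p ∧ RW p w (ln q.1 q.2) ∧
    p j - u • dir (e * q.2 + c) + (e' * vv b q.2 q.1) • (I * dir (e * q.2 + c)) ∈ reg p ∧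
    p j - u • dir (e * q.2 + c) ∈ reg p} with hO
  have hOo : IsOpen O := by
    have hd := cont_dir
    have c1 : Continuous fun q : ℂ × ℝ => ln q.1 q.2 := by
      unfold ln
      have := continuous_conj
      fun_prop
    have c2 : Continuous fun q : ℂ × ℝ => vv b q.2 q.1 :=
      (cont_vv b).comp (continuous_snd.prodMk continuous_fst)
    refine ((reg_op hp).preimage continuous_fst).inter (((isOpen_RW w).preimage c1).inter
      (((reg_op hp).preimage ?_).inter ((reg_op hp).preimage ?_)))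
    · fun_prop
    · fun_prop
  have hmem : (z0, θ0) ∈ O := by
    refine ⟨hz0, hRW, ?_, hin⟩
    simp only [hvv0, mul_zero, zero_smul, add_zero]
    exact hin
  obtain ⟨δ, hδ, hball⟩ := Metric.isOpen_iff.1 hOo _ hmem
  obtain ⟨τ, hτ, hang⟩ := angle_near hrr hbz hδ
  refine ⟨min τ δ, u, lt_min hτ hδ, hu, fun z hz => ?_⟩
  have hzτ := hz.trans_le (min_le_left _ _)
  have hzδ := hz.trans_le (min_le_right _ _)
  have hzr : z ∈ reg p := by
    have : (z, θ0) ∈ O := by
      apply hball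
      rw [Metric.mem_ball, Prod.dist_eq, max_lt_iff, dist_eq_norm, dist_self]
      exact ⟨hzδ, hδ⟩
    exact this.1
  refine ⟨hzr, fun θ h1 h2 => ?_⟩
  obtain ⟨k, hk⟩ := hang z hzτ θ h1 (h2.trans_le (min_le_left _ _))
  have hq : (z, θ + 2 * π * k) ∈ O := by
    apply hball
    rw [Metric.mem_ball, Prod.dist_eq, max_lt_iff, dist_eq_norm, Real.dist_eq]
    exact ⟨hzδ, hk⟩
  obtain ⟨-, q2, q3, q4⟩ := hq
  simp only at q2 q3 q4
  refine ⟨?_, k, _, q2, q3, ?_⟩
  · have h3 : dir (e * (θ + 2 * π * k) + c) = dir (e * θ + c) := by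
      rcases he with h' | h'
      · rw [h', one_mul, one_mul, show θ + 2 * π * k + c = θ + c + 2 * π * k by ring, dir_int]
      · have : -1 * (θ + 2 * π * k) + c = -1 * θ + c + 2 * π * ((-k : ℤ) : ℝ) := by
          push_cast; ring
        rw [h', this, dir_int]
    rwa [h3] at q4
  · rw [ln_lb b, fw_lb hp j h]
    exact on_lb _ _ _ _

end Pool.Agent.Zk55.CF
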