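import Pool.Agent.Zk55.CF.Ident

set_option autoImplicit false

/-!
The fibres at the directions of the visible vertices.
-/

namespace Pool.Agent.Zk55.CF

open Complex Set MeasureTheory Filter Topology Pool.Agent.W780.PG Pool.Agent.W780.BB
  Pool.Agent.TH578.BE Pool.Agent.K3h17.BK

open scoped Real ComplexConjugate

variable {n : ℕ} {p : Fin (n + 3) → ℂ} {χ : Fin (n + 3) → ℂ} {f : ℂ × ℝ → ℂ}

/-- Substitution along a word. -/
theorem int_sub {g : ℝ → ℂ} (hg : ∀ θ, g (θ + 2 * π) = g θ) {e : ℝ} (he : e = 1 ∨ e = -1)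
    (c : ℝ) : ∫ θ in (0 : ℝ)..(2 * π), g (e * θ + c) = ∫ θ in (0 : ℝ)..(2 * π), g θ := by
  rcases he with h | h
  · have := int_shift hg c
    rw [← this, h]
    refine intervalIntegral.integral_congr fun θ _ => ?_
    show g (1 * θ + c) = g (c + θ)
    congr 1
    ring
  · have := int_refl hg c
    rw [← this, h]
    refine intervalIntegral.integral_congr fun θ _ => ?_
    show g (-1 * θ + c) = g (c - θ)
    congr 1
    ring

theorem e_sq {e : ℝ} (he : e = 1 ∨ e = -1) : e * e = 1 := by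
  rcases he with h | h <;> rw [h] <;> norm_num

theorem e_per {g : ℝ → ℂ} (hg : ∀ θ, g (θ + 2 * π) = g θ) {e : ℝ} (he : e = 1 ∨ e = -1) (c θ : ℝ) :
    g (e * (θ + 2 * π) + c) = g (e * θ + c) := by
  rcases he with h | h
  · have : e * (θ + 2 * π) + c = (e * θ + c) + 2 * π := by rw [h]; ring
    rw [this, hg]
  · have : e * θ + c = (e * (θ + 2 * π) + c) + 2 * π := by rw [h]; ring
    rw [this, hg]

theorem vv_int (b : ℂ) (θ : ℝ) (k : ℤ) (z : ℂ) : vv b (θ + 2 * π * k) z = vv b θ z := by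
  unfold vv
  rw [dir_int]

theorem eig_int (hE : IsEigenfunction p 0 χ f) (z : ℂ) (θ : ℝ) (k : ℤ) :
    f (z, θ + 2 * π * k) = f (z, θ) := by
  have h := per_int (ψ := fun θ => f (z, θ)) (hE.periodic z) θ k
  have e : θ + 2 * π * k = θ + k * (2 * π) := by ring
  rw [e]
  exact h

/-- The function of the lines near the unfolded vertex. -/
noncomputable def HH (p : Fin (n + 3) → ℂ) (χ : Fin (n + 3) → ℂ) (f : ℂ × ℝ → ℂ)
    (w : List (Fin (n + 3))) (j : Fin (n + 3)) (e c : ℝ) (x : ℝ × ℝ) : ℂ :=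
  sg χ w * Kv p f j (e * x.1 + c, (-1) ^ w.length * x.2)

theorem sg_nrm (hχ : ∀ i, χ i = 1 ∨ χ i = -1) (w : List (Fin (n + 3))) : ‖sg χ w‖ = 1 := by
  rcases sg_norm hχ w with h | h <;> rw [h] <;> simp

theorem HH_bound (hp : IsConvexPolygon p) (hE : IsEigenfunction p 0 χ f) (hb : ∀ x, ‖f x‖ ≤ 1)
    (hχ : ∀ i, χ i = 1 ∨ χ i = -1) (w : List (Fin (n + 3))) (j : Fin (n + 3)) (e c : ℝ)
    (x : ℝ × ℝ) : ‖HH p χ f w j e c x‖ ≤ 1 := by
  unfold HH
  rw [norm_mul, sg_nrm hχ, one_mul]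
  exact Kv_bound hp hE hb j _

theorem HH_meas (hp : IsConvexPolygon p) (hf : Measurable f) (w : List (Fin (n + 3)))
    (j : Fin (n + 3)) (e c : ℝ) : Measurable (HH p χ f w j e c) := by
  unfold HH
  refine ((Kv_meas hp hf j).comp ?_).const_mul _
  exact ((measurable_fst.const_mul e).add_const c).prodMk (measurable_snd.const_mul _)

theorem HH_per (hE : IsEigenfunction p 0 χ f) (w : List (Fin (n + 3)))
    (j : Fin (n + 3)) {e : ℝ} (he : e = 1 ∨ e = -1) (c θ s : ℝ) :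
    HH p χ f w j e c (θ + 2 * π, s) = HH p χ f w j e c (θ, s) := by
  unfold HH
  have := e_per (g := fun φ => Kv p f j (φ, (-1) ^ w.length * s)) (fun φ => Kv_per hE j φ _) he c θ
  simp only at this ⊢
  rw [this]

theorem pow_pm (k : ℕ) : ((-1 : ℝ) ^ k = 1) ∨ ((-1 : ℝ) ^ k = -1) := neg_one_pow_eq_or ℝ k

theorem HH_avg (w : List (Fin (n + 3))) (j : Fin (n + 3)) (e c : ℝ) {ρ : ℝ} (hρ : 0 < ρ) (θ : ℝ) :
    (1 / (ρ : ℂ)) * ∫ s in (0 : ℝ)..ρ, HH p χ f w j e c (θ, (-1) ^ w.length * s) =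
      sg χ w * Kp p f j ρ (e * θ + c) := by
  unfold HH
  have h1 : ∀ s : ℝ, (-1 : ℝ) ^ w.length * ((-1) ^ w.length * s) = 1 * s := by
    intro s
    rw [← mul_assoc, e_sq (pow_pm _)]
  simp only [h1]
  rw [intervalIntegral.integral_const_mul, mul_left_comm, Kp_eq j hρ, one_mul]

/-- The values. -/
theorem HH_val (hp : IsConvexPolygon p) (hE : IsEigenfunction p 0 χ f)
    (hχ : ∀ i, χ i = 1 ∨ χ i = -1) {w : List (Fin (n + 3))}
    {j : Fin (n + 3)} {e c : ℝ} (he : e = 1 ∨ e = -1) (h : ∀ x : ℝ × ℝ, (fw p w x).1 = e * x.1 + c)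
    {z : ℂ} (hz : z ∈ reg p) {θ : ℝ} {k : ℤ} {y : ℂ} (hW : RW p w (ln z (θ + 2 * π * k)))
    (hy : y ∈ reg p) (h2 : ph (fw p w (ln z (θ + 2 * π * k))) y = 0) :
    HH p χ f w j e c (θ, vv (uf p w (p j)) θ z) = f (z, θ) := by
  have h3 := Fv_fw hp hE hz (ph_ln_self z _) hW hy h2
  have h4 : (ln z (θ + 2 * π * k)).1 = θ + 2 * π * k := rfl
  rw [h4, eig_int hE, ln_lb (uf p w (p j)), fw_lb hp j h] at h3
  unfold HH
  have h5 : Kv p f j (e * θ + c, (-1) ^ w.length * vv (uf p w (p j)) θ z) =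
      Fv p f (lb (p j) (e * (θ + 2 * π * k) + c)
        ((-1) ^ w.length * (conj (dir (θ + 2 * π * k)) * (z - uf p w (p j))).im)) := by
    have h6 := per_int (ψ := fun φ => Kv p f j (φ, (-1) ^ w.length * vv (uf p w (p j)) θ z))
      (fun φ => Kv_per hE j φ _)
    have h7 : (conj (dir (θ + 2 * π * k)) * (z - uf p w (p j))).im = vv (uf p w (p j)) θ z :=
      vv_int _ θ k z
    rw [h7]
    change _ = Kv p f j (e * (θ + 2 * π * k) + c, (-1) ^ w.length * vv (uf p w (p j)) θ z)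
    rcases he with h' | h'
    · have h8 := h6 (e * θ + c) k
      rw [← h8]
      congr 2
      rw [h']
      ring
    · have h8 := h6 (e * θ + c) (-k)
      rw [← h8]
      congr 2
      rw [h']
      push_cast
      ring
  simp only
  rw [h5, h3, ← mul_assoc, sg_sq hχ, one_mul]

/-- The integrals against test functions near a point which sees the vertex. -/
theorem ident_int (hp : IsConvexPolygon p) (hf : Measurable f) (hb : ∀ x, ‖f x‖ ≤ 1)
    (hχ : ∀ i, χ i = 1 ∨ χ i = -1) (hE : IsEigenfunction p 0 χ f) {rv : ℝ} {G : ℂ → ℝ → ℂ}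
    (hG : Fib p rv f G) {z0 : ℂ} (hz0 : z0 ∈ reg p) (hz0v : ∃ j, ‖z0 - p j‖ < rv) {w : List (Fin (n + 3))} {j : Fin (n + 3)} {θ0 : ℝ}
    (hv : VisAt p z0 w j θ0) {cj : ℂ}
    (hcj : ∀ ψ : ℝ → ℂ, Continuous ψ → (∀ θ, ψ (θ + 2 * π) = ψ θ) → (∀ θ, ψ θ ≠ 0 → θ ∈ Inc p j) →
      Tendsto (fun ρ : ℝ => ∫ θ in (0 : ℝ)..(2 * π), ψ θ * Kp p f j ρ θ) (𝓝[>] 0)
        (𝓝 (cj * ∫ θ in (0 : ℝ)..(2 * π), ψ θ))) :
    ∃ r r1 : ℝ, 0 < r ∧ 0 < r1 ∧ (∀ z, ‖z - z0‖ < r →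
        (z ∈ reg p ∧ ∃ j, ‖z - p j‖ < rv) ∧ r1 ≤ ‖z - uf p w (p j)‖) ∧
      ∀ Ψ : ℂ → ℂ, Continuous Ψ → HasCompactSupport Ψ → (∀ z, Ψ z ≠ 0 → ‖z - z0‖ < r) →
        ∫ z, Ψ z * G z (arg (uf p w (p j) - z)) / ‖z - uf p w (p j)‖ =
          sg χ w * cj * ∫ z, Ψ z / ‖z - uf p w (p j)‖ := by
  obtain ⟨e, c, he, hec⟩ := fw_fst (p := p) w
  obtain ⟨τ', u, hτ', hu, hwin'⟩ := window hp hz0 hv he hec
  obtain ⟨j0, hj0⟩ := hz0v
  obtain ⟨τ, hτ, hττ', hτv⟩ : ∃ τ : ℝ, 0 < τ ∧ τ ≤ τ' ∧ τ ≤ rv - ‖z0 - p j0‖ :=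
    ⟨min τ' (rv - ‖z0 - p j0‖), lt_min hτ' (by linarith), min_le_left _ _, min_le_right _ _⟩
  have hwin : ∀ z, ‖z - z0‖ < τ → z ∈ reg p ∧ ∀ θ, 0 < rr (uf p w (p j)) θ z →
        |vv (uf p w (p j)) θ z| < τ → p j - u • dir (e * θ + c) ∈ reg p ∧
        ∃ (k : ℤ) (y : ℂ), RW p w (ln z (θ + 2 * π * k)) ∧ y ∈ reg p ∧
          ph (fw p w (ln z (θ + 2 * π * k))) y = 0 := fun z hz =>
    ⟨(hwin' z (hz.trans_le hττ')).1, fun θ h1 h2 => (hwin' z (hz.trans_le hττ')).2 θ h1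
      (h2.trans_le hττ')⟩
  have hnear : ∀ z, ‖z - z0‖ < τ → ∃ j, ‖z - p j‖ < rv := by
    intro z hz
    refine ⟨j0, ?_⟩
    have e1 : z - p j0 = (z - z0) + (z0 - p j0) := by ring
    rw [e1]
    linarith [norm_add_le (z - z0) (z0 - p j0)]
  obtain ⟨-, hb0, hrr, -⟩ := hv
  set b := uf p w (p j) with hbdef
  set L := ‖z0 - b‖ with hL
  have hL0 : 0 < L := by
    rw [hL, norm_pos_iff, sub_ne_zero]
    rintro rfl
    unfold rr at hrr
    rw [sub_self, mul_zero, Complex.zero_re] at hrr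
    exact lt_irrefl _ hrr
  have hdist : ∀ z, ‖z - z0‖ < min τ (L / 2) → L / 2 ≤ ‖z - b‖ ∧ ‖z - b‖ ≤ 3 * L / 2 := by
    intro z hz
    have h1 := hz.trans_le (min_le_right _ _)
    have h2 : ‖z - b‖ ≤ ‖z - z0‖ + L := by
      have : z - b = (z - z0) + (z0 - b) := by ring
      rw [this]
      exact norm_add_le _ _
    have h3 : L ≤ ‖z - b‖ + ‖z - z0‖ := by
      have : z0 - b = (z - b) - (z - z0) := by ring
      rw [hL, this]
      exact norm_sub_le _ _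
    constructor <;> linarith
  refine ⟨min τ (L / 2), L / 2, lt_min hτ (by linarith), by linarith, fun z hz =>
    ⟨⟨(hwin z (hz.trans_le (min_le_left _ _))).1, hnear z (hz.trans_le (min_le_left _ _))⟩,
      (hdist z hz).1⟩, fun Ψ hΨ hc hsup => ?_⟩
  have hR : (0 : ℝ) ≤ 3 * L / 2 := by linarith
  have hr1 : 0 < L / 2 := by linarith
  have hsup' : ∀ z, Ψ z ≠ 0 → L / 2 ≤ ‖z - b‖ ∧ ‖z - b‖ ≤ 3 * L / 2 := fun z hz => hdist z (hsup z hz)
  have hin : ∀ z, Ψ z ≠ 0 → z ∈ reg p ∧ ∃ j, ‖z - p j‖ < rv := fun z hz =>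
    ⟨(hwin z ((hsup z hz).trans_le (min_le_left _ _))).1,
      hnear z ((hsup z hz).trans_le (min_le_left _ _))⟩
  set W : ℝ → ℂ := fun θ => ∫ t in (0 : ℝ)..(3 * L / 2), Ψ (b - t • dir θ) with hW
  have hWW : ∀ θ, W θ = WW2 b Ψ 1 (3 * L / 2) θ 0 := by
    intro θ
    unfold WW2
    simp only [mv_zero, hW]
  have hWc : Continuous W := by
    have h1 : W = fun θ => WW2 b Ψ 1 (3 * L / 2) θ 0 := funext hWW
    rw [h1]
    exact (WW2_cont (b := b) (ε := 1) (R := 3 * L / 2) hΨ).comp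
      (g := fun x : ℝ × ℝ => WW2 b Ψ 1 (3 * L / 2) x.1 x.2) (f := fun θ : ℝ => (θ, (0 : ℝ)))
      (continuous_id.prodMk continuous_const)
  have hWp : ∀ θ, W (θ + 2 * π) = W θ := by
    intro θ
    simp only [hW, dir_two_pi]
  -- the support of `W`
  have hWs : ∀ θ, W θ ≠ 0 → e * θ + c ∈ Inc p j := by
    intro θ hne
    obtain ⟨t, ht0, ht⟩ : ∃ t : ℝ, 0 < t ∧ Ψ (b - t • dir θ) ≠ 0 := by
      by_contra hcon
      push Not at hcon
      apply hne
      simp only [hW]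
      have : ∫ t in (0 : ℝ)..(3 * L / 2), Ψ (b - t • dir θ) =
          ∫ t in (0 : ℝ)..(3 * L / 2), (0 : ℂ) := by
        refine intervalIntegral.integral_congr_ae (Filter.Eventually.of_forall fun t ht => ?_)
        rw [uIoc_of_le hR] at ht
        exact hcon t ht.1
      rw [this, intervalIntegral.integral_zero]
    have h1 : rr b θ (b - t • dir θ) = t := by
      rw [← mv_zero b 1, rr_mv]
    have h2 : vv b θ (b - t • dir θ) = 0 := by
      rw [← mv_zero b 1, vv_mv]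
      simp
    obtain ⟨-, h3⟩ := hwin _ ((hsup _ ht).trans_le (min_le_left _ _))
    obtain ⟨h4, -⟩ := h3 θ (by rw [h1]; exact ht0) (by rw [h2, abs_zero]; exact hτ)
    exact inc_of_mem hp hu h4
  -- the pencil of `f`
  have lim1 := pen (b := b) (H := HH p χ f w j e c) (ε := (-1) ^ w.length) (R := 3 * L / 2)
    hΨ hc (HH_meas hp hf w j e c) (HH_bound hp hE hb hχ w j e c) (HH_per hE w j he c)
    (pow_pm _) hr1 hR hsup' (f := f) (ρ0 := τ) hτ
    (fun z hz θ h1 h2 => by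
      obtain ⟨hzr, h3⟩ := hwin z ((hsup z hz).trans_le (min_le_left _ _))
      obtain ⟨-, k, y, h4, h5, h6⟩ := h3 θ h1 h2
      exact HH_val hp hE hχ he hec hzr h4 h5 h6)
    (g := fun z => G z (arg (b - z))) (fib_avg hG (pow_pm _) hin)
  -- the pencil of `1`
  have lim2 := pen (b := b) (H := fun _ => 1) (ε := 1) (R := 3 * L / 2)
    hΨ hc measurable_const (fun _ => by simp) (fun _ _ => rfl)
    (Or.inl rfl) hr1 hR hsup' (f := fun _ => 1) (ρ0 := 1) one_pos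
    (fun z hz θ h1 h2 => rfl)
    (g := fun _ => 1) (Filter.Eventually.of_forall fun z _ => by
      have h1 : ∀ᶠ δ : ℝ in 𝓝[>] (0 : ℝ), (1 : ℂ) = (1 / (δ : ℂ)) * ∫ η in (0 : ℝ)..δ, (1 : ℂ) := by
        filter_upwards [self_mem_nhdsWithin] with δ hδ
        have h2 : (δ : ℂ) ≠ 0 := by exact_mod_cast (ne_of_gt hδ)
        rw [intervalIntegral.integral_const, sub_zero, real_smul, mul_one]
        field_simp
      exact tendsto_const_nhds.congr' h1)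
  have hW2 : ∫ θ in (0 : ℝ)..(2 * π), W θ = ∫ z, Ψ z / ‖z - b‖ := by
    have h1 : ∀ᶠ ρ : ℝ in 𝓝[>] (0 : ℝ), (∫ θ in (0 : ℝ)..(2 * π),
        (∫ t in (0 : ℝ)..(3 * L / 2), Ψ (b - t • dir θ)) *
        ((1 / (ρ : ℂ)) * ∫ s in (0 : ℝ)..ρ, (1 : ℂ))) = ∫ θ in (0 : ℝ)..(2 * π), W θ := by
      filter_upwards [self_mem_nhdsWithin] with ρ hρ
      have h2 : (ρ : ℂ) ≠ 0 := by exact_mod_cast (ne_of_gt hρ)
      have h3 : (1 / (ρ : ℂ)) * ∫ s in (0 : ℝ)..ρ, (1 : ℂ) = 1 := by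
        rw [intervalIntegral.integral_const, sub_zero, real_smul, mul_one]
        field_simp
      simp only [h3, mul_one, hW]
    have h4 := lim2.congr' h1
    have h5 := tendsto_nhds_unique (tendsto_const_nhds (α := ℝ)
      (x := ∫ θ in (0 : ℝ)..(2 * π), W θ) (f := 𝓝[>] 0)) h4
    rw [h5]
    simp only [mul_one]
  -- the test function of the directions at the vertex
  set ψ : ℝ → ℂ := fun φ => W (e * (φ - c)) with hψ
  have hψW : ∀ θ, ψ (e * θ + c) = W θ := by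
    intro θ
    simp only [hψ]
    congr 1
    rw [add_sub_cancel_right, ← mul_assoc, e_sq he, one_mul]
  have hψc : Continuous ψ := hWc.comp (by fun_prop)
  have hψp : ∀ φ, ψ (φ + 2 * π) = ψ φ := by
    intro φ
    have := e_per hWp he (-(e * c)) φ
    simp only [hψ]
    have e1 : e * (φ + 2 * π - c) = e * (φ + 2 * π) + -(e * c) := by ring
    have e2 : e * (φ - c) = e * φ + -(e * c) := by ring
    rw [e1, e2, this]
  have hψs : ∀ φ, ψ φ ≠ 0 → φ ∈ Inc p j := by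
    intro φ hne
    have := hWs (e * (φ - c)) hne
    have e1 : e * (e * (φ - c)) + c = φ := by
      rw [← mul_assoc, e_sq he]
      ring
    rwa [e1] at this
  have lim3 := (hcj ψ hψc hψp hψs).const_mul (sg χ w)
  have hψi : ∫ φ in (0 : ℝ)..(2 * π), ψ φ = ∫ θ in (0 : ℝ)..(2 * π), W θ := by
    rw [← int_sub hψp he c]
    simp only [hψW]
  rw [hψi, hW2] at lim3
  have h6 : ∀ᶠ ρ : ℝ in 𝓝[>] (0 : ℝ), (∫ θ in (0 : ℝ)..(2 * π),
      (∫ t in (0 : ℝ)..(3 * L / 2), Ψ (b - t • dir θ)) *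
      ((1 / (ρ : ℂ)) * ∫ s in (0 : ℝ)..ρ, HH p χ f w j e c (θ, (-1) ^ w.length * s))) =
      sg χ w * ∫ φ in (0 : ℝ)..(2 * π), ψ φ * Kp p f j ρ φ := by
    filter_upwards [self_mem_nhdsWithin] with ρ hρ
    have h7 : ∀ φ, ψ (φ + 2 * π) * Kp p f j ρ (φ + 2 * π) = ψ φ * Kp p f j ρ φ := by
      intro φ
      rw [hψp, Kp_per hE]
    rw [← int_sub (g := fun φ => ψ φ * Kp p f j ρ φ) h7 he c,
      ← intervalIntegral.integral_const_mul]
    refine intervalIntegral.integral_congr fun θ _ => ?_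
    rw [HH_avg w j e c hρ θ, hψW]
    simp only [hW]
    ring
  have h8 := tendsto_nhds_unique (lim1.congr' h6) lim3
  rw [h8]
  ring

end Pool.Agent.Zk55.CF
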