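import Pool.Agent.Zk55.CF.Ident2

set_option autoImplicit false

/-!
The fibres at the directions of the visible vertices, almost everywhere.
-/

namespace Pool.Agent.Zk55.CF

open Complex Set MeasureTheory Filter Topology Pool.Agent.W780.PG Pool.Agent.W780.BB
  Pool.Agent.TH578.BE Pool.Agent.K3h17.BK

open scoped Real ComplexConjugate

variable {n : ℕ} {p : Fin (n + 3) → ℂ} {χ : Fin (n + 3) → ℂ} {f : ℂ × ℝ → ℂ}

theorem avg_meas (hf : Measurable f) (b : ℂ) {δ : ℝ} (hδ : 0 ≤ δ) :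
    Measurable fun z : ℂ => (1 / (δ : ℂ)) * ∫ η in (0 : ℝ)..δ, f (z, arg (b - z) + 1 * η) := by
  refine Measurable.const_mul ?_ _
  have hu : Measurable fun x : ℂ × ℝ => f (x.1, arg (b - x.1) + 1 * x.2) := by
    refine hf.comp (measurable_fst.prodMk ?_)
    exact (Complex.measurable_arg.comp (measurable_const.sub measurable_fst)).add
      (measurable_const.mul measurable_snd)
  simp only [intervalIntegral.integral_of_le hδ]
  exact (hu.stronglyMeasurable.integral_prod_right' (ν := volume.restrict (Ioc 0 δ))).measurable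

theorem seq_lim : Tendsto (fun m : ℕ => 1 / ((m : ℝ) + 1)) atTop (𝓝[>] 0) := by
  refine tendsto_nhdsWithin_iff.2 ⟨tendsto_one_div_add_atTop_nhds_zero_nat,
    Filter.Eventually.of_forall fun m => ?_⟩
  show (0 : ℝ) < 1 / ((m : ℝ) + 1)
  positivity

theorem avg_bound (hb : ∀ x, ‖f x‖ ≤ 1) (z : ℂ) (α : ℝ) {δ : ℝ} (hδ : 0 < δ) :
    ‖(1 / (δ : ℂ)) * ∫ η in (0 : ℝ)..δ, f (z, α + 1 * η)‖ ≤ 1 := by
  have h := intervalIntegral.norm_integral_le_of_norm_le_const (a := 0) (b := δ) (C := 1)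
    (f := fun η : ℝ => f (z, α + 1 * η)) (fun u _ => hb _)
  rw [sub_zero, abs_of_pos hδ, one_mul] at h
  rw [norm_mul, norm_div, norm_one, Complex.norm_real, Real.norm_eq_abs, abs_of_pos hδ]
  calc _ ≤ 1 / δ * δ := by gcongr
    _ = 1 := by field_simp

theorem ident_loc (hp : IsConvexPolygon p) (hf : Measurable f) (hb : ∀ x, ‖f x‖ ≤ 1)
    (hχ : ∀ i, χ i = 1 ∨ χ i = -1) (hE : IsEigenfunction p 0 χ f) {rv : ℝ} {G : ℂ → ℝ → ℂ}
    (hG : Fib p rv f G) {z0 : ℂ} (hz0 : z0 ∈ reg p) (hz0v : ∃ j, ‖z0 - p j‖ < rv) {w : List (Fin (n + 3))} {j : Fin (n + 3)} {θ0 : ℝ}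
    (hv : VisAt p z0 w j θ0) {cj : ℂ}
    (hcj : ∀ ψ : ℝ → ℂ, Continuous ψ → (∀ θ, ψ (θ + 2 * π) = ψ θ) → (∀ θ, ψ θ ≠ 0 → θ ∈ Inc p j) →
      Tendsto (fun ρ : ℝ => ∫ θ in (0 : ℝ)..(2 * π), ψ θ * Kp p f j ρ θ) (𝓝[>] 0)
        (𝓝 (cj * ∫ θ in (0 : ℝ)..(2 * π), ψ θ))) :
    ∃ r : ℝ, 0 < r ∧ ∀ᵐ z, ‖z - z0‖ < r → G z (arg (uf p w (p j) - z)) = sg χ w * cj := by
  obtain ⟨r, r1, hr, hr1, hin, hint⟩ := ident_int hp hf hb hχ hE hG hz0 hz0v hv hcj
  refine ⟨r, hr, ?_⟩
  set b := uf p w (p j) with hbdef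
  set U := Metric.ball z0 r with hU
  have hUm : MeasurableSet U := Metric.isOpen_ball.measurableSet
  have hUr : ∀ z ∈ U, ‖z - z0‖ < r := by
    intro z hz
    rwa [hU, Metric.mem_ball, dist_eq_norm] at hz
  -- the limits
  have hlim : ∀ᵐ z, z ∈ U → Tendsto (fun δ : ℝ =>
      (1 / (δ : ℂ)) * ∫ η in (0 : ℝ)..δ, f (z, arg (b - z) + 1 * η)) (𝓝[>] 0)
      (𝓝 (G z (arg (b - z)))) := by
    filter_upwards [hG] with z hz h
    obtain ⟨h1, h2⟩ := hz (hin z (hUr z h)).1
    exact avg_lim (u := fun θ => f (z, θ)) h1 h2 (Or.inl rfl) _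
  have hgm : AEStronglyMeasurable (fun z => G z (arg (b - z))) (volume.restrict U) := by
    refine aestronglyMeasurable_of_tendsto_ae atTop
      (f := fun (m : ℕ) (z : ℂ) => (1 / (((1 / ((m : ℝ) + 1) : ℝ)) : ℂ)) *
        ∫ η in (0 : ℝ)..(1 / ((m : ℝ) + 1)), f (z, arg (b - z) + 1 * η)) (fun m => ?_) ?_
    · exact (avg_meas hf b (by positivity)).aestronglyMeasurable
    · rw [ae_restrict_iff' hUm]
      filter_upwards [hlim] with z hz h
      exact (hz h).comp seq_lim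
  have hgb : ∀ᵐ z ∂(volume.restrict U), ‖G z (arg (b - z))‖ ≤ 1 := by
    rw [ae_restrict_iff' hUm]
    filter_upwards [hlim] with z hz h
    refine le_of_tendsto (hz h).norm ?_
    filter_upwards [self_mem_nhdsWithin] with δ hδ
    exact avg_bound hb z _ hδ
  have hnm : AEStronglyMeasurable (fun z : ℂ => ((‖z - b‖ : ℝ) : ℂ)) (volume.restrict U) := by
    apply Continuous.aestronglyMeasurable
    fun_prop
  have hnb : ∀ z ∈ U, ‖((‖z - b‖ : ℝ) : ℂ)⁻¹‖ ≤ 1 / r1 := by
    intro z hz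
    have h1 := (hin z (hUr z hz)).2
    rw [norm_inv, Complex.norm_real, Real.norm_eq_abs, abs_of_nonneg (norm_nonneg _), one_div]
    exact inv_anti₀ hr1 h1
  have hF1 : IntegrableOn (fun z => G z (arg (b - z)) / ‖z - b‖) U := by
    refine ⟨hgm.div₀ hnm, HasFiniteIntegral.restrict_of_bounded (C := 1 / r1)
      measure_ball_lt_top ?_⟩
    filter_upwards [hgb, ae_restrict_mem hUm] with z h1 h2
    rw [div_eq_mul_inv, norm_mul]
    have h3 := hnb z h2
    calc _ ≤ 1 * (1 / r1) := mul_le_mul h1 h3 (norm_nonneg _) zero_le_one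
      _ = _ := one_mul _
  have hF2 : IntegrableOn (fun z : ℂ => (1 : ℂ) / ‖z - b‖) U := by
    refine ⟨aestronglyMeasurable_const.div₀ hnm, HasFiniteIntegral.restrict_of_bounded (C := 1 / r1)
      measure_ball_lt_top ?_⟩
    filter_upwards [ae_restrict_mem hUm] with z h2
    rw [one_div]
    exact hnb z h2
  have hF : IntegrableOn (fun z => G z (arg (b - z)) / ‖z - b‖ -
      (sg χ w * cj) * ((1 : ℂ) / ‖z - b‖)) U := hF1.sub (hF2.const_mul _)
  have hzero := Metric.isOpen_ball.ae_eq_zero_of_integral_contDiff_smul_eq_zero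
    (μ := volume) (U := U) hF.locallyIntegrableOn (fun g hg hgc hgs => by
      have hgcont := hg.continuous
      have hsupp : ∀ z, (g z : ℂ) ≠ 0 → z ∈ U := by
        intro z hz
        have h1 : g z ≠ 0 := by exact_mod_cast hz
        exact hgs (subset_tsupport _ h1)
      obtain ⟨M, hM⟩ := hgc.exists_bound_of_continuous hgcont
      have hΨc : Continuous fun z => (g z : ℂ) := Complex.continuous_ofReal.comp hgcont
      have hΨs : HasCompactSupport fun z => (g z : ℂ) := hgc.comp_left Complex.ofReal_zero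
      have h1 := hint (fun z => (g z : ℂ)) hΨc hΨs (fun z hz => hUr z (hsupp z hz))
      have hI : ∀ F : ℂ → ℂ, IntegrableOn F U → Integrable fun z => (g z : ℂ) * F z := by
        intro F hFi
        rw [← integrableOn_iff_integrable_of_support_subset (s := U)]
        · exact Integrable.bdd_mul (c := M) hFi hΨc.aestronglyMeasurable
            (Filter.Eventually.of_forall fun z => by
              rw [Complex.norm_real]; exact hM z)
        · intro z hz
          exact hsupp z (left_ne_zero_of_mul hz)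
      have e1 : ∀ z, g z • (G z (arg (b - z)) / ‖z - b‖ - (sg χ w * cj) * ((1 : ℂ) / ‖z - b‖)) =
          (g z : ℂ) * (G z (arg (b - z)) / ‖z - b‖) -
          (sg χ w * cj) * ((g z : ℂ) * ((1 : ℂ) / ‖z - b‖)) := by
        intro z
        rw [real_smul]
        ring
      simp only [e1]
      rw [integral_sub (hI _ hF1) ((hI _ hF2).const_mul _), integral_const_mul, sub_eq_zero]
      have e2 : ∀ z, (g z : ℂ) * (G z (arg (b - z)) / ‖z - b‖) =
          (g z : ℂ) * G z (arg (b - z)) / ‖z - b‖ := fun z => by ring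
      have e3 : ∀ z, (g z : ℂ) * ((1 : ℂ) / ‖z - b‖) = (g z : ℂ) / ‖z - b‖ := fun z => by ring
      simp only [e2, e3]
      exact h1)
  filter_upwards [hzero] with z hz h
  have hzU : z ∈ U := by
    rw [hU, Metric.mem_ball, dist_eq_norm]
    exact h
  have h1 := hz hzU
  have h2 := (hin z h).2
  have h3 : ((‖z - b‖ : ℝ) : ℂ) ≠ 0 := by
    have : ‖z - b‖ ≠ 0 := by linarith
    exact_mod_cast this
  rw [mul_one_div, ← sub_div, div_eq_zero_iff] at h1
  rcases h1 with h1 | h1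
  · exact sub_eq_zero.1 h1
  · exact absurd h1 h3

end Pool.Agent.Zk55.CF
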