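import Pool.Agent.Zk55.CF.Val

set_option autoImplicit false

/-!
The function of the oriented lines given by an eigenfunction with signs.
-/

namespace Pool.Agent.Zk55.CF

open Complex Set MeasureTheory Filter Topology Pool.Agent.W780.PG Pool.Agent.W780.BB
  Pool.Agent.TH578.BE Pool.Agent.K3h17.BK

open scoped Real ComplexConjugate

variable {n : ℕ} {p : Fin (n + 3) → ℂ}

theorem conj_dir_mul (θ : ℝ) : conj (dir θ) * dir θ = 1 := by
  rw [dir_conj, dir_mul, neg_add_cancel]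
  unfold dir
  simp

theorem nd (θ : ℝ) : ‖dir θ‖ = 1 := norm_exp_ofReal_mul_I θ

theorem cont_dir : Continuous dir := by
  unfold dir
  fun_prop

theorem dir_two_pi (θ : ℝ) : dir (θ + 2 * π) = dir θ := by
  have := dir_period θ 1
  rwa [Int.cast_one, mul_one] at this

/-- The point with the coordinate `t` on the line `x`. -/
noncomputable def pt (x : ℝ × ℝ) (t : ℝ) : ℂ := ((t : ℂ) + (x.2 : ℂ) * I) * dir x.1

theorem cont_pt : Continuous fun q : (ℝ × ℝ) × ℝ => pt q.1 q.2 := by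
  unfold pt
  have := cont_dir
  fun_prop

theorem conj_pt (x : ℝ × ℝ) (t : ℝ) : conj (dir x.1) * pt x t = (t : ℂ) + (x.2 : ℂ) * I := by
  unfold pt
  rw [mul_left_comm, conj_dir_mul, mul_one]

theorem ph_pt (x : ℝ × ℝ) (t : ℝ) : ph x (pt x t) = 0 := by
  unfold ph
  rw [conj_pt]
  simp

theorem tt_pt (x : ℝ × ℝ) (t : ℝ) : tt x (pt x t) = t := by
  unfold tt
  rw [conj_pt]
  simp

theorem pt_of_ph {x : ℝ × ℝ} {z : ℂ} (h : ph x z = 0) : pt x (tt x z) = z := by
  have h1 := on_line h (ph_pt x (tt x z))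
  rw [tt_pt, sub_self, zero_smul, add_zero] at h1
  exact h1

/-- The value of `f` on the line `x`. -/
noncomputable def Fv (p : Fin (n + 3) → ℂ) (f : ℂ × ℝ → ℂ) (x : ℝ × ℝ) : ℂ :=
  (∫ t, (reg p).indicator (fun z => f (z, x.1)) (pt x t)) /
    ((∫ t, (reg p).indicator (fun _ => (1 : ℝ)) (pt x t) : ℝ) : ℂ)

theorem reg_bounded (hp : IsConvexPolygon p) : Bornology.IsBounded (reg p) := by
  have h1 := (Pool.Agent.W975.PG.hull Pool.Agent.W174.PG.basic n p hp)
  have h2 : Bornology.IsBounded (convexHull ℝ (range p)) :=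
    (isBounded_convexHull.2 (finite_range p).isBounded)
  refine h2.subset ?_
  rw [← h1.1]
  intro z hz i
  exact (hz i).le

theorem line_meas (hp : IsConvexPolygon p) (x : ℝ × ℝ) {z : ℂ} (hz : z ∈ reg p) (h : ph x z = 0) :
    0 < ∫ t, (reg p).indicator (fun _ => (1 : ℝ)) (pt x t) := by
  have hc : Continuous fun t : ℝ => pt x t := cont_pt.comp (continuous_const.prodMk continuous_id)
  set S : Set ℝ := (fun t => pt x t) ⁻¹' reg p with hS
  have hSo : IsOpen S := (reg_op hp).preimage hc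
  have hSn : S.Nonempty := ⟨tt x z, by rw [hS, mem_preimage, pt_of_ph h]; exact hz⟩
  have e : (fun t => (reg p).indicator (fun _ => (1 : ℝ)) (pt x t)) = S.indicator fun _ => (1 : ℝ) := by
    ext t
    rw [hS]
    rfl
  rw [e, integral_indicator hSo.measurableSet, setIntegral_const, smul_eq_mul, mul_one]
  obtain ⟨R, hR⟩ := (reg_bounded hp).exists_norm_le
  have hb : S ⊆ Icc (-R) R := by
    intro t ht
    have h1 := hR _ ht
    have h2 : |t| ≤ ‖pt x t‖ := by
      have h3 : ‖pt x t‖ = ‖(t : ℂ) + (x.2 : ℂ) * I‖ := by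
        unfold pt
        rw [norm_mul, nd, mul_one]
      rw [h3]
      have h4 := Complex.abs_re_le_norm ((t : ℂ) + (x.2 : ℂ) * I)
      simpa using h4
    exact abs_le.1 (h2.trans h1)
  have h0 : volume S ≠ ⊤ := ((measure_mono hb).trans_lt measure_Icc_lt_top).ne
  exact ENNReal.toReal_pos (hSo.measure_pos volume hSn).ne' h0

/-- The value on a line which meets the polygon. -/
theorem Fv_eq (hp : IsConvexPolygon p) {χ : Fin (n + 3) → ℂ} {f : ℂ × ℝ → ℂ}
    (hE : IsEigenfunction p 0 χ f) {x : ℝ × ℝ} {z : ℂ} (hz : z ∈ reg p) (h : ph x z = 0) :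
    Fv p f x = f (z, x.1) := by
  have e : (fun t => (reg p).indicator (fun z => f (z, x.1)) (pt x t)) =
      fun t => ((reg p).indicator (fun _ => (1 : ℝ)) (pt x t)) • f (z, x.1) := by
    ext t
    by_cases ht : pt x t ∈ reg p
    · rw [indicator_of_mem ht, indicator_of_mem ht, one_smul]
      exact same_line hp hE hz ht h (ph_pt x t)
    · rw [indicator_of_notMem ht, indicator_of_notMem ht, zero_smul]
  unfold Fv
  rw [e, integral_smul_const, real_smul]
  have h0 := line_meas hp x hz h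
  have h1 : ((∫ t, (reg p).indicator (fun _ => (1 : ℝ)) (pt x t) : ℝ) : ℂ) ≠ 0 := by
    exact_mod_cast h0.ne'
  field_simp

theorem Fv_ln (hp : IsConvexPolygon p) {χ : Fin (n + 3) → ℂ} {f : ℂ × ℝ → ℂ}
    (hE : IsEigenfunction p 0 χ f) {z : ℂ} (hz : z ∈ reg p) (θ : ℝ) :
    Fv p f (ln z θ) = f (z, θ) := Fv_eq hp hE hz (ph_ln_self z θ)

theorem Fv_bound (hp : IsConvexPolygon p) {χ : Fin (n + 3) → ℂ} {f : ℂ × ℝ → ℂ}
    (hE : IsEigenfunction p 0 χ f) (hb : ∀ x, ‖f x‖ ≤ 1) (x : ℝ × ℝ) : ‖Fv p f x‖ ≤ 1 := by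
  by_cases h : ∃ z ∈ reg p, ph x z = 0
  · obtain ⟨z, hz, h⟩ := h
    rw [Fv_eq hp hE hz h]
    exact hb _
  · push Not at h
    have h1 : ∀ t, pt x t ∉ reg p := fun t ht => h _ ht (ph_pt x t)
    have e : (fun t => (reg p).indicator (fun z => f (z, x.1)) (pt x t)) = fun _ => 0 := by
      ext t
      rw [indicator_of_notMem (h1 t)]
    unfold Fv
    rw [e, integral_zero, zero_div, norm_zero]
    exact zero_le_one

theorem Fv_meas (hp : IsConvexPolygon p) {f : ℂ × ℝ → ℂ} (hf : Measurable f) :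
    Measurable (Fv p f) := by
  have hc := cont_pt
  have hms : MeasurableSet {q : (ℝ × ℝ) × ℝ | pt q.1 q.2 ∈ reg p} :=
    ((reg_op hp).preimage hc).measurableSet
  have h1 : Measurable fun q : (ℝ × ℝ) × ℝ =>
      (reg p).indicator (fun z => f (z, q.1.1)) (pt q.1 q.2) := by
    have e : (fun q : (ℝ × ℝ) × ℝ => (reg p).indicator (fun z => f (z, q.1.1)) (pt q.1 q.2)) =
        {q : (ℝ × ℝ) × ℝ | pt q.1 q.2 ∈ reg p}.indicator fun q => f (pt q.1 q.2, q.1.1) := by
      ext q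
      rfl
    rw [e]
    refine Measurable.indicator ?_ hms
    exact hf.comp (hc.measurable.prodMk (measurable_fst.comp measurable_fst))
  have h2 : Measurable fun q : (ℝ × ℝ) × ℝ =>
      (reg p).indicator (fun _ => (1 : ℝ)) (pt q.1 q.2) := by
    have e : (fun q : (ℝ × ℝ) × ℝ => (reg p).indicator (fun _ => (1 : ℝ)) (pt q.1 q.2)) =
        {q : (ℝ × ℝ) × ℝ | pt q.1 q.2 ∈ reg p}.indicator fun _ => (1 : ℝ) := by
      ext q
      rfl
    rw [e]
    exact measurable_const.indicator hms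
  have h3 := h1.stronglyMeasurable.integral_prod_right' (ν := volume)
  have h4 := h2.stronglyMeasurable.integral_prod_right' (ν := volume)
  unfold Fv
  exact h3.measurable.div (Complex.measurable_ofReal.comp h4.measurable)

theorem Fv_per {χ : Fin (n + 3) → ℂ} {f : ℂ × ℝ → ℂ}
    (hE : IsEigenfunction p 0 χ f) (θ s : ℝ) : Fv p f (θ + 2 * π, s) = Fv p f (θ, s) := by
  have h1 : ∀ t, pt (θ + 2 * π, s) t = pt (θ, s) t := by
    intro t
    unfold pt
    simp only [dir_two_pi]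
  unfold Fv
  simp only [h1, hE.periodic]

/-- Reflection. -/
theorem Fv_fl (hp : IsConvexPolygon p) {χ : Fin (n + 3) → ℂ} {f : ℂ × ℝ → ℂ}
    (hE : IsEigenfunction p 0 χ f) {i : Fin (n + 3)} {x : ℝ × ℝ} (h1 : ph x (p i) < 0)
    (h2 : 0 < ph x (p (i + 1))) : Fv p f (fl p i x) = χ i * Fv p f x := by
  obtain ⟨Y, hY, r, hr, a1, a2, a3, a4⟩ := cross hp h1 h2
  have h := val hp hE [i] x _ _ a1 a3 ⟨h1, h2, trivial⟩ a2 a4
  rw [Fv_eq hp hE a2 a4, Fv_eq hp hE a1 a3]
  simpa [sg, fw] using h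

/-- Reflection along a word. -/
theorem Fv_fw (hp : IsConvexPolygon p) {χ : Fin (n + 3) → ℂ} {f : ℂ × ℝ → ℂ}
    (hE : IsEigenfunction p 0 χ f) {w : List (Fin (n + 3))} {x : ℝ × ℝ} {z y : ℂ} (hz : z ∈ reg p)
    (h1 : ph x z = 0) (hW : RW p w x) (hy : y ∈ reg p) (h2 : ph (fw p w x) y = 0) :
    Fv p f (fw p w x) = sg χ w * f (z, x.1) := by
  rw [Fv_eq hp hE hy h2]
  exact val hp hE w x z y hz h1 hW hy h2

/-! ### The lines near a vertex -/

/-- The line with the direction `θ` and the distance `s` from the point `b`. -/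
noncomputable def lb (b : ℂ) (θ s : ℝ) : ℝ × ℝ := (θ, (conj (dir θ) * b).im + s)

theorem ph_lb (b : ℂ) (θ s : ℝ) (y : ℂ) : ph (lb b θ s) y = (conj (dir θ) * (y - b)).im - s := by
  unfold ph lb
  rw [mul_sub, Complex.sub_im]
  ring

theorem ln_lb (b z : ℂ) (θ : ℝ) : ln z θ = lb b θ (conj (dir θ) * (z - b)).im := by
  unfold ln lb
  ext
  · rfl
  · show (conj (dir θ) * z).im = (conj (dir θ) * b).im + (conj (dir θ) * (z - b)).im
    rw [mul_sub, Complex.sub_im]
    ring

theorem cont_lb (b : ℂ) : Continuous fun q : ℝ × ℝ => lb b q.1 q.2 := by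
  unfold lb
  have := cont_dir
  have := continuous_conj
  fun_prop

/-- The function of the lines, in the coordinates at the vertex `j`. -/
noncomputable def Kv (p : Fin (n + 3) → ℂ) (f : ℂ × ℝ → ℂ) (j : Fin (n + 3)) (x : ℝ × ℝ) : ℂ :=
  Fv p f (lb (p j) x.1 x.2)

theorem Kv_bound (hp : IsConvexPolygon p) {χ : Fin (n + 3) → ℂ} {f : ℂ × ℝ → ℂ}
    (hE : IsEigenfunction p 0 χ f) (hb : ∀ x, ‖f x‖ ≤ 1) (j : Fin (n + 3)) (x : ℝ × ℝ) :
    ‖Kv p f j x‖ ≤ 1 := Fv_bound hp hE hb _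

theorem Kv_meas (hp : IsConvexPolygon p) {f : ℂ × ℝ → ℂ} (hf : Measurable f) (j : Fin (n + 3)) :
    Measurable (Kv p f j) := (Fv_meas hp hf).comp (cont_lb _).measurable

theorem Kv_per {χ : Fin (n + 3) → ℂ} {f : ℂ × ℝ → ℂ}
    (hE : IsEigenfunction p 0 χ f) (j : Fin (n + 3)) (θ s : ℝ) :
    Kv p f j (θ + 2 * π, s) = Kv p f j (θ, s) := by
  unfold Kv lb
  simp only [dir_two_pi]
  exact Fv_per hE _ _

theorem fl_lb {i j : Fin (n + 3)} (h : rf p i (p j) = p j) (θ s : ℝ) :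
    fl p i (lb (p j) θ s) = lb (p j) (2 * tau p i - θ) (-s) := by
  have h1 := ph_fl (p := p) i (lb (p j) θ s) (p j)
  rw [h, ph_lb, sub_self, mul_zero, Complex.zero_im, zero_sub, neg_neg] at h1
  unfold ph at h1
  have h2 : (fl p i (lb (p j) θ s)).1 = 2 * tau p i - θ := rfl
  rw [h2] at h1
  ext
  · rfl
  · show (fl p i (lb (p j) θ s)).2 = (conj (dir (2 * tau p i - θ)) * p j).im + -s
    linarith

/-- `|b - a| sin (arg (b - a) - θ)` -/
theorem im_tau (i : Fin (n + 3)) (θ : ℝ) :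
    (conj (dir θ) * (p (i + 1) - p i)).im = ‖p (i + 1) - p i‖ * Real.sin (tau p i - θ) := by
  have h1 : p (i + 1) - p i = (‖p (i + 1) - p i‖ : ℂ) * dir (tau p i) := by
    unfold dir tau
    exact (Complex.norm_mul_exp_arg_mul_I _).symm
  conv_lhs => rw [h1]
  have h2 : conj (dir θ) * ((‖p (i + 1) - p i‖ : ℂ) * dir (tau p i)) =
      (‖p (i + 1) - p i‖ : ℂ) * dir (tau p i - θ) := by
    rw [dir_conj, mul_left_comm, dir_mul]
    congr 2
    ring
  rw [h2, Complex.im_ofReal_mul]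
  unfold dir
  rw [Complex.exp_ofReal_mul_I_im]

theorem len_pos (hp : IsConvexPolygon p) (i : Fin (n + 3)) : 0 < ‖p (i + 1) - p i‖ := by
  rw [norm_pos_iff, sub_ne_zero]
  intro h
  have h1 := (Pool.Agent.W174.PG.basic n p hp).1 h
  have h2 : (1 : Fin (n + 3)) = 0 := by
    have := congrArg (fun k => k - i) h1
    simpa using this
  exact absurd h2 (by simp)

/-- The reflection law in side `i` at its first end point. -/
theorem law1 (hp : IsConvexPolygon p) {χ : Fin (n + 3) → ℂ} {f : ℂ × ℝ → ℂ}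
    (hE : IsEigenfunction p 0 χ f) (hχ : ∀ i, χ i = 1 ∨ χ i = -1) (i : Fin (n + 3)) {θ : ℝ}
    (hθ : Real.sin (θ - tau p i) ≠ 0) : ∀ᶠ s in 𝓝[>] (0 : ℝ),
      Kv p f i (2 * tau p i - θ, SignType.sign (Real.sin (θ - tau p i)) * s) =
        χ i * Kv p f i (θ, -SignType.sign (Real.sin (θ - tau p i)) * s) := by
  have hrf : rf p i (p i) = p i :=
    (Pool.Agent.W347.BB.ref n p hp).2.2.2.1 i _ (Pool.Agent.W174.PG.lft_left _ _)
  have hsq : χ i * χ i = 1 := by rcases hχ i with h | h <;> rw [h] <;> norm_num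
  have key : ∀ φ : ℝ, Real.sin (φ - tau p i) < 0 → ∀ᶠ s in 𝓝[>] (0 : ℝ),
      Kv p f i (2 * tau p i - φ, -s) = χ i * Kv p f i (φ, s) := by
    intro φ hφ
    have h1 : 0 < ‖p (i + 1) - p i‖ * Real.sin (tau p i - φ) := by
      refine mul_pos (len_pos hp i) ?_
      rw [← neg_sub, Real.sin_neg]
      linarith
    filter_upwards [Ioo_mem_nhdsGT h1] with s hs
    have h2 : ph (lb (p i) φ s) (p i) < 0 := by
      rw [ph_lb, sub_self, mul_zero, Complex.zero_im]
      linarith [hs.1]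
    have h3 : 0 < ph (lb (p i) φ s) (p (i + 1)) := by
      rw [ph_lb, im_tau]
      linarith [hs.2]
    have h4 := Fv_fl hp hE h2 h3
    rw [fl_lb hrf] at h4
    exact h4
  rcases lt_or_gt_of_ne hθ with h | h
  · filter_upwards [key θ h] with s hs
    rw [sign_neg h]
    simpa using hs
  · have h' : Real.sin (2 * tau p i - θ - tau p i) < 0 := by
      have : 2 * tau p i - θ - tau p i = -(θ - tau p i) := by ring
      rw [this, Real.sin_neg]
      linarith
    filter_upwards [key _ h'] with s hs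
    rw [sign_pos h]
    rw [show 2 * tau p i - (2 * tau p i - θ) = θ by ring] at hs
    simp only [SignType.coe_one, one_mul, neg_mul]
    rw [hs, ← mul_assoc, hsq, one_mul]

/-- The reflection law in side `i` at its second end point. -/
theorem law2 (hp : IsConvexPolygon p) {χ : Fin (n + 3) → ℂ} {f : ℂ × ℝ → ℂ}
    (hE : IsEigenfunction p 0 χ f) (hχ : ∀ i, χ i = 1 ∨ χ i = -1) (i : Fin (n + 3)) {θ : ℝ}
    (hθ : Real.sin (θ - tau p i) ≠ 0) : ∀ᶠ s in 𝓝[>] (0 : ℝ),
      Kv p f (i + 1) (2 * tau p i - θ, -SignType.sign (Real.sin (θ - tau p i)) * s) =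
        χ i * Kv p f (i + 1) (θ, SignType.sign (Real.sin (θ - tau p i)) * s) := by
  have hrf : rf p i (p (i + 1)) = p (i + 1) :=
    (Pool.Agent.W347.BB.ref n p hp).2.2.2.1 i _ (Pool.Agent.W174.PG.lft_right _ _)
  have hsq : χ i * χ i = 1 := by rcases hχ i with h | h <;> rw [h] <;> norm_num
  have key : ∀ φ : ℝ, Real.sin (φ - tau p i) < 0 → ∀ᶠ s in 𝓝[>] (0 : ℝ),
      Kv p f (i + 1) (2 * tau p i - φ, s) = χ i * Kv p f (i + 1) (φ, -s) := by
    intro φ hφ
    have h1 : 0 < ‖p (i + 1) - p i‖ * Real.sin (tau p i - φ) := by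
      refine mul_pos (len_pos hp i) ?_
      rw [← neg_sub, Real.sin_neg]
      linarith
    filter_upwards [Ioo_mem_nhdsGT h1] with s hs
    have h2 : ph (lb (p (i + 1)) φ (-s)) (p i) < 0 := by
      rw [ph_lb, ← neg_sub (p (i + 1)) (p i), mul_neg, Complex.neg_im, im_tau]
      linarith [hs.2]
    have h3 : 0 < ph (lb (p (i + 1)) φ (-s)) (p (i + 1)) := by
      rw [ph_lb, sub_self, mul_zero, Complex.zero_im]
      linarith [hs.1]
    have h4 := Fv_fl hp hE h2 h3
    rw [fl_lb hrf, neg_neg] at h4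
    exact h4
  rcases lt_or_gt_of_ne hθ with h | h
  · filter_upwards [key θ h] with s hs
    rw [sign_neg h]
    simpa using hs
  · have h' : Real.sin (2 * tau p i - θ - tau p i) < 0 := by
      have : 2 * tau p i - θ - tau p i = -(θ - tau p i) := by ring
      rw [this, Real.sin_neg]
      linarith
    filter_upwards [key _ h'] with s hs
    rw [sign_pos h]
    rw [show 2 * tau p i - (2 * tau p i - θ) = θ by ring] at hs
    simp only [SignType.coe_one, one_mul, neg_mul]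
    rw [hs, ← mul_assoc, hsq, one_mul]

end Pool.Agent.Zk55.CF
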