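import Pool.Agent.Zk55.CF.LineF
import Pool.Agent.Zk55.CF.Four

set_option autoImplicit false

/-!
Pencils: mean values over the thin families of lines at a point.
-/

namespace Pool.Agent.Zk55.CF

open Complex Set MeasureTheory Filter Topology Pool.Agent.W780.PG Pool.Agent.W780.BB
  Pool.Agent.TH578.BE Pool.Agent.K3h17.BK

open scoped Real ComplexConjugate

/-- The signed distance of `z` from the line through `b` in the direction `θ`. -/
noncomputable def vv (b : ℂ) (θ : ℝ) (z : ℂ) : ℝ := (conj (dir θ) * (z - b)).im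

/-- The distance of `z` from `b` along this line, backwards. -/
noncomputable def rr (b : ℂ) (θ : ℝ) (z : ℂ) : ℝ := (conj (dir θ) * (b - z)).re

/-- The point in the coordinates `(s, t)`. -/
noncomputable def mv (b : ℂ) (ε θ : ℝ) (q : ℝ × ℝ) : ℂ :=
  b + (((ε * q.1 : ℝ) : ℂ) + (q.2 : ℂ) * I) * (I * dir θ)

theorem conj_mv (b : ℂ) (ε θ : ℝ) (q : ℝ × ℝ) :
    conj (dir θ) * (mv b ε θ q - b) = ((-q.2 : ℝ) : ℂ) + ((ε * q.1 : ℝ) : ℂ) * I := by
  unfold mv
  have h := conj_dir_mul θ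
  have e : conj (dir θ) * (b + (((ε * q.1 : ℝ) : ℂ) + (q.2 : ℂ) * I) * (I * dir θ) - b) =
      (((ε * q.1 : ℝ) : ℂ) + (q.2 : ℂ) * I) * I * (conj (dir θ) * dir θ) := by ring
  rw [e, h, mul_one, add_mul, mul_assoc, I_mul_I]
  push_cast
  ring

theorem vv_mv (b : ℂ) (ε θ : ℝ) (q : ℝ × ℝ) : vv b θ (mv b ε θ q) = ε * q.1 := by
  unfold vv
  rw [conj_mv, Complex.add_im, Complex.ofReal_im, Complex.im_ofReal_mul, I_im]
  ring

theorem rr_mv (b : ℂ) (ε θ : ℝ) (q : ℝ × ℝ) : rr b θ (mv b ε θ q) = q.2 := by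
  unfold rr
  rw [← neg_sub, mul_neg, conj_mv, Complex.neg_re, Complex.add_re, Complex.ofReal_re,
    Complex.re_ofReal_mul, I_re]
  ring

theorem mv_zero (b : ℂ) (ε θ t : ℝ) : mv b ε θ (0, t) = b - t • dir θ := by
  unfold mv
  rw [real_smul]
  simp only [mul_zero, Complex.ofReal_zero, zero_add]
  have : (t : ℂ) * I * (I * dir θ) = (t : ℂ) * (I * I) * dir θ := by ring
  rw [this, I_mul_I]
  ring

theorem mv_dist (b : ℂ) {ε : ℝ} (hε : ε = 1 ∨ ε = -1) (θ s t : ℝ) :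
    ‖mv b ε θ (s, t) - mv b ε θ (0, t)‖ = |s| := by
  unfold mv
  have e : b + (((ε * s : ℝ) : ℂ) + (t : ℂ) * I) * (I * dir θ) -
      (b + (((ε * 0 : ℝ) : ℂ) + (t : ℂ) * I) * (I * dir θ)) = ((ε * s : ℝ) : ℂ) * (I * dir θ) := by
    push_cast
    ring
  rw [e, norm_mul, norm_mul, nd, Complex.norm_I, Complex.norm_real, Real.norm_eq_abs, mul_one,
    mul_one, abs_mul]
  rcases hε with h | h <;> rw [h] <;> simp

theorem mv_far (b : ℂ) (ε θ : ℝ) (q : ℝ × ℝ) : |q.2| ≤ ‖mv b ε θ q - b‖ := by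
  have h1 := rr_mv b ε θ q
  unfold rr at h1
  rw [← h1]
  refine (Complex.abs_re_le_norm _).trans ?_
  rw [norm_mul, RCLike.norm_conj, nd, one_mul, norm_sub_rev]

theorem mv_mp (b : ℂ) {ε : ℝ} (hε : ε = 1 ∨ ε = -1) (θ : ℝ) :
    MeasurePreserving (mv b ε θ) (volume : Measure (ℝ × ℝ)) (volume : Measure ℂ) := by
  have h1 : MeasurePreserving (fun s : ℝ => ε * s) (volume : Measure ℝ) volume := by
    rcases hε with h | h
    · rw [h]
      simp only [one_mul]
      exact MeasurePreserving.id _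
    · rw [h]
      simp only [neg_mul, one_mul]
      exact Measure.measurePreserving_neg (volume : Measure ℝ)
  have h2 : MeasurePreserving (fun q : ℝ × ℝ => (ε * q.1, q.2)) (volume : Measure (ℝ × ℝ))
      volume := h1.prod (MeasurePreserving.id (volume : Measure ℝ))
  have h3 := Complex.volume_preserving_equiv_real_prod.symm
  have h4 := (rotation (Circle.exp (θ + π / 2))).measurePreserving
  have h5 := measurePreserving_add_left (volume : Measure ℂ) b
  have h6 := h5.comp (h4.comp (h3.comp h2))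
  convert h6 using 1
  ext q
  simp only [Function.comp_apply]
  rw [rotation_apply]
  unfold mv dir
  have e1 : (Circle.exp (θ + π / 2) : ℂ) = I * exp ((θ : ℂ) * I) := by
    rw [Circle.coe_exp]
    push_cast
    rw [add_mul, Complex.exp_add, mul_comm, Complex.exp_pi_div_two_mul_I]
  have e2 : Complex.measurableEquivRealProd.symm (ε * q.1, q.2) =
      (((ε * q.1 : ℝ) : ℂ) + (q.2 : ℂ) * I) := by
    apply Complex.ext
    · simp [Complex.measurableEquivRealProd]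
    · simp [Complex.measurableEquivRealProd]
  rw [e1, e2]
  ring

theorem cont_vv (b : ℂ) : Continuous fun x : ℝ × ℂ => vv b x.1 x.2 := by
  unfold vv
  have := cont_dir
  have := continuous_conj
  fun_prop

theorem cont_rr (b : ℂ) : Continuous fun x : ℝ × ℂ => rr b x.1 x.2 := by
  unfold rr
  have := cont_dir
  have := continuous_conj
  fun_prop

open Classical in
/-- The integrand. -/
noncomputable def gg (b : ℂ) (Ψ : ℂ → ℂ) (H : ℝ × ℝ → ℂ) (ε R ρ : ℝ) (x : ℝ × ℂ) : ℂ :=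
  if rr b x.1 x.2 ∈ Ioc 0 R ∧ ε * vv b x.1 x.2 ∈ Ioo 0 ρ then Ψ x.2 * H (x.1, vv b x.1 x.2) else 0

variable {b : ℂ} {Ψ : ℂ → ℂ} {H : ℝ × ℝ → ℂ} {ε R : ℝ}

theorem gg_meas (hΨ : Continuous Ψ) (hH : Measurable H) (ρ : ℝ) :
    Measurable (gg b Ψ H ε R ρ) := by
  unfold gg
  refine Measurable.ite ?_ ?_ measurable_const
  · refine MeasurableSet.inter ?_ ?_
    · exact (cont_rr b).measurable measurableSet_Ioc
    · exact (continuous_const.mul (cont_vv b)).measurable measurableSet_Ioo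
  · exact (hΨ.measurable.comp measurable_snd).mul
      (hH.comp (measurable_fst.prodMk (cont_vv b).measurable))

theorem gg_le (hb : ∀ x, ‖H x‖ ≤ 1) (ρ : ℝ) (x : ℝ × ℂ) :
    ‖gg b Ψ H ε R ρ x‖ ≤ ‖Ψ x.2‖ := by
  unfold gg
  split_ifs
  · rw [norm_mul]
    calc ‖Ψ x.2‖ * ‖H (x.1, vv b x.1 x.2)‖ ≤ ‖Ψ x.2‖ * 1 := by gcongr; exact hb _
      _ = _ := mul_one _
  · rw [norm_zero]
    exact norm_nonneg _

theorem gg_int (hΨ : Continuous Ψ) (hc : HasCompactSupport Ψ) (hH : Measurable H)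
    (hb : ∀ x, ‖H x‖ ≤ 1) (ρ θ : ℝ) : Integrable fun z => gg b Ψ H ε R ρ (θ, z) := by
  have h1 : Integrable Ψ := hΨ.integrable_of_hasCompactSupport hc
  refine h1.norm.mono' ?_ (Filter.Eventually.of_forall fun z => gg_le hb ρ (θ, z))
  exact ((gg_meas hΨ hH ρ).comp (measurable_const.prodMk measurable_id)).aestronglyMeasurable

/-- The integral over a thin strip. -/
noncomputable def WW2 (b : ℂ) (Ψ : ℂ → ℂ) (ε R θ s : ℝ) : ℂ :=
  ∫ t in (0 : ℝ)..R, Ψ (mv b ε θ (s, t))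

theorem inner (hΨ : Continuous Ψ) (hc : HasCompactSupport Ψ) (hH : Measurable H)
    (hb : ∀ x, ‖H x‖ ≤ 1) (hε : ε = 1 ∨ ε = -1) (hR : 0 ≤ R) {ρ : ℝ} (hρ : 0 ≤ ρ) (θ : ℝ) :
    ∫ z, gg b Ψ H ε R ρ (θ, z) = ∫ s in (0 : ℝ)..ρ, WW2 b Ψ ε R θ s * H (θ, ε * s) := by
  have hmp := mv_mp b hε θ
  have hεε : ε * ε = 1 := by rcases hε with h | h <;> rw [h] <;> norm_num
  have hm : Measurable fun z => gg b Ψ H ε R ρ (θ, z) :=
    (gg_meas hΨ hH ρ).comp (measurable_const.prodMk measurable_id)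
  have h1 : ∫ z, gg b Ψ H ε R ρ (θ, z) = ∫ q, gg b Ψ H ε R ρ (θ, mv b ε θ q) := by
    conv_lhs => rw [← hmp.map_eq]
    exact integral_map hmp.measurable.aemeasurable (by rw [hmp.map_eq]; exact hm.aestronglyMeasurable)
  have hint : Integrable fun q => gg b Ψ H ε R ρ (θ, mv b ε θ q) :=
    hmp.integrable_comp_of_integrable (gg_int hΨ hc hH hb ρ θ)
  have h2 : (fun q => gg b Ψ H ε R ρ (θ, mv b ε θ q)) =
      (Ioo 0 ρ ×ˢ Ioc 0 R).indicator fun q : ℝ × ℝ => Ψ (mv b ε θ q) * H (θ, ε * q.1) := by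
    ext q
    unfold gg
    simp only
    rw [rr_mv, vv_mv, ← mul_assoc, hεε, one_mul]
    by_cases hq : q ∈ Ioo 0 ρ ×ˢ Ioc 0 R
    · rw [indicator_of_mem hq, if_pos ⟨hq.2, hq.1⟩]
    · rw [indicator_of_notMem hq, if_neg fun h => hq ⟨h.2, h.1⟩]
  rw [h2] at hint
  rw [h1, h2, integral_indicator (measurableSet_Ioo.prod measurableSet_Ioc)]
  have h3 := (integrable_indicator_iff (measurableSet_Ioo.prod measurableSet_Ioc)).1 hint
  rw [Measure.volume_eq_prod] at h3 ⊢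
  rw [setIntegral_prod _ h3, intervalIntegral.integral_of_le hρ, integral_Ioc_eq_integral_Ioo]
  refine integral_congr_ae (Filter.Eventually.of_forall fun s => ?_)
  simp only
  unfold WW2
  rw [intervalIntegral.integral_of_le hR, integral_mul_const]

end Pool.Agent.Zk55.CF
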