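import Pool.Agent.Zk55.CF.Pen

set_option autoImplicit false

/-!
Pencils: the limit.
-/

namespace Pool.Agent.Zk55.CF

open Complex Set MeasureTheory Filter Topology Pool.Agent.W780.PG Pool.Agent.W780.BB
  Pool.Agent.TH578.BE Pool.Agent.K3h17.BK

open scoped Real ComplexConjugate

variable {b : ℂ} {Ψ : ℂ → ℂ} {H : ℝ × ℝ → ℂ} {ε R : ℝ}

theorem fub (hΨ : Continuous Ψ) (hc : HasCompactSupport Ψ) (hH : Measurable H)
    (hb : ∀ x, ‖H x‖ ≤ 1) (ρ : ℝ) :
    ∫ θ in (0 : ℝ)..(2 * π), ∫ z, gg b Ψ H ε R ρ (θ, z) =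
      ∫ z, ∫ θ in (0 : ℝ)..(2 * π), gg b Ψ H ε R ρ (θ, z) := by
  have hpi := Real.pi_pos
  have h1 : Integrable Ψ := hΨ.integrable_of_hasCompactSupport hc
  simp only [intervalIntegral.integral_of_le (show (0 : ℝ) ≤ 2 * π by positivity)]
  have h2 : Integrable (Function.uncurry fun (θ : ℝ) (z : ℂ) => gg b Ψ H ε R ρ (θ, z))
      ((volume.restrict (Ioc 0 (2 * π))).prod (volume : Measure ℂ)) := by
    refine (h1.norm.comp_snd (volume.restrict (Ioc (0 : ℝ) (2 * π)))).mono' ?_
      (Filter.Eventually.of_forall fun x => gg_le hb ρ x)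
    exact (gg_meas hΨ hH ρ).aestronglyMeasurable
  exact integral_integral_swap h2

theorem polar (b z : ℂ) (η : ℝ) : conj (dir (arg (b - z) + η)) * (b - z) =
    (‖z - b‖ : ℂ) * dir (-η) := by
  have h1 : b - z = (‖b - z‖ : ℂ) * dir (arg (b - z)) := by
    unfold dir
    exact (Complex.norm_mul_exp_arg_mul_I _).symm
  conv_lhs => rw [h1]
  rw [arg_real_mul' b z, dir_conj, norm_sub_rev z b, mul_left_comm, dir_mul]
  congr 2
  ring
where
  arg_real_mul' (b z : ℂ) : arg ((‖b - z‖ : ℂ) * dir (arg (b - z))) = arg (b - z) := by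
    congr 1
    unfold dir
    exact Complex.norm_mul_exp_arg_mul_I _

theorem rr_polar (b z : ℂ) (η : ℝ) : rr b (arg (b - z) + η) z = ‖z - b‖ * Real.cos η := by
  unfold rr
  rw [polar, Complex.re_ofReal_mul]
  unfold dir
  rw [Complex.exp_ofReal_mul_I_re, Real.cos_neg]

theorem vv_polar (b z : ℂ) (η : ℝ) : vv b (arg (b - z) + η) z = ‖z - b‖ * Real.sin η := by
  unfold vv
  have e : conj (dir (arg (b - z) + η)) * (z - b) = -(conj (dir (arg (b - z) + η)) * (b - z)) := by
    ring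
  rw [e, polar, Complex.neg_im, Complex.im_ofReal_mul]
  unfold dir
  rw [Complex.exp_ofReal_mul_I_im, Real.sin_neg]
  ring

theorem gg_per (hper : ∀ θ s, H (θ + 2 * π, s) = H (θ, s)) (ρ θ : ℝ) (z : ℂ) :
    gg b Ψ H ε R ρ (θ + 2 * π, z) = gg b Ψ H ε R ρ (θ, z) := by
  unfold gg rr vv
  simp only [dir_two_pi, hper]

/-- The thin pencil at the point `z`. -/
theorem thin (hε : ε = 1 ∨ ε = -1) (hper : ∀ θ s, H (θ + 2 * π, s) = H (θ, s)) {z : ℂ}
    (hz : 0 < ‖z - b‖) (hzR : ‖z - b‖ ≤ R) {ρ : ℝ} (hρ0 : 0 < ρ) (hρ : ρ < ‖z - b‖) :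
    ∫ θ in (0 : ℝ)..(2 * π), gg b Ψ H ε R ρ (θ, z) =
      ∫ η in (0 : ℝ)..(Real.arcsin (ρ / ‖z - b‖)),
        Ψ z * H (arg (b - z) + ε * η, vv b (arg (b - z) + ε * η) z) := by
  have hpi := Real.pi_pos
  set α := arg (b - z) with hα
  set r := ‖z - b‖ with hr
  set δ := Real.arcsin (ρ / r) with hδ
  have hq0 : 0 < ρ / r := div_pos hρ0 hz
  have hq1 : ρ / r < 1 := by rw [div_lt_one hz]; exact hρ
  have hδ0 : 0 < δ := Real.arcsin_pos.2 hq0
  have hδ1 : δ ≤ π / 2 := Real.arcsin_le_pi_div_two _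
  set g : ℝ → ℂ := fun θ => gg b Ψ H ε R ρ (θ, z) with hg
  have hgp : ∀ θ, g (θ + 2 * π) = g θ := fun θ => gg_per hper ρ θ z
  have e1 : ∫ η in (0 : ℝ)..(2 * π), g (α + ε * η) = ∫ θ in (0 : ℝ)..(2 * π), g θ := by
    rcases hε with h | h
    · rw [h]
      simp only [one_mul]
      exact int_shift hgp α
    · rw [h]
      simp only [neg_mul, one_mul, ← sub_eq_add_neg]
      exact int_refl hgp α
  have hgp' : Function.Periodic (fun η => g (α + ε * η)) (2 * π) := by
    intro η
    simp only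
    rcases hε with h | h
    · rw [h, one_mul, one_mul, ← add_assoc, hgp]
    · rw [h, ← hgp (α + -1 * (η + 2 * π))]
      congr 1
      ring
  have e2 := hgp'.intervalIntegral_add_eq (-π) 0
  rw [zero_add, show -π + 2 * π = π by ring] at e2
  rw [← e1, ← e2, intervalIntegral.integral_of_le (by linarith), 
    intervalIntegral.integral_of_le hδ0.le, integral_Ioc_eq_integral_Ioo (x := 0)]
  have e3 : ∀ η ∈ Ioc (-π) π, g (α + ε * η) = (Ioo 0 δ).indicator
      (fun η => Ψ z * H (α + ε * η, vv b (α + ε * η) z)) η := by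
    intro η hη
    have h1 : rr b (α + ε * η) z = r * Real.cos η := by
      rw [hα, rr_polar, ← hr]
      congr 1
      rcases hε with h | h
      · rw [h, one_mul]
      · rw [h, neg_mul, one_mul, Real.cos_neg]
    have h2 : ε * vv b (α + ε * η) z = r * Real.sin η := by
      rw [hα, vv_polar, ← hr]
      rcases hε with h | h
      · rw [h, one_mul, one_mul]
      · have h' : Real.sin (-1 * η) = - Real.sin η := by rw [neg_one_mul, Real.sin_neg]
        rw [h, h']
        ring
    have h3 : (rr b (α + ε * η) z ∈ Ioc 0 R ∧ ε * vv b (α + ε * η) z ∈ Ioo 0 ρ) ↔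
        η ∈ Ioo 0 δ := by
      rw [h1, h2]
      constructor
      · rintro ⟨⟨a1, a2⟩, a3, a4⟩
        have b1 : 0 < Real.cos η := (mul_pos_iff_of_pos_left hz).1 a1
        have b2 : 0 < Real.sin η := (mul_pos_iff_of_pos_left hz).1 a3
        have b3 : 0 < η := by
          by_contra hcon
          push Not at hcon
          have := Real.sin_nonpos_of_nonpos_of_neg_pi_le hcon hη.1.le
          linarith
        have b4 : η < π / 2 := by
          by_contra hcon
          push Not at hcon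
          have := Real.cos_nonpos_of_pi_div_two_le_of_le hcon (by linarith [hη.2])
          linarith
        refine ⟨b3, ?_⟩
        rw [hδ, Real.lt_arcsin_iff_sin_lt ⟨by linarith, b4.le⟩ ⟨by linarith, hq1.le⟩, lt_div_iff₀ hz]
        linarith
      · rintro ⟨a1, a2⟩
        have b1 : 0 < Real.cos η := Real.cos_pos_of_mem_Ioo ⟨by linarith, by linarith⟩
        have b2 : 0 < Real.sin η := Real.sin_pos_of_pos_of_lt_pi a1 (by linarith)
        have b3 : Real.sin η < ρ / r := by
          rw [← Real.lt_arcsin_iff_sin_lt ⟨by linarith, by linarith⟩ ⟨by linarith, hq1.le⟩]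
          exact a2
        rw [lt_div_iff₀ hz] at b3
        refine ⟨⟨mul_pos hz b1, ?_⟩, mul_pos hz b2, by linarith⟩
        calc r * Real.cos η ≤ r * 1 := by gcongr; exact Real.cos_le_one η
          _ = r := mul_one r
          _ ≤ R := hzR
    rw [hg]
    unfold gg
    simp only
    by_cases h4 : η ∈ Ioo 0 δ
    · rw [indicator_of_mem h4, if_pos (h3.2 h4)]
    · rw [indicator_of_notMem h4, if_neg fun h => h4 (h3.1 h)]
  rw [setIntegral_congr_fun measurableSet_Ioc e3, setIntegral_indicator measurableSet_Ioo]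
  congr 2
  ext η
  constructor
  · rintro ⟨-, h⟩; exact h
  · intro h; exact ⟨⟨by linarith [h.1], by linarith [h.2]⟩, h⟩

theorem arcsin_lim {r : ℝ} (hr : 0 < r) :
    Tendsto (fun ρ : ℝ => Real.arcsin (ρ / r) / ρ) (𝓝[>] 0) (𝓝 (1 / r)) := by
  have h1 : HasDerivAt (fun ρ : ℝ => Real.arcsin (ρ / r)) (1 / r) 0 := by
    have h2 := Real.hasDerivAt_arcsin (x := 0 / r) (by norm_num) (by norm_num)
    have h3 : HasDerivAt (fun ρ : ℝ => ρ / r) (1 / r) 0 := (hasDerivAt_id (0 : ℝ)).div_const r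
    have h4 := h2.comp (0 : ℝ) h3
    have e : 1 / √(1 - (0 / r) ^ 2) * (1 / r) = 1 / r := by simp
    rw [e] at h4
    exact h4
  have h5 := (hasDerivAt_iff_tendsto_slope_zero.1 h1).mono_left
    (nhdsWithin_mono (0 : ℝ) (fun x (hx : 0 < x) => hx.ne'))
  refine h5.congr fun ρ => ?_
  simp only [zero_add, zero_div, Real.arcsin_zero, sub_zero, smul_eq_mul]
  rw [inv_mul_eq_div]

theorem arcsin_bd {x : ℝ} (h0 : 0 ≤ x) (h1 : x ≤ 1) : Real.arcsin x ≤ π / 2 * x := by
  have hpi := Real.pi_pos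
  have h2 := Real.mul_le_sin (Real.arcsin_nonneg.2 h0) (Real.arcsin_le_pi_div_two x)
  rw [Real.sin_arcsin (by linarith) h1] at h2
  have h3 : Real.arcsin x = π / 2 * (2 / π * Real.arcsin x) := by field_simp
  rw [h3]
  gcongr

/-- The limit of the integrals over the thin pencils. -/
theorem lim_thin (hΨ : Continuous Ψ) (hc : HasCompactSupport Ψ) (hH : Measurable H)
    (hb : ∀ x, ‖H x‖ ≤ 1) (hper : ∀ θ s, H (θ + 2 * π, s) = H (θ, s)) (hε : ε = 1 ∨ ε = -1)
    {r1 : ℝ} (hr1 : 0 < r1) (hsup : ∀ z, Ψ z ≠ 0 → r1 ≤ ‖z - b‖ ∧ ‖z - b‖ ≤ R)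
    {f : ℂ × ℝ → ℂ} {ρ0 : ℝ} (hρ0 : 0 < ρ0)
    (hf : ∀ z, Ψ z ≠ 0 → ∀ θ, 0 < rr b θ z → |vv b θ z| < ρ0 → H (θ, vv b θ z) = f (z, θ))
    {g : ℂ → ℂ} (hg : ∀ᵐ z, Ψ z ≠ 0 → Tendsto (fun δ : ℝ => (1 / (δ : ℂ)) *
      ∫ η in (0 : ℝ)..δ, f (z, arg (b - z) + ε * η)) (𝓝[>] 0) (𝓝 (g z))) :
    Tendsto (fun ρ : ℝ => (1 / (ρ : ℂ)) * ∫ z, ∫ θ in (0 : ℝ)..(2 * π), gg b Ψ H ε R ρ (θ, z))
      (𝓝[>] 0) (𝓝 (∫ z, Ψ z * g z / ‖z - b‖)) := by
  have hpi := Real.pi_pos
  have hi : Integrable Ψ := hΨ.integrable_of_hasCompactSupport hc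
  simp only [← integral_const_mul]
  have hzero : ∀ z, Ψ z = 0 → ∀ ρ, ∫ θ in (0 : ℝ)..(2 * π), gg b Ψ H ε R ρ (θ, z) = 0 := by
    intro z hz ρ
    have : ∀ θ, gg b Ψ H ε R ρ (θ, z) = 0 := by
      intro θ
      unfold gg
      simp [hz]
    simp only [this, intervalIntegral.integral_zero]
  refine tendsto_integral_filter_of_dominated_convergence
    (fun z => ‖Ψ z‖ * (π / (2 * r1))) ?_ ?_ (hi.norm.mul_const _) ?_
  · refine Filter.Eventually.of_forall fun ρ => ?_
    have h1 : Measurable fun q : ℂ × ℝ => gg b Ψ H ε R ρ (q.2, q.1) :=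
      (gg_meas hΨ hH ρ).comp measurable_swap
    have h2 := h1.stronglyMeasurable.integral_prod_right' (ν := volume.restrict (Ioc 0 (2 * π)))
    simp only [intervalIntegral.integral_of_le (show (0 : ℝ) ≤ 2 * π by positivity)]
    exact (h2.const_mul _).aestronglyMeasurable
  · filter_upwards [Ioo_mem_nhdsGT hr1] with ρ hρ
    refine Filter.Eventually.of_forall fun z => ?_
    by_cases hz : Ψ z = 0
    · rw [hzero z hz, mul_zero, norm_zero]
      positivity
    · obtain ⟨h1, h2⟩ := hsup z hz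
      have h3 : 0 < ‖z - b‖ := hr1.trans_le h1
      rw [thin hε hper h3 h2 hρ.1 (hρ.2.trans_le h1), norm_mul]
      have h4 := intervalIntegral.norm_integral_le_of_norm_le_const (a := 0)
        (b := Real.arcsin (ρ / ‖z - b‖)) (C := ‖Ψ z‖)
        (f := fun η : ℝ => Ψ z * H (arg (b - z) + ε * η, vv b (arg (b - z) + ε * η) z))
        (fun η _ => by
          rw [norm_mul]
          calc _ ≤ ‖Ψ z‖ * 1 := by gcongr; exact hb _
            _ = _ := mul_one _)
      have h5 : 0 ≤ ρ / ‖z - b‖ := (div_pos hρ.1 h3).le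
      have h6 : ρ / ‖z - b‖ ≤ 1 := by rw [div_le_one h3]; linarith [hρ.2]
      have h7 := arcsin_bd h5 h6
      have h8 : 0 ≤ Real.arcsin (ρ / ‖z - b‖) := Real.arcsin_nonneg.2 h5
      rw [sub_zero, abs_of_nonneg h8] at h4
      have h9 : ‖(1 / (ρ : ℂ))‖ = 1 / ρ := by
        rw [norm_div, norm_one, Complex.norm_real, Real.norm_eq_abs, abs_of_pos hρ.1]
      rw [h9]
      calc 1 / ρ * _ ≤ 1 / ρ * (‖Ψ z‖ * (π / 2 * (ρ / ‖z - b‖))) := by
            have := hρ.1
            gcongr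
            exact h4.trans (by gcongr)
        _ = ‖Ψ z‖ * (π / (2 * ‖z - b‖)) := by
            have := hρ.1.ne'
            field_simp
        _ ≤ ‖Ψ z‖ * (π / (2 * r1)) := by gcongr
  · filter_upwards [hg] with z hgz
    by_cases hz : Ψ z = 0
    · simp only [hzero z hz, mul_zero, hz, zero_mul, zero_div]
      exact tendsto_const_nhds
    · obtain ⟨h1, h2⟩ := hsup z hz
      have h3 : 0 < ‖z - b‖ := hr1.trans_le h1
      have hgz' := hgz hz
      set r := ‖z - b‖ with hr
      have t1 : Tendsto (fun ρ : ℝ => Real.arcsin (ρ / r)) (𝓝[>] 0) (𝓝[>] 0) := by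
        rw [tendsto_nhdsWithin_iff]
        constructor
        · have : Continuous fun ρ : ℝ => Real.arcsin (ρ / r) :=
            Real.continuous_arcsin.comp (continuous_id.div_const r)
          have h4 := this.tendsto 0
          rw [zero_div, Real.arcsin_zero] at h4
          exact h4.mono_left nhdsWithin_le_nhds
        · filter_upwards [self_mem_nhdsWithin] with ρ hρ
          exact Real.arcsin_pos.2 (div_pos hρ h3)
      have t2 := hgz'.comp t1
      have t3 : Tendsto (fun ρ : ℝ => ((Real.arcsin (ρ / r) / ρ : ℝ) : ℂ)) (𝓝[>] 0)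
          (𝓝 ((1 / r : ℝ) : ℂ)) := (Complex.continuous_ofReal.tendsto _).comp (arcsin_lim h3)
      have t4 := (t2.mul t3).const_mul (Ψ z)
      have e0 : Ψ z * (g z * ((1 / r : ℝ) : ℂ)) = Ψ z * g z / r := by
        push_cast
        ring
      rw [e0] at t4
      refine t4.congr' ?_
      have m1 : ∀ᶠ ρ in 𝓝[>] (0 : ℝ), ρ < min r ρ0 := by
        filter_upwards [Ioo_mem_nhdsGT (lt_min h3 hρ0)] with ρ hρ using hρ.2
      filter_upwards [m1, self_mem_nhdsWithin] with ρ hρ1 hρ2
      have hρp : (0 : ℝ) < ρ := hρ2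
      have hρr : ρ < r := hρ1.trans_le (min_le_left _ _)
      rw [thin hε hper h3 h2 hρp hρr]
      have hδ0 : 0 < Real.arcsin (ρ / r) := Real.arcsin_pos.2 (div_pos hρp h3)
      have e1 : ∀ η ∈ uIcc 0 (Real.arcsin (ρ / r)),
          Ψ z * H (arg (b - z) + ε * η, vv b (arg (b - z) + ε * η) z) =
          Ψ z * f (z, arg (b - z) + ε * η) := by
        intro η hη
        rw [uIcc_of_le hδ0.le] at hη
        congr 1
        have c1 : |Real.sin η| ≤ ρ / r := by
          have d1 : 0 ≤ Real.sin η := Real.sin_nonneg_of_nonneg_of_le_pi hη.1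
            (by linarith [hη.2, Real.arcsin_le_pi_div_two (ρ / r)])
          rw [abs_of_nonneg d1]
          have d2 : Real.sin η ≤ Real.sin (Real.arcsin (ρ / r)) := by
            apply Real.sin_le_sin_of_le_of_le_pi_div_two _ (Real.arcsin_le_pi_div_two _) hη.2
            linarith [hη.1]
          rwa [Real.sin_arcsin (by linarith [div_pos hρp h3]) ((div_le_one h3).2 hρr.le)] at d2
        have c2 : 0 < Real.cos η := by
          apply Real.cos_pos_of_mem_Ioo
          refine ⟨by linarith [hη.1], ?_⟩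
          have d1 : Real.arcsin (ρ / r) < π / 2 := by
            rw [Real.arcsin_lt_pi_div_two, div_lt_one h3]
            exact hρr
          linarith [hη.2]
        apply hf z hz
        · rw [rr_polar, ← hr]
          refine mul_pos h3 ?_
          rcases hε with h | h
          · rw [h, one_mul]; exact c2
          · rw [h, neg_mul, one_mul, Real.cos_neg]; exact c2
        · rw [vv_polar, ← hr, abs_mul, abs_of_pos h3]
          have c3 : |Real.sin (ε * η)| = |Real.sin η| := by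
            rcases hε with h | h
            · rw [h, one_mul]
            · rw [h, neg_mul, one_mul, Real.sin_neg, abs_neg]
          rw [c3]
          calc r * |Real.sin η| ≤ r * (ρ / r) := by gcongr
            _ = ρ := by field_simp
            _ < ρ0 := hρ1.trans_le (min_le_right _ _)
      rw [intervalIntegral.integral_congr e1, intervalIntegral.integral_const_mul]
      simp only [Function.comp_apply]
      have hδc : ((Real.arcsin (ρ / r) : ℝ) : ℂ) ≠ 0 := by exact_mod_cast hδ0.ne'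
      have hρc : (ρ : ℂ) ≠ 0 := by exact_mod_cast hρp.ne'
      push_cast
      field_simp

end Pool.Agent.Zk55.CF
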