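import Pool.Agent.Zk55.CF.Pen2

set_option autoImplicit false

/-!
Pencils: the mean values over the lines near a point.
-/

namespace Pool.Agent.Zk55.CF

open Complex Set MeasureTheory Filter Topology Pool.Agent.W780.PG Pool.Agent.W780.BB
  Pool.Agent.TH578.BE Pool.Agent.K3h17.BK

open scoped Real ComplexConjugate

variable {b : ℂ} {Ψ : ℂ → ℂ} {H : ℝ × ℝ → ℂ} {ε R : ℝ}

theorem WW2_cont (hΨ : Continuous Ψ) :
    Continuous fun x : ℝ × ℝ => WW2 b Ψ ε R x.1 x.2 := by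
  unfold WW2
  have h1 : Continuous (Function.uncurry fun (x : ℝ × ℝ) (t : ℝ) => Ψ (mv b ε x.1 (x.2, t))) := by
    unfold Function.uncurry mv
    have := cont_dir
    fun_prop
  exact intervalIntegral.continuous_parametric_intervalIntegral_of_continuous' h1 0 R

theorem WW2_bd {M : ℝ} (hM : ∀ z, ‖Ψ z‖ ≤ M) (hR : 0 ≤ R) (θ s : ℝ) :
    ‖WW2 b Ψ ε R θ s‖ ≤ M * R := by
  have h := intervalIntegral.norm_integral_le_of_norm_le_const (a := 0) (b := R) (C := M)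
    (f := fun t : ℝ => Ψ (mv b ε θ (s, t))) (fun t _ => hM _)
  rwa [sub_zero, abs_of_nonneg hR] at h

theorem WW2_close (hΨ : Continuous Ψ) (hc : HasCompactSupport Ψ) (hε : ε = 1 ∨ ε = -1)
    (hR : 0 ≤ R) {η : ℝ} (hη : 0 < η) : ∃ s0 : ℝ, 0 < s0 ∧ ∀ θ s, |s| < s0 →
      ‖WW2 b Ψ ε R θ 0 - WW2 b Ψ ε R θ s‖ ≤ η := by
  have hu := hc.uniformContinuous_of_continuous hΨ
  obtain ⟨s0, hs0, h⟩ := Metric.uniformContinuous_iff.1 hu (η / (R + 1)) (by positivity)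
  refine ⟨s0, hs0, fun θ s hs => ?_⟩
  unfold WW2
  have hint : ∀ s', IntervalIntegrable (fun t : ℝ => Ψ (mv b ε θ (s', t))) volume 0 R := by
    intro s'
    apply Continuous.intervalIntegrable
    unfold mv
    fun_prop
  rw [← intervalIntegral.integral_sub (hint 0) (hint s)]
  have h1 := intervalIntegral.norm_integral_le_of_norm_le_const (a := 0) (b := R)
    (C := η / (R + 1)) (f := fun t : ℝ => Ψ (mv b ε θ (0, t)) - Ψ (mv b ε θ (s, t)))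
    (fun t _ => by
      rw [← dist_eq_norm]
      refine (h ?_).le
      rw [dist_comm, dist_eq_norm, mv_dist b hε]
      exact hs)
  rw [sub_zero, abs_of_nonneg hR] at h1
  refine h1.trans ?_
  rw [div_mul_eq_mul_div, div_le_iff₀ (by positivity)]
  nlinarith

/-- Parametric integrals. -/
theorem param_meas {u : ℝ × ℝ → ℂ} (hu : Measurable u) {ρ : ℝ} (hρ : 0 ≤ ρ) :
    Measurable fun θ : ℝ => ∫ s in (0 : ℝ)..ρ, u (θ, s) := by
  simp only [intervalIntegral.integral_of_le hρ]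
  exact (hu.stronglyMeasurable.integral_prod_right' (ν := volume.restrict (Ioc 0 ρ))).measurable

theorem param_ii {u : ℝ × ℝ → ℂ} (hu : Measurable u) {C : ℝ} (hC : ∀ x, ‖u x‖ ≤ C) {ρ : ℝ}
    (hρ : 0 ≤ ρ) (a c : ℝ) : IntervalIntegrable (fun θ : ℝ => ∫ s in (0 : ℝ)..ρ, u (θ, s))
      volume a c := by
  refine (intervalIntegrable_const (c := (C * ρ : ℝ))).mono_fun
    (param_meas hu hρ).aestronglyMeasurable (Filter.Eventually.of_forall fun θ => ?_)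
  have h := intervalIntegral.norm_integral_le_of_norm_le_const (a := 0) (b := ρ) (C := C)
    (f := fun s : ℝ => u (θ, s)) (fun s _ => hC _)
  rw [sub_zero, abs_of_nonneg hρ] at h
  refine h.trans ?_
  exact le_abs_self _

theorem bdd_ii {u : ℝ → ℂ} (hu : Measurable u) {C : ℝ} (hC : ∀ x, ‖u x‖ ≤ C) (a c : ℝ) :
    IntervalIntegrable u volume a c := by
  refine (intervalIntegrable_const (c := (C : ℝ))).mono_fun
    hu.aestronglyMeasurable (Filter.Eventually.of_forall fun θ => ?_)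
  exact (hC θ).trans (le_abs_self _)

/-- The difference of the inner integrals. -/
theorem inner_diff {H' : ℝ → ℂ} (hH' : Measurable H') (hb' : ∀ s, ‖H' s‖ ≤ 1) {W' : ℝ → ℂ}
    (hW' : Measurable W') {C η ρ : ℝ} (hC : ∀ s, ‖W' s‖ ≤ C) (hρ : 0 < ρ)
    (h : ∀ s ∈ Ioc 0 ρ, ‖W' 0 - W' s‖ ≤ η) :
    ‖(∫ s in (0 : ℝ)..ρ, W' 0 * H' s) - ∫ s in (0 : ℝ)..ρ, W' s * H' s‖ ≤ η * ρ := by
  have hC0 : 0 ≤ C := (norm_nonneg _).trans (hC 0)
  have hm : ∀ x y : ℂ, ‖x‖ ≤ C → ‖y‖ ≤ 1 → ‖x * y‖ ≤ C := by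
    intro x y h1 h2
    rw [norm_mul]
    nlinarith [norm_nonneg x, norm_nonneg y]
  have i1 : IntervalIntegrable (fun s => W' 0 * H' s) volume 0 ρ :=
    bdd_ii (u := fun s => W' 0 * H' s) (hH'.const_mul _) (fun s => hm _ _ (hC 0) (hb' s)) 0 ρ
  have i2 : IntervalIntegrable (fun s => W' s * H' s) volume 0 ρ :=
    bdd_ii (u := fun s => W' s * H' s) (hW'.mul hH') (fun s => hm _ _ (hC s) (hb' s)) 0 ρ
  rw [← intervalIntegral.integral_sub i1 i2]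
  have h4 := intervalIntegral.norm_integral_le_of_norm_le_const (a := 0) (b := ρ)
    (C := η) (f := fun s : ℝ => W' 0 * H' s - W' s * H' s) (fun s hs => by
      rw [uIoc_of_le hρ.le] at hs
      rw [← sub_mul, norm_mul]
      have c1 := h s hs
      have c2 := hb' s
      nlinarith [norm_nonneg (W' 0 - W' s), norm_nonneg (H' s)])
  rwa [sub_zero, abs_of_pos hρ] at h4

/-- The difference of the two forms. -/
theorem outer_diff (hΨ : Continuous Ψ) (hc : HasCompactSupport Ψ) (hH : Measurable H)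
    (hb : ∀ x, ‖H x‖ ≤ 1) (hR : 0 ≤ R) {η ρ : ℝ} (hρ : 0 < ρ)
    (hcl : ∀ θ, ∀ s ∈ Ioc 0 ρ, ‖WW2 b Ψ ε R θ 0 - WW2 b Ψ ε R θ s‖ ≤ η) :
    ‖(∫ θ in (0 : ℝ)..(2 * π), ∫ s in (0 : ℝ)..ρ, WW2 b Ψ ε R θ 0 * H (θ, ε * s)) -
      ∫ θ in (0 : ℝ)..(2 * π), ∫ s in (0 : ℝ)..ρ, WW2 b Ψ ε R θ s * H (θ, ε * s)‖ ≤
      η * ρ * (2 * π) := by
  have hpi := Real.pi_pos
  obtain ⟨M, hM⟩ : ∃ M, ∀ z, ‖Ψ z‖ ≤ M := hc.exists_bound_of_continuous hΨ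
  have hM0 : 0 ≤ M := (norm_nonneg _).trans (hM 0)
  have hMR : 0 ≤ M * R := mul_nonneg hM0 hR
  have hHε : Measurable fun x : ℝ × ℝ => H (x.1, ε * x.2) :=
    hH.comp (measurable_fst.prodMk (measurable_const.mul measurable_snd))
  have hWm : Measurable fun x : ℝ × ℝ => WW2 b Ψ ε R x.1 x.2 := (WW2_cont hΨ).measurable
  have hWm0 : Measurable fun x : ℝ × ℝ => WW2 b Ψ ε R x.1 0 :=
    hWm.comp (g := fun x : ℝ × ℝ => WW2 b Ψ ε R x.1 x.2) (f := fun x : ℝ × ℝ => (x.1, (0 : ℝ)))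
      (measurable_fst.prodMk measurable_const)
  have hm : ∀ x y : ℂ, ‖x‖ ≤ M * R → ‖y‖ ≤ 1 → ‖x * y‖ ≤ M * R := by
    intro x y h1 h2
    rw [norm_mul]
    nlinarith [norm_nonneg x, norm_nonneg y]
  have i1 : IntervalIntegrable (fun θ : ℝ => ∫ s in (0 : ℝ)..ρ,
      WW2 b Ψ ε R θ 0 * H (θ, ε * s)) volume 0 (2 * π) :=
    param_ii (u := fun x : ℝ × ℝ => WW2 b Ψ ε R x.1 0 * H (x.1, ε * x.2)) (hWm0.mul hHε)
      (fun x => hm _ _ (WW2_bd hM hR _ _) (hb _)) hρ.le 0 (2 * π)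
  have i2 : IntervalIntegrable (fun θ : ℝ => ∫ s in (0 : ℝ)..ρ,
      WW2 b Ψ ε R θ s * H (θ, ε * s)) volume 0 (2 * π) :=
    param_ii (u := fun x : ℝ × ℝ => WW2 b Ψ ε R x.1 x.2 * H (x.1, ε * x.2)) (hWm.mul hHε)
      (fun x => hm _ _ (WW2_bd hM hR _ _) (hb _)) hρ.le 0 (2 * π)
  rw [← intervalIntegral.integral_sub i1 i2]
  have b3 : ∀ θ : ℝ, ‖(∫ s in (0 : ℝ)..ρ, WW2 b Ψ ε R θ 0 * H (θ, ε * s)) -
      ∫ s in (0 : ℝ)..ρ, WW2 b Ψ ε R θ s * H (θ, ε * s)‖ ≤ η * ρ := fun θ =>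
    inner_diff (H' := fun s => H (θ, ε * s)) (W' := fun s => WW2 b Ψ ε R θ s)
      (hHε.comp (g := fun x : ℝ × ℝ => H (x.1, ε * x.2)) (f := fun s : ℝ => (θ, s))
        (measurable_const.prodMk measurable_id)) (fun s => hb _)
      (hWm.comp (g := fun x : ℝ × ℝ => WW2 b Ψ ε R x.1 x.2) (f := fun s : ℝ => (θ, s))
        (measurable_const.prodMk measurable_id)) (fun s => WW2_bd hM hR _ _) hρ (hcl θ)
  have b4 := intervalIntegral.norm_integral_le_of_norm_le_const (a := 0) (b := 2 * π)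
    (C := η * ρ) (f := fun θ : ℝ =>
      (∫ s in (0 : ℝ)..ρ, WW2 b Ψ ε R θ 0 * H (θ, ε * s)) -
      ∫ s in (0 : ℝ)..ρ, WW2 b Ψ ε R θ s * H (θ, ε * s)) (fun θ _ => b3 θ)
  rwa [sub_zero, abs_of_pos (by positivity : (0 : ℝ) < 2 * π)] at b4

/-- Mean values over the lines near `b`. -/
theorem pen (hΨ : Continuous Ψ) (hc : HasCompactSupport Ψ) (hH : Measurable H)
    (hb : ∀ x, ‖H x‖ ≤ 1) (hper : ∀ θ s, H (θ + 2 * π, s) = H (θ, s)) (hε : ε = 1 ∨ ε = -1)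
    {r1 : ℝ} (hr1 : 0 < r1) (hR : 0 ≤ R) (hsup : ∀ z, Ψ z ≠ 0 → r1 ≤ ‖z - b‖ ∧ ‖z - b‖ ≤ R)
    {f : ℂ × ℝ → ℂ} {ρ0 : ℝ} (hρ0 : 0 < ρ0)
    (hf : ∀ z, Ψ z ≠ 0 → ∀ θ, 0 < rr b θ z → |vv b θ z| < ρ0 → H (θ, vv b θ z) = f (z, θ))
    {g : ℂ → ℂ} (hg : ∀ᵐ z, Ψ z ≠ 0 → Tendsto (fun δ : ℝ => (1 / (δ : ℂ)) *
      ∫ η in (0 : ℝ)..δ, f (z, arg (b - z) + ε * η)) (𝓝[>] 0) (𝓝 (g z))) :
    Tendsto (fun ρ : ℝ => ∫ θ in (0 : ℝ)..(2 * π), (∫ t in (0 : ℝ)..R, Ψ (b - t • dir θ)) *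
      ((1 / (ρ : ℂ)) * ∫ s in (0 : ℝ)..ρ, H (θ, ε * s)))
      (𝓝[>] 0) (𝓝 (∫ z, Ψ z * g z / ‖z - b‖)) := by
  have hpi := Real.pi_pos
  have h1 := lim_thin hΨ hc hH hb hper hε hr1 hsup hρ0 hf hg
  have hW0 : ∀ θ, ∫ t in (0 : ℝ)..R, Ψ (b - t • dir θ) = WW2 b Ψ ε R θ 0 := by
    intro θ
    unfold WW2
    simp only [mv_zero]
  -- the difference
  have key : Tendsto (fun ρ : ℝ => (∫ θ in (0 : ℝ)..(2 * π),
      (∫ t in (0 : ℝ)..R, Ψ (b - t • dir θ)) * ((1 / (ρ : ℂ)) * ∫ s in (0 : ℝ)..ρ, H (θ, ε * s))) -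
      (1 / (ρ : ℂ)) * ∫ z, ∫ θ in (0 : ℝ)..(2 * π), gg b Ψ H ε R ρ (θ, z)) (𝓝[>] 0) (𝓝 0) := by
    rw [Metric.tendsto_nhds]
    intro η hη
    obtain ⟨s0, hs0, hclose⟩ := WW2_close (b := b) (R := R) hΨ hc hε hR
      (show 0 < η / (4 * π) by positivity)
    filter_upwards [Ioo_mem_nhdsGT hs0] with ρ hρ
    rw [dist_zero_right]
    have hρ0 : 0 < ρ := hρ.1
    have hρc : (ρ : ℂ) ≠ 0 := by exact_mod_cast hρ0.ne'
    rw [← fub hΨ hc hH hb ρ]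
    have e1 : ∀ θ : ℝ, ∫ z, gg b Ψ H ε R ρ (θ, z) =
        ∫ s in (0 : ℝ)..ρ, WW2 b Ψ ε R θ s * H (θ, ε * s) := fun θ =>
      inner hΨ hc hH hb hε hR hρ0.le θ
    have e2 : ∀ θ : ℝ, (∫ t in (0 : ℝ)..R, Ψ (b - t • dir θ)) *
        ((1 / (ρ : ℂ)) * ∫ s in (0 : ℝ)..ρ, H (θ, ε * s)) =
        (1 / (ρ : ℂ)) * ∫ s in (0 : ℝ)..ρ, WW2 b Ψ ε R θ 0 * H (θ, ε * s) := by
      intro θ
      rw [intervalIntegral.integral_const_mul, hW0]
      ring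
    simp only [e1, e2]
    rw [intervalIntegral.integral_const_mul, ← mul_sub, norm_mul]
    have b4 := outer_diff (b := b) (ε := ε) (η := η / (4 * π)) hΨ hc hH hb hR hρ0
      (fun θ s hs => hclose θ s (by rw [abs_of_pos hs.1]; exact hs.2.trans_lt hρ.2))
    have b5 : ‖(1 / (ρ : ℂ))‖ = 1 / ρ := by
      rw [norm_div, norm_one, Complex.norm_real, Real.norm_eq_abs, abs_of_pos hρ0]
    rw [b5]
    have b6 : 1 / ρ * (η / (4 * π) * ρ * (2 * π)) = η / 2 := by field_simp; ring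
    have b7 := mul_le_mul_of_nonneg_left b4 (show 0 ≤ 1 / ρ by positivity)
    rw [b6] at b7
    linarith
  have h2 := key.add h1
  rw [zero_add] at h2
  refine h2.congr fun ρ => ?_
  ring

end Pool.Agent.Zk55.CF
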