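import Pool.Agent.K3h17.BK.FinF

set_option autoImplicit false

/-!
The values of an eigenfunction with signs as a function of the oriented lines which meet the polygon.
-/

namespace Pool.Agent.Zk55.CF

open Complex Set MeasureTheory Filter Topology Pool.Agent.W780.PG Pool.Agent.W780.BB
  Pool.Agent.TH578.BE Pool.Agent.K3h17.BK

open scoped Real ComplexConjugate

variable {n : ℕ} {p : Fin (n + 3) → ℂ}

/-- The line through `z` in the direction `θ`. -/
noncomputable def ln (z : ℂ) (θ : ℝ) : ℝ × ℝ := (θ, (conj (dir θ) * z).im)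

theorem ph_ln (z : ℂ) (θ : ℝ) (y : ℂ) : ph (ln z θ) y = (conj (dir θ) * (y - z)).im := by
  unfold ph ln
  rw [mul_sub, Complex.sub_im]

theorem ph_ln_self (z : ℂ) (θ : ℝ) : ph (ln z θ) z = 0 := by
  rw [ph_ln, sub_self, mul_zero, Complex.zero_im]

theorem ln_of_ph {x : ℝ × ℝ} {z : ℂ} (h : ph x z = 0) : ln z x.1 = x := by
  unfold ph at h
  unfold ln
  ext
  · rfl
  · show (conj (dir x.1) * z).im = x.2
    linarith

theorem hull (hp : IsConvexPolygon p) : region p = reg p :=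
  (Pool.Agent.W975.PG.hull Pool.Agent.W174.PG.basic n p hp).2

theorem reg_op (hp : IsConvexPolygon p) : IsOpen (reg p) := (Pool.Agent.W174.PG.basic n p hp).2.1

theorem reg_cv (hp : IsConvexPolygon p) : Convex ℝ (reg p) := (Pool.Agent.W174.PG.basic n p hp).2.2.1

/-- The weight of a word. -/
def sg (χ : Fin (n + 3) → ℂ) : List (Fin (n + 3)) → ℂ
  | [] => 1
  | i :: w => χ i * sg χ w

theorem sg_norm {χ : Fin (n + 3) → ℂ} (h : ∀ i, χ i = 1 ∨ χ i = -1) (w : List (Fin (n + 3))) :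
    sg χ w = 1 ∨ sg χ w = -1 := by
  induction w with
  | nil => left; rfl
  | cons i w ih =>
    rcases h i with h1 | h1 <;> rcases ih with h2 | h2 <;> simp [sg, h1, h2]

theorem sg_sq {χ : Fin (n + 3) → ℂ} (h : ∀ i, χ i = 1 ∨ χ i = -1) (w : List (Fin (n + 3))) :
    sg χ w * sg χ w = 1 := by
  rcases sg_norm h w with h1 | h1 <;> rw [h1] <;> norm_num

theorem ph_shift (x : ℝ × ℝ) (y : ℂ) (r : ℝ) : ph x (y + r • dir x.1) = ph x y := by
  unfold ph
  have h2 : conj (dir x.1) * dir x.1 = 1 := by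
    rw [dir_conj, dir_mul, neg_add_cancel]
    unfold dir
    simp
  have : conj (dir x.1) * (y + r • dir x.1) = conj (dir x.1) * y + (r : ℂ) := by
    rw [real_smul, mul_add]
    congr 1
    rw [mul_left_comm, h2, mul_one]
  rw [this, Complex.add_im, Complex.ofReal_im, add_zero]

/-- Both sides of a crossing. -/
theorem cross (hp : IsConvexPolygon p) {i : Fin (n + 3)} {x : ℝ × ℝ} (h1 : ph x (p i) < 0)
    (h2 : 0 < ph x (p (i + 1))) : ∃ Y ∈ openSegment ℝ (p i) (p (i + 1)), ∃ r : ℝ, 0 < r ∧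
      Y - r • dir x.1 ∈ reg p ∧ Y + r • dir (2 * tau p i - x.1) ∈ reg p ∧
      ph x (Y - r • dir x.1) = 0 ∧ ph (fl p i x) (Y + r • dir (2 * tau p i - x.1)) = 0 := by
  obtain ⟨hr1, -, hr3, hr4, hr5, -⟩ := Pool.Agent.W347.BB.ref n p hp
  set D := ph x (p (i + 1)) - ph x (p i) with hD
  have hD0 : 0 < D := by linarith
  set s := - ph x (p i) / D with hs
  have hs0 : 0 < s := div_pos (by linarith) hD0
  have hs1 : s < 1 := by rw [hs, div_lt_one hD0]; linarith
  set Y : ℂ := (1 - s) • p i + s • p (i + 1) with hY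
  have hYs : Y ∈ openSegment ℝ (p i) (p (i + 1)) :=
    ⟨1 - s, s, by linarith, hs0, by ring, rfl⟩
  have hph : ph x Y = 0 := by
    rw [hY, ph_comb]
    have : s * D = - ph x (p i) := by rw [hs]; field_simp
    rw [hD] at this
    linarith
  have hYf := Pool.Agent.W174.PG.side_facts hp i (show Y ∈ side p i from hYs)
  have hY0 : sf p i Y = 0 := hYf.2.1
  have hYk : ∀ k, k ≠ i → 0 < sf p k Y := fun k hk => hYf.2.2 k hk
  have hrf : ∀ r : ℝ, rf p i (Y + r • dir x.1) = Y + r • dir (2 * tau p i - x.1) := by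
    intro r
    rw [hr5, hr4 i Y hY0]
  have hcont : ∀ k, ∀ θ : ℝ, Continuous fun r : ℝ => sf p k (Y + r • dir θ) := by
    intro k θ
    unfold sf lft
    fun_prop
  have e1 : ∀ᶠ r in 𝓝[>] (0 : ℝ), ∀ k, k ≠ i → 0 < sf p k (Y - r • dir x.1) := by
    rw [Filter.eventually_all]
    intro k
    by_cases hk : k = i
    · exact Filter.Eventually.of_forall fun _ h => absurd hk h
    · have h3 : Tendsto (fun r : ℝ => sf p k (Y + (-r) • dir x.1)) (𝓝[>] 0)
          (𝓝 (sf p k (Y + (-(0 : ℝ)) • dir x.1))) :=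
        (((hcont k x.1).comp continuous_neg).tendsto 0).mono_left nhdsWithin_le_nhds
      rw [neg_zero, zero_smul, add_zero] at h3
      filter_upwards [h3.eventually_const_lt (hYk k hk)] with r hr _
      rw [sub_eq_add_neg, ← neg_smul]
      exact hr
  have e2 : ∀ᶠ r in 𝓝[>] (0 : ℝ), ∀ k, k ≠ i → 0 < sf p k (Y + r • dir (2 * tau p i - x.1)) := by
    rw [Filter.eventually_all]
    intro k
    by_cases hk : k = i
    · exact Filter.Eventually.of_forall fun _ h => absurd hk h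
    · have h3 : Tendsto (fun r : ℝ => sf p k (Y + r • dir (2 * tau p i - x.1))) (𝓝[>] 0)
          (𝓝 (sf p k (Y + (0 : ℝ) • dir (2 * tau p i - x.1)))) :=
        ((hcont k _).tendsto 0).mono_left nhdsWithin_le_nhds
      rw [zero_smul, add_zero] at h3
      filter_upwards [h3.eventually_const_lt (hYk k hk)] with r hr _
      exact hr
  obtain ⟨r, ⟨h3, h4⟩, h5⟩ := ((e1.and e2).and self_mem_nhdsWithin).exists
  have hr : (0 : ℝ) < r := h5
  refine ⟨Y, hYs, r, hr, fun k => ?_, fun k => ?_, ?_, ?_⟩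
  · change 0 < sf p k (Y - r • dir x.1)
    by_cases hk : k = i
    · subst hk
      rw [sub_eq_add_neg, ← neg_smul, sf_dir, hY0, zero_sub, neg_mul, neg_neg]
      exact mul_pos hr hD0
    · exact h3 k hk
  · change 0 < sf p k (Y + r • dir (2 * tau p i - x.1))
    by_cases hk : k = i
    · subst hk
      rw [← hrf, hr3, sf_dir, hY0, zero_sub, neg_neg]
      exact mul_pos hr hD0
    · exact h4 k hk
  · rw [sub_eq_add_neg, ← neg_smul, ph_shift, hph]
  · rw [← hrf, ph_fl, ph_shift, hph, neg_zero]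

/-- Two points of the polygon on one line. -/
theorem same_line (hp : IsConvexPolygon p) {χ : Fin (n + 3) → ℂ} {f : ℂ × ℝ → ℂ}
    (hE : IsEigenfunction p 0 χ f) {x : ℝ × ℝ} {z y : ℂ} (hz : z ∈ reg p) (hy : y ∈ reg p)
    (h1 : ph x z = 0) (h2 : ph x y = 0) : f (y, x.1) = f (z, x.1) := by
  have hrr := hull hp
  have e := on_line h1 h2
  have h3 := hE.free z x.1 (tt x y - tt x z) (by rw [hrr]; exact hz)
    (by rw [hrr, ← e]; exact hy)
  rw [← e] at h3
  rw [h3]
  simp

/-- The values along a word. -/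
theorem val (hp : IsConvexPolygon p) {χ : Fin (n + 3) → ℂ} {f : ℂ × ℝ → ℂ}
    (hE : IsEigenfunction p 0 χ f) : ∀ (w : List (Fin (n + 3))) (x : ℝ × ℝ) (z y : ℂ), z ∈ reg p →
    ph x z = 0 → RW p w x → y ∈ reg p → ph (fw p w x) y = 0 →
      f (y, (fw p w x).1) = sg χ w * f (z, x.1) := by
  have hrr := hull hp
  intro w
  induction w with
  | nil =>
    intro x z y hz h1 _ hy h2
    rw [sg, one_mul]
    exact same_line hp hE hz hy h1 h2
  | cons i w ih =>
    intro x z y hz h1 hW hy h2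
    obtain ⟨hW1, hW2, hW3⟩ := hW
    obtain ⟨Y, hY, r, hr, a1, a2, a3, a4⟩ := cross hp hW1 hW2
    rw [fw] at h2 ⊢
    rw [ih (fl p i x) _ y a2 a4 hW3 hy h2]
    have h3 := hE.reflect i Y hY x.1 r r hr hr (by rw [hrr]; exact a1) (by rw [hrr]; exact a2)
    have h4 : (fl p i x).1 = 2 * tau p i - x.1 := rfl
    rw [h4, h3, same_line hp hE hz a1 h1 a3, sg]
    simp
    ring

end Pool.Agent.Zk55.CF
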