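import Pool.Agent.Zk55.CF.Vtx3

set_option autoImplicit false

/-!
The directions of the visible unfolded vertices are dense.
-/

namespace Pool.Agent.Zk55.CF

open Complex Set MeasureTheory Filter Topology Pool.Agent.W780.PG Pool.Agent.W780.BB
  Pool.Agent.TH578.BE Pool.Agent.K3h17.BK

open scoped Real ComplexConjugate

variable {n : ℕ} {p : Fin (n + 3) → ℂ}

theorem cyc {P : Fin (n + 3) → Prop} (h : ∀ i, P i → P (i + 1)) {i0 : Fin (n + 3)} (h0 : P i0)
    (j : Fin (n + 3)) : P j := by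
  have h1 : ∀ (m : ℕ) (i : Fin (n + 3)), i.val + m = n + 2 → P i → P 0 := by
    intro m
    induction m with
    | zero =>
      intro i hi hPi
      have hl : i = Fin.last (n + 2) := Fin.ext (by simpa using hi)
      have h2 := h i hPi
      rwa [hl, Fin.last_add_one] at h2
    | succ m ih =>
      intro i hi hPi
      refine ih (i + 1) ?_ (h i hPi)
      rw [Fin.val_add_one_of_lt' (by omega)]
      omega
  have h2 : P 0 := h1 (n + 2 - i0.val) i0 (by have := i0.isLt; omega) h0
  have h3 : ∀ (m : ℕ) (hm : m < n + 3), P ⟨m, hm⟩ := by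
    intro m
    induction m with
    | zero => intro hm; exact h2
    | succ m ih =>
      intro hm
      have h4 := h _ (ih (by omega))
      have h5 : (⟨m, by omega⟩ : Fin (n + 3)) + 1 = ⟨m + 1, hm⟩ := by
        apply Fin.ext
        rw [Fin.val_add_one_of_lt' (by simpa using hm)]
      rwa [h5] at h4
  exact h3 j.val j.isLt

theorem hs_convex (x : ℝ × ℝ) : Convex ℝ {z : ℂ | ph x z ≤ 0} := by
  intro a ha c hc s t hs ht hst
  have h := ph_comb x a c t
  rw [show 1 - t = s by linarith] at h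
  show ph x (s • a + t • c) ≤ 0
  rw [h]
  have h1 := mul_nonpos_of_nonneg_of_nonpos hs ha
  have h2 := mul_nonpos_of_nonneg_of_nonpos ht hc
  linarith

theorem hs_convex' (x : ℝ × ℝ) : Convex ℝ {z : ℂ | 0 < ph x z} := by
  intro a ha c hc s t hs ht hst
  have h := ph_comb x a c t
  rw [show 1 - t = s by linarith] at h
  show 0 < ph x (s • a + t • c)
  rw [h]
  have ha' : 0 < ph x a := ha
  have hc' : 0 < ph x c := hc
  rcases hs.eq_or_lt with h1 | h1
  · have : t = 1 := by linarith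
    rw [← h1, this]
    simpa using hc'
  · have := mul_pos h1 ha'
    have := mul_nonneg ht hc'.le
    linarith

theorem reg_sub_hull (hp : IsConvexPolygon p) : reg p ⊆ convexHull ℝ (range p) := by
  have h1 := (Pool.Agent.W975.PG.hull Pool.Agent.W174.PG.basic n p hp).1
  rw [← h1]
  intro z hz i
  exact (hz i).le

/-- Where a line leaves the polygon. -/
theorem exit (hp : IsConvexPolygon p) {x : ℝ × ℝ} {y : ℂ} (hy : y ∈ reg p) (h0 : ph x y = 0) :
    ∃ i, (ph x (p i) < 0 ∧ 0 < ph x (p (i + 1))) ∨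
      (ph x (p i) = 0 ∧ ∃ t : ℝ, 0 < t ∧ p i = y + t • dir x.1) := by
  obtain ⟨i, h1, h2⟩ : ∃ i, ph x (p i) ≤ 0 ∧ 0 < ph x (p (i + 1)) := by
    by_contra hcon
    push Not at hcon
    by_cases hex : ∃ i0, ph x (p i0) ≤ 0
    · obtain ⟨i0, hi0⟩ := hex
      have hall := cyc (P := fun i => ph x (p i) ≤ 0) hcon hi0
      have hsub : convexHull ℝ (range p) ⊆ {z : ℂ | ph x z ≤ 0} := by
        refine convexHull_min ?_ (hs_convex x)
        rintro _ ⟨i, rfl⟩
        exact hall i
      -- a point on the left of the line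
      have hc : Continuous fun r : ℝ => y + (r : ℂ) * (I * dir x.1) := by fun_prop
      have h3 : ∀ᶠ r : ℝ in 𝓝[>] (0 : ℝ), y + (r : ℂ) * (I * dir x.1) ∈ reg p := by
        have h4 := hc.tendsto 0
        rw [Complex.ofReal_zero, zero_mul, add_zero] at h4
        exact (h4.mono_left nhdsWithin_le_nhds) ((reg_op hp).mem_nhds hy)
      obtain ⟨r, h4, h5⟩ := (h3.and self_mem_nhdsWithin).exists
      have hr : (0 : ℝ) < r := h5
      have h6 : ph x (y + (r : ℂ) * (I * dir x.1)) ≤ 0 := hsub (reg_sub_hull hp h4)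
      have h7 : ph x (y + (r : ℂ) * (I * dir x.1)) = ph x y + r := by
        unfold ph
        have e : conj (dir x.1) * (y + (r : ℂ) * (I * dir x.1)) =
            conj (dir x.1) * y + (r : ℂ) * (I * (conj (dir x.1) * dir x.1)) := by ring
        rw [e, conj_dir_mul, mul_one, Complex.add_im, Complex.im_ofReal_mul, I_im]
        ring
      rw [h7, h0] at h6
      linarith
    · push Not at hex
      have hsub : convexHull ℝ (range p) ⊆ {z : ℂ | 0 < ph x z} := by
        refine convexHull_min ?_ (hs_convex' x)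
        rintro _ ⟨i, rfl⟩
        exact hex i
      have h1 : 0 < ph x y := hsub (reg_sub_hull hp hy)
      linarith
  rcases h1.lt_or_eq with h1 | h1
  · exact ⟨i, Or.inl ⟨h1, h2⟩⟩
  · refine ⟨i, Or.inr ⟨h1, tt x (p i) - tt x y, ?_, on_line h0 h1⟩⟩
    have h3 := sf_on_line (p := p) i h0 h1
    have h4 : sf p i (p i) = 0 := Pool.Agent.W174.PG.lft_left _ _
    have h5 : 0 < sf p i y := hy i
    rw [h4, h1, sub_zero] at h3
    by_contra hcon
    push Not at hcon
    have := mul_nonpos_of_nonpos_of_nonneg hcon h2.le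
    linarith

/-- The folded line meets the polygon. -/
theorem meets (hp : IsConvexPolygon p) {w : List (Fin (n + 3))} {x : ℝ × ℝ} (hw : w ≠ [])
    (h : RW p w x) : ∃ y ∈ reg p, ph (fw p w x) y = 0 := by
  obtain ⟨v, i, rfl⟩ : ∃ v i, w = v ++ [i] := ⟨w.dropLast, w.getLast hw,
    (List.dropLast_append_getLast hw).symm⟩
  rw [RW_append] at h
  obtain ⟨-, h1, h2, -⟩ := h
  obtain ⟨Y, -, r, -, -, a2, -, a4⟩ := cross hp h1 h2
  rw [fw_append]
  exact ⟨_, a2, a4⟩

theorem RW_WW (w : List (Fin (n + 3))) : ∀ x : ℝ × ℝ, RW p w x → WW p w x := by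
  induction w with
  | nil => intro x _; trivial
  | cons i w ih =>
    intro x h
    exact ⟨h.1.le, h.2.1.le, ih _ h.2.2⟩

theorem RW_uniq (hp : IsConvexPolygon p) : ∀ (w w' : List (Fin (n + 3))) (x : ℝ × ℝ),
    w.length = w'.length → RW p w x → RW p w' x → w = w' := by
  intro w
  induction w with
  | nil =>
    intro w' x hl _ _
    exact (List.length_eq_zero_iff.1 hl.symm).symm
  | cons i w ih =>
    intro w' x hl h h'
    cases w' with
    | nil => simp at hl
    | cons i' w' =>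
      have e := uniq_side hp h.1 h.2.1 h'.1 h'.2.1
      subst e
      rw [ih w' _ (by simpa using hl) h.2.2 h'.2.2]

/-- The vertex `j` is visible from `z` in the direction `θ` along the word `w`. -/
def VisAt (p : Fin (n + 3) → ℂ) (z : ℂ) (w : List (Fin (n + 3))) (j : Fin (n + 3)) (θ : ℝ) :
    Prop :=
  RW p w (ln z θ) ∧ ph (ln z θ) (uf p w (p j)) = 0 ∧ 0 < rr (uf p w (p j)) θ z ∧
    ∃ u : ℝ, 0 < u ∧ p j - u • dir (fw p w (ln z θ)).1 ∈ reg p

theorem tt_rr (z b : ℂ) (θ : ℝ) : rr b θ z = tt (ln z θ) b - tt (ln z θ) z := by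
  unfold rr tt ln
  rw [mul_sub, Complex.sub_re]

theorem vis_of_exit (hp : IsConvexPolygon p) {z : ℂ} (hz : z ∈ reg p) {w : List (Fin (n + 3))}
    {θ : ℝ} (hw : RW p w (ln z θ)) : (∃ i, RW p (w ++ [i]) (ln z θ)) ∨ ∃ j, VisAt p z w j θ := by
  obtain ⟨hr1, -⟩ := Pool.Agent.W347.BB.ref n p hp
  set x := ln z θ with hx
  have hz0 : ph x z = 0 := ph_ln_self z θ
  obtain ⟨y, hy, hy0, hyz⟩ : ∃ y ∈ reg p, ph (fw p w x) y = 0 ∧ (w = [] → y = z) := by
    by_cases h : w = []
    · subst h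
      exact ⟨z, hz, hz0, fun _ => rfl⟩
    · obtain ⟨y, h1, h2⟩ := meets hp h hw
      exact ⟨y, h1, h2, fun h' => absurd h' h⟩
  obtain ⟨i, ⟨h1, h2⟩ | ⟨h1, t, ht, h2⟩⟩ := exit hp hy hy0
  · left
    exact ⟨i, by rw [RW_append]; exact ⟨hw, h1, h2, trivial⟩⟩
  · right
    have hb0 : ph x (uf p w (p i)) = 0 := by
      rw [ph_fw hr1] at h1
      rcases mul_eq_zero.1 h1 with h | h
      · exact absurd h (pow_ne_zero _ (by norm_num))
      · exact h
    refine ⟨i, hw, hb0, ?_, t, ht, ?_⟩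
    · rw [tt_rr, ← hx]
      by_cases hn : w = []
      · have h3 := hyz hn
        subst hn
        rw [h3] at h2
        have h4 : uf p [] (p i) = p i := rfl
        rw [h4, h2]
        have h5 : tt x (z + t • dir (fw p [] x).1) = tt x z + t := by
          unfold tt
          have e : conj (dir x.1) * (z + t • dir (fw p [] x).1) =
              conj (dir x.1) * z + (t : ℂ) * (conj (dir x.1) * dir x.1) := by
            rw [real_smul]
            show _ = _
            rw [mul_add]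
            congr 1
            show conj (dir x.1) * ((t : ℂ) * dir x.1) = _
            ring
          rw [e, conj_dir_mul, mul_one, Complex.add_re, Complex.ofReal_re]
        rw [h5]
        linarith
      · obtain ⟨v, k, rfl⟩ : ∃ v k, w = v ++ [k] := ⟨w.dropLast, w.getLast hn,
          (List.dropLast_append_getLast hn).symm⟩
        have hk := hw
        rw [RW_append] at hk
        obtain ⟨-, k1, k2, -⟩ := hk
        have hne : ∀ l, ph (fw p v x) (p l) ≠ 0 → rf p k (p l) = p l → l ≠ i := by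
          rintro l hl hrf rfl
          rw [fw_append] at h1
          have h3 : fw p [k] (fw p v x) = fl p k (fw p v x) := rfl
          rw [h3] at h1
          have h4 := ph_fl (p := p) k (fw p v x) (p l)
          rw [hrf, h1] at h4
          exact hl (by linarith)
        have e1 : i ≠ k := (hne k k1.ne
          ((Pool.Agent.W347.BB.ref n p hp).2.2.2.1 k _ (Pool.Agent.W174.PG.lft_left _ _))).symm
        have e2 : i ≠ k + 1 := (hne (k + 1) k2.ne'
          ((Pool.Agent.W347.BB.ref n p hp).2.2.2.1 k _ (Pool.Agent.W174.PG.lft_right _ _))).symm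
        have h3 := ord hp k v x z (RW_WW _ _ hw) hz0 (fun j => (hz j).le) i e1 e2 hb0
        linarith
    · have h3 : p i - t • dir (fw p w x).1 = y := by rw [h2]; ring
      rw [h3]
      exact hy

theorem cont_ln (z : ℂ) : Continuous fun θ : ℝ => ln z θ := by
  unfold ln
  have := cont_dir
  have := continuous_conj
  fun_prop

/-- Without visible vertices all directions of an interval have the same words. -/
theorem same_word (hp : IsConvexPolygon p) {z : ℂ} (hz : z ∈ reg p) {a c : ℝ} (hac : a < c)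
    (hno : ∀ θ ∈ Ioo a c, ∀ w j, ¬ VisAt p z w j θ) (k : ℕ) :
    ∃ w : List (Fin (n + 3)), w.length = k ∧ ∀ θ ∈ Ioo a c, RW p w (ln z θ) := by
  induction k with
  | zero => exact ⟨[], rfl, fun _ _ => trivial⟩
  | succ k ih =>
    obtain ⟨w, hl, hw⟩ := ih
    have hex : ∀ θ ∈ Ioo a c, ∃ i, RW p (w ++ [i]) (ln z θ) := by
      intro θ hθ
      rcases vis_of_exit hp hz (hw θ hθ) with h | ⟨j, h⟩
      · exact h
      · exact absurd h (hno θ hθ w j)
    have hmid : (a + c) / 2 ∈ Ioo a c := ⟨by linarith, by linarith⟩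
    obtain ⟨i0, hi0⟩ := hex _ hmid
    have hopen : ∀ i, IsOpen {θ : ℝ | RW p (w ++ [i]) (ln z θ)} := fun i =>
      (isOpen_RW (w ++ [i])).preimage (cont_ln z)
    have hpre : IsPreconnected (Ioo a c) := isPreconnected_Ioo
    have hdis : ∀ θ i i', RW p (w ++ [i]) (ln z θ) → RW p (w ++ [i']) (ln z θ) → i = i' := by
      intro θ i i' h h'
      have := RW_uniq hp _ _ _ (by simp) h h'
      simpa using this
    have hsub := (isPreconnected_iff_subset_of_disjoint.1 hpre)
      {θ : ℝ | RW p (w ++ [i0]) (ln z θ)} (⋃ i ∈ {i | i ≠ i0}, {θ : ℝ | RW p (w ++ [i]) (ln z θ)})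
      (hopen i0) (isOpen_biUnion fun i _ => hopen i)
      (by
        intro θ hθ
        obtain ⟨i, hi⟩ := hex θ hθ
        by_cases h : i = i0
        · left; rw [← h]; exact hi
        · right; exact mem_biUnion (show i ∈ {i | i ≠ i0} from h) hi)
      (by
        rw [Set.eq_empty_iff_forall_notMem]
        rintro θ ⟨-, h1, h2⟩
        simp only [mem_iUnion] at h2
        obtain ⟨i, hi, h3⟩ := h2
        exact hi (hdis θ _ _ h3 h1))
    rcases hsub with h | h
    · exact ⟨w ++ [i0], by simp [hl], fun θ hθ => h hθ⟩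
    · exfalso
      have h1 := h hmid
      simp only [mem_iUnion] at h1
      obtain ⟨i, hi, h3⟩ := h1
      exact hi (hdis _ _ _ h3 hi0)

theorem ch_fp : ∀ (w : List (Fin (n + 3))) (B A : ℂ), Ch p w B A → fp p w A ∈ reg p := by
  intro w
  induction w with
  | nil => intro B A h; exact h
  | cons i w ih => intro B A h; exact ih _ _ h.2.2.2

/-- The directions of the visible vertices are dense, for almost every point. -/
theorem vis_dense (hp : IsConvexPolygon p) : ∀ᵐ z : ℂ, z ∈ reg p → ∀ a c : ℝ, a < c →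
    ∃ θ ∈ Ioo a c, ∃ w j, VisAt p z w j θ := by
  have hpi := Real.pi_pos
  have hG : ∀ᵐ x : ℂ × ℝ, ∀ N : ℕ, (∀ w j, uf p w (p j) ∉ segment ℝ x.1 (x.1 + (N : ℝ) • dir x.2)) ∧
      (∀ w i, sf p i (fp p w (x.1 + (N : ℝ) • dir x.2)) ≠ 0) := by
    rw [ae_all_iff]
    exact fun N => Pool.Agent.W337.BB.gen_th n p hp N
  rw [Measure.volume_eq_prod] at hG
  filter_upwards [Measure.ae_ae_of_ae_prod hG] with z hgen hz a c hac
  by_contra hcon
  push Not at hcon
  -- a smaller interval
  set c' := min c (a + π) with hc'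
  have hac' : a < c' := lt_min hac (by linarith)
  have hno : ∀ θ ∈ Ioo a c', ∀ w j, ¬ VisAt p z w j θ := fun θ hθ w j =>
    hcon θ ⟨hθ.1, hθ.2.trans_le (min_le_left _ _)⟩ w j
  obtain ⟨θ1, hθ1, hg1⟩ : ∃ θ1 ∈ Ioo a c', ∀ N : ℕ,
      (∀ w j, uf p w (p j) ∉ segment ℝ z (z + (N : ℝ) • dir θ1)) ∧
      (∀ w i, sf p i (fp p w (z + (N : ℝ) • dir θ1)) ≠ 0) := by
    have h1 : ∃ θ ∈ Ioo a c', θ ∈ {θ : ℝ | ∀ N : ℕ,
      (∀ w j, uf p w (p j) ∉ segment ℝ z (z + (N : ℝ) • dir θ)) ∧
      (∀ w i, sf p i (fp p w (z + (N : ℝ) • dir θ)) ≠ 0)} :=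
      (Measure.dense_of_ae hgen).exists_mem_open isOpen_Ioo (nonempty_Ioo.2 hac') |>.imp
        fun θ h => ⟨h.2, h.1⟩
    exact h1
  obtain ⟨θ2, hθ2, hne⟩ : ∃ θ2 ∈ Ioo a c', θ2 ≠ θ1 := by
    refine ⟨(a + θ1) / 2, ⟨by linarith [hθ1.1], by linarith [hθ1.1, hθ1.2]⟩, ?_⟩
    intro h
    linarith [hθ1.1]
  have hlen : c' ≤ a + π := min_le_right _ _
  have hs0 : 0 < |Real.sin (θ1 - θ2)| := by
    rw [abs_pos]
    intro h0
    obtain ⟨k, hk⟩ := Real.sin_eq_zero_iff.1 h0
    have h1 : |θ1 - θ2| < π := by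
      rw [abs_lt]
      constructor <;> linarith [hθ1.1, hθ1.2, hθ2.1, hθ2.2]
    rw [← hk, abs_mul, abs_of_pos hpi] at h1
    have h2 : |(k : ℝ)| < 1 := by
      by_contra hc
      push Not at hc
      nlinarith
    have h3 : k = 0 := by
      have : |k| < 1 := by exact_mod_cast h2
      exact Int.abs_lt_one_iff.1 this
    rw [h3, Int.cast_zero, zero_mul] at hk
    exact hne (by linarith)
  obtain ⟨Rb', hRb⟩ := (reg_bounded hp).exists_norm_le
  obtain ⟨N, hN⟩ := exists_nat_gt (2 * Rb' / |Real.sin (θ1 - θ2)|)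
  obtain ⟨Nn, d, hd, hex⟩ := Pool.Agent.TH225.BL.exist_lin n p hp
  have hNpos : 0 < (N : ℝ) := by
    refine lt_of_le_of_lt ?_ hN
    have : 0 ≤ Rb' := (norm_nonneg z).trans (hRb z hz)
    positivity
  obtain ⟨w1, -, hch⟩ := hex N z hz (z + (N : ℝ) • dir θ1)
    (by rw [add_sub_cancel_left, norm_smul, nd, mul_one, Real.norm_eq_abs, abs_of_pos hNpos])
    (hg1 N).1 (hg1 N).2
  have hRW1 : RW p w1 (ln z θ1) :=
    RW_of_Ch hp w1 z _ (ln z θ1) N hNpos (ph_ln_self z θ1) rfl hch
  obtain ⟨w, hl, hw⟩ := same_word hp hz hac' hno w1.length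
  have hww : w = w1 := RW_uniq hp _ _ _ hl (hw θ1 hθ1) hRW1
  have hRW2 : RW p w1 (ln z θ2) := by rw [← hww]; exact hw θ2 hθ2
  obtain ⟨hr1, -, -, -, -, -, hfu, hfn, -⟩ := Pool.Agent.W347.BB.ref n p hp
  obtain ⟨y, hy, hy0⟩ : ∃ y ∈ reg p, ph (fw p w1 (ln z θ2)) y = 0 := by
    by_cases h : w1 = []
    · subst h
      exact ⟨z, hz, ph_ln_self z θ2⟩
    · exact meets hp h hRW2
  set A := z + (N : ℝ) • dir θ1 with hA
  set Y := uf p w1 y with hY
  have hYph : ph (ln z θ2) Y = 0 := by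
    rw [ph_fw hr1] at hy0
    rcases mul_eq_zero.1 hy0 with h | h
    · exact absurd h (pow_ne_zero _ (by norm_num))
    · exact h
  have hfA : fp p w1 A ∈ reg p := ch_fp w1 _ _ hch
  have hdist : ‖A - Y‖ ≤ 2 * Rb' := by
    have h1 := hfn w1 A Y
    rw [hY, (hfu w1 y).1] at h1
    rw [hY, ← h1]
    have h2 := hRb _ hfA
    have h3 := hRb _ hy
    linarith [norm_sub_le (fp p w1 A) y]
  have hAph : ph (ln z θ2) A = N * Real.sin (θ1 - θ2) := by
    rw [ph_ln, hA, add_sub_cancel_left, real_smul, mul_left_comm, dir_conj, dir_mul,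
      Complex.im_ofReal_mul]
    unfold dir
    rw [Complex.exp_ofReal_mul_I_im]
    congr 2
    ring
  have hle : |ph (ln z θ2) A - ph (ln z θ2) Y| ≤ ‖A - Y‖ := by
    have e : ph (ln z θ2) A - ph (ln z θ2) Y = (conj (dir θ2) * (A - Y)).im := by
      rw [ph_ln, ph_ln, ← Complex.sub_im, ← mul_sub]
      congr 2
      ring
    rw [e]
    exact abs_im_le _ _
  rw [hYph, sub_zero, hAph, abs_mul, abs_of_pos hNpos] at hle
  rw [div_lt_iff₀ hs0] at hN
  linarith

end Pool.Agent.Zk55.CF
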