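import Pool.Agent.Zk55.CF.Pen3

set_option autoImplicit false

/-!
The lines near a vertex: incoming directions.
-/

namespace Pool.Agent.Zk55.CF

open Complex Set MeasureTheory Filter Topology Pool.Agent.W780.PG Pool.Agent.W780.BB
  Pool.Agent.TH578.BE Pool.Agent.K3h17.BK

open scoped Real ComplexConjugate

variable {n : ℕ} {p : Fin (n + 3) → ℂ} {χ : Fin (n + 3) → ℂ} {f : ℂ × ℝ → ℂ}

/-- The directions which lead from the inside to the vertex `j`. -/
def Inc (p : Fin (n + 3) → ℂ) (j : Fin (n + 3)) : Set ℝ :=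
  {θ | Real.sin (θ - tau p j) < 0 ∧ Real.sin (θ - tau p (j - 1)) < 0}

theorem sf_vert (i j : Fin (n + 3)) (θ t : ℝ) : sf p i (p j - t • dir θ) =
    sf p i (p j) - t * (‖p (i + 1) - p i‖ * Real.sin (θ - tau p i)) := by
  have h1 := sf_dir (p := p) i (θ, 0) (p j) (-t)
  have h2 : ph ((θ, 0) : ℝ × ℝ) (p (i + 1)) - ph ((θ, 0) : ℝ × ℝ) (p i) =
      ‖p (i + 1) - p i‖ * Real.sin (tau p i - θ) := by
    rw [← im_tau, mul_sub, Complex.sub_im]
    unfold ph
    simp
  have h3 : Real.sin (tau p i - θ) = - Real.sin (θ - tau p i) := by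
    rw [← Real.sin_neg, neg_sub]
  rw [h2, h3, neg_smul, ← sub_eq_add_neg] at h1
  rw [h1]
  ring

/-- If the polygon contains a point just before the vertex, the direction is incoming. -/
theorem inc_of_mem (hp : IsConvexPolygon p) {j : Fin (n + 3)} {θ u : ℝ} (hu : 0 < u)
    (h : p j - u • dir θ ∈ reg p) : θ ∈ Inc p j := by
  have hpos : ∀ i, sf p i (p j) = 0 → Real.sin (θ - tau p i) < 0 := by
    intro i h0
    have h1 : 0 < sf p i (p j - u • dir θ) := h i
    rw [sf_vert, h0, zero_sub] at h1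
    by_contra hcon
    push Not at hcon
    have := mul_nonneg hu.le (mul_nonneg (len_pos hp i).le hcon)
    linarith
  refine ⟨hpos j (Pool.Agent.W174.PG.lft_left _ _), hpos (j - 1) ?_⟩
  have := Pool.Agent.W174.PG.lft_right (p (j - 1)) (p (j - 1 + 1))
  rw [sub_add_cancel] at this
  unfold sf
  rw [sub_add_cancel]
  exact this

/-- Incoming directions come from the polygon. -/
theorem mem_of_inc (hp : IsConvexPolygon p) (j : Fin (n + 3)) : ∃ r2 : ℝ, 0 < r2 ∧
    ∀ θ ∈ Inc p j, ∀ t, 0 < t → t ≤ r2 → p j - t • dir θ ∈ reg p := by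
  have h1 : ∀ᶠ r in 𝓝[>] (0 : ℝ), ∀ i, i ≠ j → i ≠ j - 1 →
      r * ‖p (i + 1) - p i‖ < sf p i (p j) := by
    rw [Filter.eventually_all]
    intro i
    by_cases h2 : i = j
    · exact Filter.Eventually.of_forall fun _ h => absurd h2 h
    · by_cases h3 : i = j - 1
      · exact Filter.Eventually.of_forall fun _ _ h => absurd h3 h
      · have h4 : 0 < sf p i (p j) := by
          refine hp.pos i j (fun h => h2 h.symm) fun h => h3 ?_
          rw [h, add_sub_cancel_right]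
        have h5 : Tendsto (fun r : ℝ => r * ‖p (i + 1) - p i‖) (𝓝[>] 0)
            (𝓝 (0 * ‖p (i + 1) - p i‖)) :=
          ((continuous_id.mul continuous_const).tendsto 0).mono_left nhdsWithin_le_nhds
        rw [zero_mul] at h5
        filter_upwards [h5.eventually_lt_const h4] with r hr _ _ using hr
  obtain ⟨r2, h2, h3⟩ := (h1.and self_mem_nhdsWithin).exists
  refine ⟨r2, h3, fun θ hθ t ht htr i => ?_⟩
  change 0 < sf p i (p j - t • dir θ)
  rw [sf_vert]
  by_cases h4 : i = j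
  · subst h4
    have h5 : sf p i (p i) = 0 := Pool.Agent.W174.PG.lft_left _ _
    rw [h5, zero_sub, ← mul_neg, ← mul_neg]
    exact mul_pos ht (mul_pos (len_pos hp _) (by linarith [hθ.1]))
  · by_cases h5 : i = j - 1
    · subst h5
      have h6 : sf p (j - 1) (p j) = 0 := by
        have := Pool.Agent.W174.PG.lft_right (p (j - 1)) (p (j - 1 + 1))
        rw [sub_add_cancel] at this
        unfold sf
        rw [sub_add_cancel]
        exact this
      rw [h6, zero_sub, ← mul_neg, ← mul_neg]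
      exact mul_pos ht (mul_pos (len_pos hp _) (by linarith [hθ.2]))
    · have h6 := h2 i h4 h5
      have h7 : t * (‖p (i + 1) - p i‖ * Real.sin (θ - tau p i)) ≤ r2 * ‖p (i + 1) - p i‖ := by
        have h8 := Real.sin_le_one (θ - tau p i)
        have h9 := (len_pos hp i).le
        calc _ ≤ t * (‖p (i + 1) - p i‖ * 1) := by gcongr
          _ = t * ‖p (i + 1) - p i‖ := by rw [mul_one]
          _ ≤ _ := by gcongr
      linarith

/-- The mean values over the lines near the vertex `j`. -/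
noncomputable def Kp (p : Fin (n + 3) → ℂ) (f : ℂ × ℝ → ℂ) (j : Fin (n + 3)) (ρ θ : ℝ) : ℂ :=
  ∫ u in (0 : ℝ)..1, Kv p f j (θ, ρ * u)

theorem Kp_eq (j : Fin (n + 3)) {ρ ε : ℝ} (hρ : 0 < ρ) (θ : ℝ) :
    (1 / (ρ : ℂ)) * ∫ s in (0 : ℝ)..ρ, Kv p f j (θ, ε * s) = Kp p f j (ε * ρ) θ := by
  unfold Kp
  have h1 := intervalIntegral.integral_comp_mul_left (a := 0) (b := 1)
    (fun s : ℝ => Kv p f j (θ, ε * s)) hρ.ne'
  rw [mul_zero, mul_one, real_smul] at h1
  have h2 : ∀ u : ℝ, ε * ρ * u = ε * (ρ * u) := fun u => by ring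
  simp only [h2]
  rw [h1]
  push_cast
  rw [one_div]

theorem Kp_bound (hp : IsConvexPolygon p) (hE : IsEigenfunction p 0 χ f) (hb : ∀ x, ‖f x‖ ≤ 1)
    (j : Fin (n + 3)) (ρ θ : ℝ) : ‖Kp p f j ρ θ‖ ≤ 1 := by
  unfold Kp
  have h := intervalIntegral.norm_integral_le_of_norm_le_const (a := 0) (b := 1) (C := 1)
    (f := fun u : ℝ => Kv p f j (θ, ρ * u)) (fun u _ => Kv_bound hp hE hb j _)
  simpa using h

theorem Kp_meas (hp : IsConvexPolygon p) (hf : Measurable f) (j : Fin (n + 3)) {σ : ℝ → ℝ}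
    (hσ : Measurable σ) : Measurable fun θ => Kp p f j (σ θ) θ := by
  unfold Kp
  have h1 : Measurable fun x : ℝ × ℝ => Kv p f j (x.1, σ x.1 * x.2) :=
    (Kv_meas hp hf j).comp (measurable_fst.prodMk ((hσ.comp measurable_fst).mul measurable_snd))
  exact param_meas (u := fun x : ℝ × ℝ => Kv p f j (x.1, σ x.1 * x.2)) h1 zero_le_one

theorem Kp_per (hE : IsEigenfunction p 0 χ f) (j : Fin (n + 3)) (ρ θ : ℝ) :
    Kp p f j ρ (θ + 2 * π) = Kp p f j ρ θ := by
  unfold Kp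
  simp only [Kv_per hE]

/-! ### Continuous fibres -/

/-- Mean values of a function which agrees with a continuous one. -/
theorem avg_lim {u g : ℝ → ℂ} (hg : Continuous g) (hu : ∀ᵐ θ, u θ = g θ) {ε : ℝ}
    (hε : ε = 1 ∨ ε = -1) (α : ℝ) : Tendsto (fun δ : ℝ => (1 / (δ : ℂ)) *
      ∫ η in (0 : ℝ)..δ, u (α + ε * η)) (𝓝[>] 0) (𝓝 (g α)) := by
  have h1 : ∀ᵐ η : ℝ, u (α + ε * η) = g (α + ε * η) := by
    rcases hε with h | h
    · rw [h]
      simp only [one_mul]
      exact (measurePreserving_add_left (volume : Measure ℝ) α).quasiMeasurePreserving.ae hu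
    · rw [h]
      simp only [neg_mul, one_mul, ← sub_eq_add_neg]
      exact (Measure.measurePreserving_sub_left (volume : Measure ℝ) α).quasiMeasurePreserving.ae hu
  have h2 : ∀ δ : ℝ, ∫ η in (0 : ℝ)..δ, u (α + ε * η) = ∫ η in (0 : ℝ)..δ, g (α + ε * η) := by
    intro δ
    exact intervalIntegral.integral_congr_ae (h1.mono fun η h _ => h)
  simp only [h2]
  have hc : Continuous fun η : ℝ => g (α + ε * η) := by fun_prop
  have h3 := (intervalIntegral.integral_hasDerivAt_right (hc.intervalIntegrable 0 0)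
    (hc.stronglyMeasurableAtFilter _ _) hc.continuousAt)
  have h4 := (hasDerivAt_iff_tendsto_slope_zero.1 h3).mono_left
    (nhdsWithin_mono (0 : ℝ) (fun x (hx : 0 < x) => hx.ne'))
  rw [mul_zero, add_zero] at h4
  refine h4.congr fun δ => ?_
  rw [zero_add, intervalIntegral.integral_same, sub_zero, real_smul]
  push_cast
  rw [one_div]

/-- `f` has continuous fibres `G z` near the vertices. -/
def Fib (p : Fin (n + 3) → ℂ) (rv : ℝ) (f : ℂ × ℝ → ℂ) (G : ℂ → ℝ → ℂ) : Prop :=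
  ∀ᵐ z, z ∈ reg p ∧ (∃ j, ‖z - p j‖ < rv) → Continuous (G z) ∧ ∀ᵐ θ, f (z, θ) = G z θ

theorem fib_avg {rv : ℝ} {G : ℂ → ℝ → ℂ} (hG : Fib p rv f G) {b : ℂ} {ε : ℝ}
    (hε : ε = 1 ∨ ε = -1) {Ψ : ℂ → ℂ}
    (hΨ : ∀ z, Ψ z ≠ 0 → z ∈ reg p ∧ ∃ j, ‖z - p j‖ < rv) : ∀ᵐ z, Ψ z ≠ 0 → Tendsto (fun δ : ℝ =>
      (1 / (δ : ℂ)) * ∫ η in (0 : ℝ)..δ, f (z, arg (b - z) + ε * η)) (𝓝[>] 0)
      (𝓝 (G z (arg (b - z)))) := by
  filter_upwards [hG] with z hz h
  obtain ⟨h1, h2⟩ := hz (hΨ z h)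
  exact avg_lim (u := fun θ => f (z, θ)) h1 h2 hε _

/-! ### Test functions from functions of the direction -/

theorem arg_cont {ψ : ℝ → ℂ} (hc : Continuous ψ) (hper : ∀ θ, ψ (θ + 2 * π) = ψ θ) {z : ℂ}
    (hz : z ≠ 0) : ContinuousAt (fun z => ψ (arg z)) z := by
  have hp : Function.Periodic ψ (2 * π) := hper
  have hlift : Continuous (hp.lift : Real.Angle → ℂ) :=
    (QuotientAddGroup.isQuotientMap_mk (AddSubgroup.zmultiples (2 * π))).continuous_iff.2 hc
  have h1 : (fun z => ψ (arg z)) = fun z => (hp.lift : Real.Angle → ℂ) ((arg z : ℝ) : Real.Angle) := by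
    ext z
    exact (hp.lift_coe (arg z)).symm
  rw [h1]
  exact hlift.continuousAt.comp (Complex.continuousAt_arg_coe_angle hz)

theorem per_int {ψ : ℝ → ℂ} (hper : ∀ θ, ψ (θ + 2 * π) = ψ θ) (θ : ℝ) (k : ℤ) :
    ψ (θ + k * (2 * π)) = ψ θ := by
  have hp : Function.Periodic ψ (2 * π) := hper
  have := hp.int_mul k θ
  simpa using this

theorem arg_dir {ψ : ℝ → ℂ} (hper : ∀ θ, ψ (θ + 2 * π) = ψ θ) {t : ℝ} (ht : 0 < t) (θ : ℝ) :
    ψ (arg (t • dir θ)) = ψ θ := by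
  have h1 : exp ((arg (t • dir θ) : ℂ) * I) = exp ((θ : ℂ) * I) := by
    have h2 := Complex.norm_mul_exp_arg_mul_I (t • dir θ)
    rw [norm_smul, nd, mul_one, Real.norm_eq_abs, abs_of_pos ht, real_smul] at h2
    have h3 : (t : ℂ) ≠ 0 := by exact_mod_cast ht.ne'
    exact mul_left_cancel₀ h3 h2
  obtain ⟨k, hk⟩ := Complex.exp_eq_exp_iff_exists_int.1 h1
  have h4 : arg (t • dir θ) = θ + k * (2 * π) := by
    have h5 : ((arg (t • dir θ) : ℝ) : ℂ) * I = ((θ + k * (2 * π) : ℝ) : ℂ) * I := by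
      rw [hk]; push_cast; ring
    exact_mod_cast mul_right_cancel₀ I_ne_zero h5
  rw [h4]
  exact per_int hper θ k

/-- The bump in the radial direction. -/
noncomputable def bump (r : ℝ) (t : ℝ) : ℝ := max 0 ((t - r / 3) * (2 * r / 3 - t))

theorem bump_cont (r : ℝ) : Continuous (bump r) := by
  unfold bump
  fun_prop

theorem bump_supp {r t : ℝ} (h : bump r t ≠ 0) : r / 3 < t ∧ t < 2 * r / 3 ∨
    2 * r / 3 < t ∧ t < r / 3 := by
  unfold bump at h
  have h1 : 0 < (t - r / 3) * (2 * r / 3 - t) := by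
    by_contra hcon
    push Not at hcon
    exact h (max_eq_left hcon)
  rcases mul_pos_iff.1 h1 with ⟨a, b⟩ | ⟨a, b⟩
  · left; constructor <;> linarith
  · right; constructor <;> linarith

theorem bump_supp' {r t : ℝ} (hr : 0 < r) (h : bump r t ≠ 0) : r / 3 < t ∧ t < 2 * r / 3 := by
  rcases bump_supp h with h | h
  · exact h
  · exfalso; linarith [h.1, h.2]

theorem bump_int {r : ℝ} (hr : 0 < r) : 0 < ∫ t in (0 : ℝ)..r, bump r t := by
  refine intervalIntegral.integral_pos hr (bump_cont r).continuousOn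
    (fun t _ => le_max_left _ _) ⟨r / 2, ⟨by linarith, by linarith⟩, ?_⟩
  unfold bump
  apply lt_max_of_lt_right
  apply mul_pos <;> linarith

/-- The test function. -/
noncomputable def tf (b : ℂ) (r : ℝ) (ψ : ℝ → ℂ) (z : ℂ) : ℂ :=
  (bump r ‖z - b‖ : ℂ) * ψ (arg (b - z))

theorem tf_cont {b : ℂ} {r : ℝ} (hr : 0 < r) {ψ : ℝ → ℂ} (hc : Continuous ψ)
    (hper : ∀ θ, ψ (θ + 2 * π) = ψ θ) : Continuous (tf b r ψ) := by
  rw [continuous_iff_continuousAt]
  intro z
  by_cases hz : z = b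
  · have h1 : ∀ᶠ z' in 𝓝 z, tf b r ψ z' = 0 := by
      have h2 : ∀ᶠ z' in 𝓝 z, ‖z' - b‖ < r / 3 := by
        have h3 : Continuous fun z' : ℂ => ‖z' - b‖ := by fun_prop
        refine (h3.tendsto z).eventually_lt_const ?_
        rw [hz, sub_self, norm_zero]
        linarith
      filter_upwards [h2] with z' h3
      unfold tf
      have : bump r ‖z' - b‖ = 0 := by
        by_contra hne
        linarith [(bump_supp' hr hne).1]
      rw [this, Complex.ofReal_zero, zero_mul]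
    exact (continuousAt_congr h1).2 continuousAt_const
  · have h1 : b - z ≠ 0 := fun h => hz (sub_eq_zero.1 h).symm
    have h2 := arg_cont hc hper h1
    have h3 : ContinuousAt (fun z : ℂ => ψ (arg (b - z))) z :=
      ContinuousAt.comp (f := fun z : ℂ => b - z) (g := fun z => ψ (arg z)) h2
        (by fun_prop)
    have h4 : ContinuousAt (fun z : ℂ => (bump r ‖z - b‖ : ℂ)) z := by
      have := bump_cont r
      exact (Complex.continuous_ofReal.comp (this.comp (by fun_prop))).continuousAt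
    exact h4.mul h3

theorem tf_supp {b : ℂ} {r : ℝ} (hr : 0 < r) {ψ : ℝ → ℂ} {z : ℂ} (h : tf b r ψ z ≠ 0) :
    r / 3 ≤ ‖z - b‖ ∧ ‖z - b‖ ≤ r := by
  unfold tf at h
  have h1 : bump r ‖z - b‖ ≠ 0 := by
    intro h0
    rw [h0, Complex.ofReal_zero, zero_mul] at h
    exact h rfl
  have := bump_supp' hr h1
  constructor <;> linarith [this.1, this.2]

theorem tf_compact {b : ℂ} {r : ℝ} (hr : 0 < r) {ψ : ℝ → ℂ} : HasCompactSupport (tf b r ψ) := by
  refine HasCompactSupport.intro (isCompact_closedBall b r) fun z hz => ?_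
  by_contra hne
  have := (tf_supp hr hne).2
  rw [Metric.mem_closedBall, dist_eq_norm] at hz
  exact hz this

theorem tf_ray {b : ℂ} {r : ℝ} {ψ : ℝ → ℂ} (hper : ∀ θ, ψ (θ + 2 * π) = ψ θ) {t : ℝ} (ht : 0 < t)
    (θ : ℝ) : tf b r ψ (b - t • dir θ) = (bump r t : ℂ) * ψ θ := by
  unfold tf
  have h1 : b - t • dir θ - b = - (t • dir θ) := by ring
  have h2 : b - (b - t • dir θ) = t • dir θ := by ring
  rw [h1, h2, norm_neg, norm_smul, nd, mul_one, Real.norm_eq_abs, abs_of_pos ht, arg_dir hper ht]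

theorem tf_W {b : ℂ} {r : ℝ} (hr : 0 < r) {ψ : ℝ → ℂ} (hper : ∀ θ, ψ (θ + 2 * π) = ψ θ) (θ : ℝ) :
    ∫ t in (0 : ℝ)..r, tf b r ψ (b - t • dir θ) = ((∫ t in (0 : ℝ)..r, bump r t : ℝ) : ℂ) * ψ θ := by
  have h1 : ∫ t in (0 : ℝ)..r, tf b r ψ (b - t • dir θ) =
      ∫ t in (0 : ℝ)..r, (bump r t : ℂ) * ψ θ := by
    refine intervalIntegral.integral_congr_ae (Filter.Eventually.of_forall fun t ht => ?_)
    rw [uIoc_of_le hr.le] at ht
    exact tf_ray hper ht.1 θ
  rw [h1, intervalIntegral.integral_mul_const, intervalIntegral.integral_ofReal]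

/-- Every point is on a ray. -/
theorem on_ray {b z : ℂ} (hz : z ≠ b) : z = b - ‖z - b‖ • dir (arg (b - z)) := by
  have h1 := Complex.norm_mul_exp_arg_mul_I (b - z)
  have h2 : ‖z - b‖ • dir (arg (b - z)) = b - z := by
    rw [real_smul, norm_sub_rev]
    exact h1
  rw [h2]
  ring

/-- The limits for the incoming directions, the same from both sides. -/
theorem inc_lim (hp : IsConvexPolygon p) (hf : Measurable f) (hb : ∀ x, ‖f x‖ ≤ 1)
    (hE : IsEigenfunction p 0 χ f) {rv : ℝ} (hrv : 0 < rv) {G : ℂ → ℝ → ℂ} (hG : Fib p rv f G)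
    (j : Fin (n + 3)) {ψ : ℝ → ℂ}
    (hc : Continuous ψ) (hper : ∀ θ, ψ (θ + 2 * π) = ψ θ) (hsupp : ∀ θ, ψ θ ≠ 0 → θ ∈ Inc p j) :
    ∃ L : ℂ, ∀ ε : ℝ, (ε = 1 ∨ ε = -1) → Tendsto (fun ρ : ℝ =>
      ∫ θ in (0 : ℝ)..(2 * π), ψ θ * Kp p f j (ε * ρ) θ) (𝓝[>] 0) (𝓝 L) := by
  obtain ⟨r', hr', hin'⟩ := mem_of_inc hp j
  obtain ⟨r, hr, hrr', hrv'⟩ : ∃ r : ℝ, 0 < r ∧ r ≤ r' ∧ r < rv :=
    ⟨min r' (rv / 2), lt_min hr' (by linarith), min_le_left _ _,
      (min_le_right _ _).trans_lt (by linarith)⟩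
  have hin : ∀ θ ∈ Inc p j, ∀ t, 0 < t → t ≤ r → p j - t • dir θ ∈ reg p :=
    fun θ hθ t h1 h2 => hin' θ hθ t h1 (h2.trans hrr')
  set I0 : ℝ := ∫ t in (0 : ℝ)..r, bump r t with hI0
  have hI : 0 < I0 := bump_int hr
  have hIc : (I0 : ℂ) ≠ 0 := by exact_mod_cast hI.ne'
  set Ψ := tf (p j) r ψ with hΨ
  have hsup : ∀ z, Ψ z ≠ 0 → r / 3 ≤ ‖z - p j‖ ∧ ‖z - p j‖ ≤ r := fun z hz => tf_supp hr hz
  have hreg : ∀ z, Ψ z ≠ 0 → z ∈ reg p := by
    intro z hz
    obtain ⟨h1, h2⟩ := hsup z hz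
    have h3 : 0 < ‖z - p j‖ := by linarith
    have h4 : z ≠ p j := by
      intro h
      rw [h, sub_self, norm_zero] at h3
      exact lt_irrefl _ h3
    have h5 : ψ (arg (p j - z)) ≠ 0 := by
      intro h0
      apply hz
      rw [hΨ]
      unfold tf
      rw [h0, mul_zero]
    rw [on_ray h4]
    exact hin _ (hsupp _ h5) _ h3 h2
  refine ⟨(∫ z, Ψ z * G z (arg (p j - z)) / ‖z - p j‖) / I0, fun ε hε => ?_⟩
  have h1 := pen (b := p j) (Ψ := Ψ) (H := Kv p f j) (ε := ε) (R := r) (tf_cont hr hc hper)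
    (tf_compact hr) (Kv_meas hp hf j) (Kv_bound hp hE hb j) (Kv_per hE j) hε
    (show 0 < r / 3 by linarith) hr.le hsup (f := f) one_pos
    (fun z hz θ _ _ => by
      unfold Kv
      have := Fv_ln hp hE (hreg z hz) θ
      rw [ln_lb (p j)] at this
      exact this)
    (g := fun z => G z (arg (p j - z))) (fib_avg hG hε fun z hz =>
      ⟨hreg z hz, j, (hsup z hz).2.trans_lt hrv'⟩)
  have h2 := h1.div_const (I0 : ℂ)
  refine h2.congr' ?_
  filter_upwards [self_mem_nhdsWithin] with ρ hρ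
  rw [← intervalIntegral.integral_div]
  refine intervalIntegral.integral_congr fun θ _ => ?_
  rw [hΨ, tf_W hr hper, Kp_eq j hρ]
  rw [← hI0]
  field_simp

end Pool.Agent.Zk55.CF
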