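import Pool.Agent.Zk55.CF.Vtx

set_option autoImplicit false

/-!
The constants at the vertices.
-/

namespace Pool.Agent.Zk55.CF

open Complex Set MeasureTheory Filter Topology Pool.Agent.W780.PG Pool.Agent.W780.BB
  Pool.Agent.TH578.BE Pool.Agent.K3h17.BK

open scoped Real ComplexConjugate

variable {n : ℕ} {p : Fin (n + 3) → ℂ} {χ : Fin (n + 3) → ℂ} {f : ℂ × ℝ → ℂ}

theorem dirpi (θ : ℝ) : dir (θ + π) = - dir θ := by
  unfold dir
  push_cast
  rw [add_mul, Complex.exp_add, Complex.exp_pi_mul_I]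
  ring

/-- The time reversal. -/
noncomputable def frev (f : ℂ × ℝ → ℂ) : ℂ × ℝ → ℂ := fun x => f (x.1, x.2 + π)

theorem rev_eigen (hχ : ∀ i, χ i = 1 ∨ χ i = -1) (hE : IsEigenfunction p 0 χ f) :
    IsEigenfunction p 0 χ (frev f) := by
  refine ⟨fun z θ => ?_, fun z θ s h1 h2 => ?_, fun i y hy θ s r hs hr h1 h2 => ?_⟩
  · show f (z, θ + 2 * π + π) = f (z, θ + π)
    rw [show θ + 2 * π + π = θ + π + 2 * π by ring, hE.periodic]
  · show f (z + s • dir θ, θ + π) = _ * f (z, θ + π)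
    have h3 : z + (-s) • dir (θ + π) = z + s • dir θ := by
      rw [dirpi, neg_smul, smul_neg, neg_neg]
    have h4 := hE.free z (θ + π) (-s) h1 (by rw [h3]; exact h2)
    rw [h3] at h4
    rw [h4]
    simp
  · show f (y + r • dir (2 * tau p i - θ), 2 * tau p i - θ + π) = _ * _ * f (y - s • dir θ, θ + π)
    have e1 : dir (2 * tau p i - θ - π) = - dir (2 * tau p i - θ) := by
      have := dirpi (2 * tau p i - θ - π)
      rw [sub_add_cancel] at this
      rw [this, neg_neg]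
    have e2 : 2 * tau p i - (2 * tau p i - θ - π) = θ + π := by ring
    have h5 := hE.reflect i y hy (2 * tau p i - θ - π) r s hr hs
      (by rw [e1, smul_neg, sub_neg_eq_add]; exact h2)
      (by rw [e2, dirpi, smul_neg, ← sub_eq_add_neg]; exact h1)
    rw [e1, e2, dirpi, smul_neg, smul_neg, ← sub_eq_add_neg, sub_neg_eq_add] at h5
    have h6 := hE.periodic (y + r • dir (2 * tau p i - θ)) (2 * tau p i - θ - π)
    rw [show 2 * tau p i - θ - π + 2 * π = 2 * tau p i - θ + π by ring] at h6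
    rw [h6, h5]
    have hsq : χ i * χ i = 1 := by rcases hχ i with h | h <;> rw [h] <;> norm_num
    simp only [zero_mul, Complex.ofReal_zero, Complex.exp_zero, mul_one]
    rw [← mul_assoc, hsq, one_mul]

theorem Fv_out {x : ℝ × ℝ} (h : ∀ z ∈ reg p, ph x z ≠ 0) : Fv p f x = 0 := by
  have h1 : ∀ t, pt x t ∉ reg p := fun t ht => h _ ht (ph_pt x t)
  have e : (fun t => (reg p).indicator (fun z => f (z, x.1)) (pt x t)) = fun _ => 0 := by
    ext t
    rw [indicator_of_notMem (h1 t)]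
  unfold Fv
  rw [e, integral_zero, zero_div]

theorem ph_rev (b : ℂ) (θ s : ℝ) (z : ℂ) : ph (lb b (θ + π) (-s)) z = - ph (lb b θ s) z := by
  rw [ph_lb, ph_lb, dirpi, map_neg, neg_mul, Complex.neg_im]
  ring

theorem Kv_rev (hp : IsConvexPolygon p) (hχ : ∀ i, χ i = 1 ∨ χ i = -1)
    (hE : IsEigenfunction p 0 χ f) (j : Fin (n + 3)) (θ s : ℝ) :
    Kv p (frev f) j (θ, s) = Kv p f j (θ + π, -s) := by
  unfold Kv
  simp only
  by_cases h : ∃ z ∈ reg p, ph (lb (p j) θ s) z = 0
  · obtain ⟨z, hz, h⟩ := h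
    rw [Fv_eq hp (rev_eigen hχ hE) hz h, Fv_eq hp hE hz (by rw [ph_rev, h, neg_zero])]
    rfl
  · push Not at h
    rw [Fv_out h, Fv_out fun z hz => by rw [ph_rev]; exact neg_ne_zero.2 (h z hz)]

theorem Kp_rev (hp : IsConvexPolygon p) (hχ : ∀ i, χ i = 1 ∨ χ i = -1)
    (hE : IsEigenfunction p 0 χ f) (j : Fin (n + 3)) (ρ θ : ℝ) :
    Kp p (frev f) j ρ θ = Kp p f j (-ρ) (θ + π) := by
  unfold Kp
  simp only [Kv_rev hp hχ hE, neg_mul]

theorem fib_rev {rv : ℝ} {G : ℂ → ℝ → ℂ} (hG : Fib p rv f G) :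
    Fib p rv (frev f) fun z θ => G z (θ + π) := by
  filter_upwards [hG] with z hz h
  obtain ⟨h1, h2⟩ := hz h
  refine ⟨h1.comp (continuous_id.add continuous_const), ?_⟩
  exact (measurePreserving_add_right (volume : Measure ℝ) π).quasiMeasurePreserving.ae h2

/-! ### Cut-offs -/

/-- The cut-off function. -/
noncomputable def cut (m : ℕ) (x : ℝ) : ℝ := min 1 (m * max 0 x)

theorem cut_cont (m : ℕ) : Continuous (cut m) := by
  unfold cut
  fun_prop

theorem cut_nonneg (m : ℕ) (x : ℝ) : 0 ≤ cut m x :=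
  le_min zero_le_one (mul_nonneg m.cast_nonneg (le_max_left _ _))

theorem cut_le (m : ℕ) (x : ℝ) : cut m x ≤ 1 := min_le_left _ _

theorem cut_pos {m : ℕ} {x : ℝ} (h : cut m x ≠ 0) : 0 < x := by
  by_contra hcon
  push Not at hcon
  apply h
  unfold cut
  rw [max_eq_left hcon, mul_zero]
  exact min_eq_right zero_le_one

theorem cut_lim (x : ℝ) : Tendsto (fun m : ℕ => cut m x) atTop (𝓝 (if 0 < x then 1 else 0)) := by
  split_ifs with h
  · obtain ⟨N, hN⟩ := exists_nat_gt (1 / x)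
    refine tendsto_const_nhds.congr' ?_
    filter_upwards [eventually_ge_atTop N] with m hm
    unfold cut
    rw [max_eq_right h.le, eq_comm]
    apply min_eq_left
    rw [div_lt_iff₀ h] at hN
    have : (N : ℝ) ≤ m := by exact_mod_cast hm
    nlinarith
  · push Not at h
    refine tendsto_const_nhds.congr fun m => ?_
    unfold cut
    rw [max_eq_left h, mul_zero]
    exact (min_eq_right zero_le_one).symm

theorem inc_meas (j : Fin (n + 3)) : MeasurableSet (Inc p j) := by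
  have h1 : Continuous fun θ : ℝ => Real.sin (θ - tau p j) := by fun_prop
  have h2 : Continuous fun θ : ℝ => Real.sin (θ - tau p (j - 1)) := by fun_prop
  exact ((isOpen_lt h1 continuous_const).inter (isOpen_lt h2 continuous_const)).measurableSet

open Classical in
/-- The matching for the incoming directions. -/
theorem J_inc (hp : IsConvexPolygon p) (hf : Measurable f) (hb : ∀ x, ‖f x‖ ≤ 1)
    (hE : IsEigenfunction p 0 χ f) {rv : ℝ} (hrv : 0 < rv) {G : ℂ → ℝ → ℂ} (hG : Fib p rv f G)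
    (j : Fin (n + 3)) {ψ : ℝ → ℂ}
    (hc : Continuous ψ) (hper : ∀ θ, ψ (θ + 2 * π) = ψ θ) :
    Tendsto (fun ρ : ℝ => ∫ θ in (0 : ℝ)..(2 * π), (Inc p j).indicator ψ θ *
      (Kp p f j ρ θ - Kp p f j (-ρ) θ)) (𝓝[>] 0) (𝓝 0) := by
  have hpi := Real.pi_pos
  have hpi2 : (0 : ℝ) ≤ 2 * π := by positivity
  set cm : ℕ → ℝ → ℝ := fun m θ => cut m (-Real.sin (θ - tau p j)) *
    cut m (-Real.sin (θ - tau p (j - 1))) with hcm
  have hcmc : ∀ m, Continuous (cm m) := by
    intro m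
    have := cut_cont m
    rw [hcm]
    fun_prop
  have hcm0 : ∀ m θ, 0 ≤ cm m θ := fun m θ => mul_nonneg (cut_nonneg _ _) (cut_nonneg _ _)
  have hcm1 : ∀ m θ, cm m θ ≤ 1 := fun m θ =>
    mul_le_one₀ (cut_le _ _) (cut_nonneg _ _) (cut_le _ _)
  have hcmi : ∀ m θ, cm m θ ≠ 0 → θ ∈ Inc p j := by
    intro m θ h
    have h1 := cut_pos (left_ne_zero_of_mul h)
    have h2 := cut_pos (right_ne_zero_of_mul h)
    exact ⟨by linarith, by linarith⟩
  have hcmp : ∀ m θ, cm m (θ + 2 * π) = cm m θ := by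
    intro m θ
    simp only [hcm]
    rw [show θ + 2 * π - tau p j = θ - tau p j + 2 * π by ring,
      show θ + 2 * π - tau p (j - 1) = θ - tau p (j - 1) + 2 * π by ring, Real.sin_add_two_pi,
      Real.sin_add_two_pi]
  have hlim : ∀ θ, Tendsto (fun m : ℕ => cm m θ) atTop (𝓝 ((Inc p j).indicator 1 θ)) := by
    intro θ
    have h1 := (cut_lim (-Real.sin (θ - tau p j))).mul (cut_lim (-Real.sin (θ - tau p (j - 1))))
    have e : (if 0 < -Real.sin (θ - tau p j) then (1 : ℝ) else 0) *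
        (if 0 < -Real.sin (θ - tau p (j - 1)) then (1 : ℝ) else 0) = (Inc p j).indicator 1 θ := by
      by_cases h : θ ∈ Inc p j
      · rw [indicator_of_mem h, if_pos (by linarith [h.1]), if_pos (by linarith [h.2])]
        simp
      · rw [indicator_of_notMem h]
        by_cases h2 : 0 < -Real.sin (θ - tau p j)
        · by_cases h3 : 0 < -Real.sin (θ - tau p (j - 1))
          · exact absurd ⟨by linarith, by linarith⟩ h
          · rw [if_neg h3, mul_zero]
        · rw [if_neg h2, zero_mul]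
    rw [e] at h1
    exact h1
  -- bound for ψ
  obtain ⟨B, hB⟩ : ∃ B, ∀ θ ∈ Icc (0 : ℝ) (2 * π), ‖ψ θ‖ ≤ B :=
    isCompact_Icc.exists_bound_of_continuousOn hc.continuousOn
  have hErr : Tendsto (fun m : ℕ => ∫ θ in (0 : ℝ)..(2 * π),
      ‖(Inc p j).indicator ψ θ - (cm m θ : ℂ) * ψ θ‖) atTop (𝓝 0) := by
    have h1 : Tendsto (fun m : ℕ => ∫ θ in (0 : ℝ)..(2 * π),
        ‖(Inc p j).indicator ψ θ - (cm m θ : ℂ) * ψ θ‖) atTop
        (𝓝 (∫ θ in (0 : ℝ)..(2 * π), (0 : ℝ))) := by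
      refine intervalIntegral.tendsto_integral_filter_of_dominated_convergence
        (fun _ => 2 * B) ?_ ?_ intervalIntegrable_const ?_
      · refine Filter.Eventually.of_forall fun m => ?_
        exact ((hc.measurable.indicator (inc_meas j)).sub
          (((Complex.continuous_ofReal.comp (hcmc m)).mul hc).measurable)).norm.aestronglyMeasurable
      · refine Filter.Eventually.of_forall fun m => Filter.Eventually.of_forall fun θ hθ => ?_
        rw [uIoc_of_le hpi2] at hθ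
        have h2 := hB θ ⟨hθ.1.le, hθ.2⟩
        rw [norm_norm]
        have h3 : ‖(Inc p j).indicator ψ θ‖ ≤ ‖ψ θ‖ := norm_indicator_le_norm_self _ _
        have h4 : ‖(cm m θ : ℂ) * ψ θ‖ ≤ ‖ψ θ‖ := by
          rw [norm_mul, Complex.norm_real, Real.norm_eq_abs, abs_of_nonneg (hcm0 m θ)]
          exact mul_le_of_le_one_left (norm_nonneg _) (hcm1 m θ)
        linarith [norm_sub_le ((Inc p j).indicator ψ θ) ((cm m θ : ℂ) * ψ θ)]
      · refine Filter.Eventually.of_forall fun θ _ => ?_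
        have h2 : Tendsto (fun m : ℕ => (cm m θ : ℂ) * ψ θ) atTop
            (𝓝 ((((Inc p j).indicator 1 θ : ℝ) : ℂ) * ψ θ)) :=
          ((Complex.continuous_ofReal.tendsto _).comp (hlim θ)).mul_const _
        have e : (((Inc p j).indicator 1 θ : ℝ) : ℂ) * ψ θ = (Inc p j).indicator ψ θ := by
          by_cases h : θ ∈ Inc p j
          · rw [indicator_of_mem h, indicator_of_mem h]
            simp
          · rw [indicator_of_notMem h, indicator_of_notMem h]
            simp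
        rw [e] at h2
        have h3 := (tendsto_const_nhds (x := (Inc p j).indicator ψ θ)).sub h2
        rw [sub_self] at h3
        have h4 := h3.norm
        rwa [norm_zero] at h4
    rwa [intervalIntegral.integral_zero] at h1
  -- the difference
  have hDm : ∀ ρ, Measurable fun θ => Kp p f j ρ θ - Kp p f j (-ρ) θ := fun ρ =>
    (Kp_meas hp hf j (σ := fun _ => ρ) measurable_const).sub
      (Kp_meas hp hf j (σ := fun _ => -ρ) measurable_const)
  have hDb : ∀ ρ θ, ‖Kp p f j ρ θ - Kp p f j (-ρ) θ‖ ≤ 2 := by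
    intro ρ θ
    linarith [norm_sub_le (Kp p f j ρ θ) (Kp p f j (-ρ) θ), Kp_bound hp hE hb j ρ θ,
      Kp_bound hp hE hb j (-ρ) θ]
  have hmain : ∀ m : ℕ, Tendsto (fun ρ : ℝ => ∫ θ in (0 : ℝ)..(2 * π), ((cm m θ : ℂ) * ψ θ) *
      (Kp p f j ρ θ - Kp p f j (-ρ) θ)) (𝓝[>] 0) (𝓝 0) := by
    intro m
    have hc' : Continuous fun θ => (cm m θ : ℂ) * ψ θ :=
      (Complex.continuous_ofReal.comp (hcmc m)).mul hc
    obtain ⟨L, hL⟩ := inc_lim hp hf hb hE hrv hG j (ψ := fun θ => (cm m θ : ℂ) * ψ θ) hc'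
      (fun θ => by rw [hcmp, hper]) (fun θ h => hcmi m θ (by
        have := left_ne_zero_of_mul h
        exact_mod_cast this))
    have h1 := (hL 1 (Or.inl rfl)).sub (hL (-1) (Or.inr rfl))
    rw [sub_self] at h1
    refine h1.congr fun ρ => ?_
    obtain ⟨B', hB'⟩ : ∃ B', ∀ θ ∈ Icc (0 : ℝ) (2 * π), ‖(cm m θ : ℂ) * ψ θ‖ ≤ B' :=
      isCompact_Icc.exists_bound_of_continuousOn hc'.continuousOn
    have hi : ∀ σ : ℝ, IntervalIntegrable (fun θ => ((cm m θ : ℂ) * ψ θ) * Kp p f j σ θ)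
        volume 0 (2 * π) := by
      intro σ
      have h2 : IntervalIntegrable (fun θ => Kp p f j σ θ) volume 0 (2 * π) :=
        bdd_ii (Kp_meas hp hf j (σ := fun _ => σ) measurable_const)
          (fun θ => Kp_bound hp hE hb j σ θ) _ _
      exact h2.continuousOn_mul hc'.continuousOn
    simp only [one_mul, neg_mul]
    rw [← intervalIntegral.integral_sub (hi ρ) (hi (-ρ))]
    simp only [mul_sub]
  rw [Metric.tendsto_nhds]
  intro η hη
  obtain ⟨m, hm⟩ := (hErr.eventually_lt_const (show (0 : ℝ) < η / 4 by positivity)).exists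
  filter_upwards [(Metric.tendsto_nhds.1 (hmain m)) (η / 2) (by positivity)] with ρ hρ
  rw [dist_zero_right] at hρ ⊢
  have hc' : Continuous fun θ => (cm m θ : ℂ) * ψ θ :=
    (Complex.continuous_ofReal.comp (hcmc m)).mul hc
  have i0 : IntervalIntegrable (fun θ => Kp p f j ρ θ - Kp p f j (-ρ) θ) volume 0 (2 * π) :=
    bdd_ii (hDm ρ) (hDb ρ) _ _
  have i1 : IntervalIntegrable (fun θ => ((cm m θ : ℂ) * ψ θ) *
      (Kp p f j ρ θ - Kp p f j (-ρ) θ)) volume 0 (2 * π) := i0.continuousOn_mul hc'.continuousOn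
  have i3 : IntervalIntegrable (fun θ => ψ θ * (Kp p f j ρ θ - Kp p f j (-ρ) θ)) volume 0
      (2 * π) := i0.continuousOn_mul hc.continuousOn
  have i2 : IntervalIntegrable (fun θ => (Inc p j).indicator ψ θ *
      (Kp p f j ρ θ - Kp p f j (-ρ) θ)) volume 0 (2 * π) := by
    refine i3.mono_fun ?_ (Filter.Eventually.of_forall fun θ => ?_)
    · exact ((hc.measurable.indicator (inc_meas j)).mul (hDm ρ)).aestronglyMeasurable
    · simp only
      rw [norm_mul, norm_mul]
      gcongr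
      exact norm_indicator_le_norm_self _ _
  have e : ∫ θ in (0 : ℝ)..(2 * π), (Inc p j).indicator ψ θ * (Kp p f j ρ θ - Kp p f j (-ρ) θ) =
      (∫ θ in (0 : ℝ)..(2 * π), ((cm m θ : ℂ) * ψ θ) * (Kp p f j ρ θ - Kp p f j (-ρ) θ)) +
      ∫ θ in (0 : ℝ)..(2 * π), ((Inc p j).indicator ψ θ - (cm m θ : ℂ) * ψ θ) *
        (Kp p f j ρ θ - Kp p f j (-ρ) θ) := by
    rw [← intervalIntegral.integral_add i1 (by
      refine (i2.sub i1).congr fun θ _ => ?_
      ring)]
    refine intervalIntegral.integral_congr fun θ _ => ?_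
    ring
  rw [e]
  have h5 : ‖∫ θ in (0 : ℝ)..(2 * π), ((Inc p j).indicator ψ θ - (cm m θ : ℂ) * ψ θ) *
      (Kp p f j ρ θ - Kp p f j (-ρ) θ)‖ ≤ 2 * ∫ θ in (0 : ℝ)..(2 * π),
      ‖(Inc p j).indicator ψ θ - (cm m θ : ℂ) * ψ θ‖ := by
    rw [← intervalIntegral.integral_const_mul]
    have iψ : IntervalIntegrable (fun θ => (Inc p j).indicator ψ θ - (cm m θ : ℂ) * ψ θ) volume 0
        (2 * π) := by
      refine IntervalIntegrable.sub ?_ (hc'.intervalIntegrable _ _)
      refine (hc.intervalIntegrable 0 (2 * π)).mono_fun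
        (hc.measurable.indicator (inc_meas j)).aestronglyMeasurable
        (Filter.Eventually.of_forall fun θ => norm_indicator_le_norm_self _ _)
    refine intervalIntegral.norm_integral_le_of_norm_le hpi2
      (Filter.Eventually.of_forall fun θ _ => ?_) (iψ.norm.const_mul 2)
    rw [norm_mul, mul_comm]
    exact mul_le_mul_of_nonneg_right (hDb ρ θ) (norm_nonneg _)
  have h6 := norm_add_le (∫ θ in (0 : ℝ)..(2 * π), ((cm m θ : ℂ) * ψ θ) *
    (Kp p f j ρ θ - Kp p f j (-ρ) θ)) (∫ θ in (0 : ℝ)..(2 * π),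
    ((Inc p j).indicator ψ θ - (cm m θ : ℂ) * ψ θ) * (Kp p f j ρ θ - Kp p f j (-ρ) θ))
  linarith

end Pool.Agent.Zk55.CF
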