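import Pool.Agent.Zk55.CF.Vtx2

set_option autoImplicit false

/-!
The constants at the vertices, end.
-/

namespace Pool.Agent.Zk55.CF

open Complex Set MeasureTheory Filter Topology Pool.Agent.W780.PG Pool.Agent.W780.BB
  Pool.Agent.TH578.BE Pool.Agent.K3h17.BK

open scoped Real ComplexConjugate

variable {n : ℕ} {p : Fin (n + 3) → ℂ} {χ : Fin (n + 3) → ℂ} {f : ℂ × ℝ → ℂ}

/-- The directions which lead from the vertex `j` into the polygon. -/
def Out (p : Fin (n + 3) → ℂ) (j : Fin (n + 3)) : Set ℝ :=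
  {θ | 0 < Real.sin (θ - tau p j) ∧ 0 < Real.sin (θ - tau p (j - 1))}

theorem out_iff (j : Fin (n + 3)) (θ : ℝ) : π + θ ∈ Out p j ↔ θ ∈ Inc p j := by
  have h : ∀ τ, Real.sin (π + θ - τ) = - Real.sin (θ - τ) := by
    intro τ
    rw [show π + θ - τ = θ - τ + π by ring, Real.sin_add_pi]
  unfold Out Inc
  simp only [mem_ofPred_eq, h]
  constructor <;> rintro ⟨h1, h2⟩ <;> constructor <;> linarith

theorem J_out (hp : IsConvexPolygon p) (hf : Measurable f) (hb : ∀ x, ‖f x‖ ≤ 1)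
    (hχ : ∀ i, χ i = 1 ∨ χ i = -1)
    (hE : IsEigenfunction p 0 χ f) {rv : ℝ} (hrv : 0 < rv) {G : ℂ → ℝ → ℂ} (hG : Fib p rv f G)
    (j : Fin (n + 3)) {ψ : ℝ → ℂ}
    (hc : Continuous ψ) (hper : ∀ θ, ψ (θ + 2 * π) = ψ θ) :
    Tendsto (fun ρ : ℝ => ∫ θ in (0 : ℝ)..(2 * π), (Out p j).indicator ψ θ *
      (Kp p f j ρ θ - Kp p f j (-ρ) θ)) (𝓝[>] 0) (𝓝 0) := by
  have hfr : Measurable (frev f) := by
    unfold frev
    exact hf.comp (measurable_fst.prodMk (measurable_snd.add_const π))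
  have h1 := J_inc hp hfr (fun x => hb _) (rev_eigen hχ hE) hrv (fib_rev hG) j
    (ψ := fun θ => ψ (π + θ)) (hc.comp (continuous_const.add continuous_id))
    (fun θ => by rw [← add_assoc, hper])
  have h2 := h1.neg
  rw [neg_zero] at h2
  refine h2.congr fun ρ => ?_
  have hgp : ∀ θ, (Out p j).indicator ψ (θ + 2 * π) * (Kp p f j ρ (θ + 2 * π) -
      Kp p f j (-ρ) (θ + 2 * π)) = (Out p j).indicator ψ θ * (Kp p f j ρ θ - Kp p f j (-ρ) θ) := by
    intro θ
    have hm : θ + 2 * π ∈ Out p j ↔ θ ∈ Out p j := by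
      unfold Out
      simp only [mem_ofPred_eq]
      rw [show θ + 2 * π - tau p j = θ - tau p j + 2 * π by ring,
        show θ + 2 * π - tau p (j - 1) = θ - tau p (j - 1) + 2 * π by ring, Real.sin_add_two_pi,
        Real.sin_add_two_pi]
    rw [Kp_per hE, Kp_per hE]
    congr 1
    by_cases h : θ ∈ Out p j
    · rw [indicator_of_mem h, indicator_of_mem (hm.2 h), hper]
    · rw [indicator_of_notMem h, indicator_of_notMem fun h' => h (hm.1 h')]
  have h3 := int_shift (g := fun θ => (Out p j).indicator ψ θ *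
    (Kp p f j ρ θ - Kp p f j (-ρ) θ)) hgp π
  rw [← h3, ← intervalIntegral.integral_neg]
  refine intervalIntegral.integral_congr fun θ _ => ?_
  rw [Kp_rev hp hχ hE, Kp_rev hp hχ hE, neg_neg, add_comm θ π]
  by_cases h : θ ∈ Inc p j
  · rw [indicator_of_mem h, indicator_of_mem ((out_iff j θ).2 h)]
    ring
  · rw [indicator_of_notMem h, indicator_of_notMem fun h' => h ((out_iff j θ).1 h')]
    ring

/-- The sign. -/
noncomputable def sn (x : ℝ) : ℝ := ((SignType.sign x : SignType) : ℝ)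

theorem sn_meas : Measurable sn := by
  have e : sn = fun x => if 0 < x then 1 else if x < 0 then -1 else 0 := by
    ext x
    unfold sn
    rw [sign_apply]
    split_ifs <;> simp
  rw [e]
  exact Measurable.ite measurableSet_Ioi measurable_const
    (Measurable.ite measurableSet_Iio measurable_const measurable_const)

theorem sn_neg {x : ℝ} (h : x < 0) : sn x = -1 := by
  unfold sn
  rw [sign_neg h]
  simp

theorem sn_pos {x : ℝ} (h : 0 < x) : sn x = 1 := by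
  unfold sn
  rw [sign_pos h]
  simp

theorem ae_sin (τ : ℝ) : ∀ᵐ θ : ℝ, Real.sin (θ - τ) ≠ 0 := by
  have h1 : {θ : ℝ | ¬ Real.sin (θ - τ) ≠ 0}.Countable := by
    refine (countable_range fun k : ℤ => τ + k * π).mono ?_
    intro θ hθ
    rw [mem_ofPred_eq, not_not] at hθ
    obtain ⟨k, hk⟩ := Real.sin_eq_zero_iff.1 hθ
    exact ⟨k, by simp only; rw [hk]; ring⟩
  exact h1.measure_zero _

theorem sin_refl (τ θ : ℝ) : Real.sin (2 * τ - θ - τ) = - Real.sin (θ - τ) := by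
  rw [show 2 * τ - θ - τ = -(θ - τ) by ring, Real.sin_neg]

theorem sn_of_neg (x : ℝ) : sn (-x) = - sn x := by
  rcases lt_trichotomy x 0 with h | h | h
  · rw [sn_neg h, sn_pos (by linarith)]
    ring
  · rw [h]
    unfold sn
    simp
  · rw [sn_pos h, sn_neg (by linarith)]

/-- The mean values on the lines meeting side `i` near its first end point. -/
noncomputable def ka (p : Fin (n + 3) → ℂ) (f : ℂ × ℝ → ℂ) (j : Fin (n + 3)) (ρ θ : ℝ) : ℂ :=
  Kp p f j (-sn (Real.sin (θ - tau p j)) * ρ) θ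

/-- The mean values on the lines meeting side `j - 1` near its second end point. -/
noncomputable def kb (p : Fin (n + 3) → ℂ) (f : ℂ × ℝ → ℂ) (j : Fin (n + 3)) (ρ θ : ℝ) : ℂ :=
  Kp p f j (sn (Real.sin (θ - tau p (j - 1))) * ρ) θ

theorem law_lim {K : ℝ → ℝ → ℂ} {θ θ' : ℝ} {c : ℂ} {σ σ' : ℝ}
    (h : ∀ᶠ s in 𝓝[>] (0 : ℝ), K θ' (σ' * s) = c * K θ (σ * s)) :
    Tendsto (fun ρ : ℝ => (∫ u in (0 : ℝ)..1, K θ' (σ' * ρ * u)) -
      c * ∫ u in (0 : ℝ)..1, K θ (σ * ρ * u)) (𝓝[>] 0) (𝓝 0) := by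
  obtain ⟨s0, hs0, hs⟩ := (mem_nhdsGT_iff_exists_Ioo_subset).1 h
  refine tendsto_const_nhds.congr' ?_
  filter_upwards [Ioo_mem_nhdsGT (show (0 : ℝ) < s0 from hs0)] with ρ hρ
  rw [← intervalIntegral.integral_const_mul, eq_comm, sub_eq_zero]
  refine intervalIntegral.integral_congr_ae (Filter.Eventually.of_forall fun u hu => ?_)
  rw [uIoc_of_le zero_le_one] at hu
  have h1 : ρ * u ∈ Ioo 0 s0 := by
    refine ⟨mul_pos hρ.1 hu.1, ?_⟩
    have h2 : ρ * u ≤ ρ * 1 := by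
      have := hρ.1.le
      gcongr
      exact hu.2
    linarith [hρ.2]
  have h3 := hs h1
  rw [mem_ofPred_eq] at h3
  rw [mul_assoc, mul_assoc]
  exact h3

theorem ka_law (hp : IsConvexPolygon p) (hχ : ∀ i, χ i = 1 ∨ χ i = -1)
    (hE : IsEigenfunction p 0 χ f) (j : Fin (n + 3)) : ∀ᵐ θ : ℝ,
      Tendsto (fun ρ => ka p f j ρ (2 * tau p j - θ) - χ j * ka p f j ρ θ) (𝓝[>] 0) (𝓝 0) := by
  filter_upwards [ae_sin (tau p j)] with θ hθ
  have h1 := law1 hp hE hχ j hθ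
  have h2 := law_lim (K := fun θ s => Kv p f j (θ, s)) h1
  refine h2.congr fun ρ => ?_
  unfold ka Kp
  rw [sin_refl, sn_of_neg, neg_neg]
  rfl

theorem kb_law (hp : IsConvexPolygon p) (hχ : ∀ i, χ i = 1 ∨ χ i = -1)
    (hE : IsEigenfunction p 0 χ f) (j : Fin (n + 3)) : ∀ᵐ θ : ℝ,
      Tendsto (fun ρ => kb p f j ρ (2 * tau p (j - 1) - θ) - χ (j - 1) * kb p f j ρ θ)
        (𝓝[>] 0) (𝓝 0) := by
  filter_upwards [ae_sin (tau p (j - 1))] with θ hθ
  have h1 := law2 hp hE hχ (j - 1) hθ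
  rw [sub_add_cancel] at h1
  have h2 := law_lim (K := fun θ s => Kv p f j (θ, s)) h1
  refine h2.congr fun ρ => ?_
  unfold kb Kp
  rw [sin_refl, sn_of_neg]
  rfl

theorem ab_diff (j : Fin (n + 3)) {ρ θ : ℝ} (h1 : Real.sin (θ - tau p j) ≠ 0)
    (h2 : Real.sin (θ - tau p (j - 1)) ≠ 0) (ψ : ℝ → ℂ) : ψ θ * (ka p f j ρ θ - kb p f j ρ θ) =
      (Inc p j).indicator ψ θ * (Kp p f j ρ θ - Kp p f j (-ρ) θ) -
      (Out p j).indicator ψ θ * (Kp p f j ρ θ - Kp p f j (-ρ) θ) := by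
  unfold ka kb
  rcases lt_or_gt_of_ne h1 with a | a <;> rcases lt_or_gt_of_ne h2 with c | c
  · have m1 : θ ∈ Inc p j := ⟨a, c⟩
    have m2 : θ ∉ Out p j := fun h => by linarith [h.1]
    rw [indicator_of_mem m1, indicator_of_notMem m2, sn_neg a, sn_neg c]
    simp
  · have m1 : θ ∉ Inc p j := fun h => by linarith [h.2]
    have m2 : θ ∉ Out p j := fun h => by linarith [h.1]
    rw [indicator_of_notMem m1, indicator_of_notMem m2, sn_neg a, sn_pos c]
    simp
  · have m1 : θ ∉ Inc p j := fun h => by linarith [h.1]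
    have m2 : θ ∉ Out p j := fun h => by linarith [h.2]
    rw [indicator_of_notMem m1, indicator_of_notMem m2, sn_pos a, sn_neg c]
    simp
  · have m1 : θ ∉ Inc p j := fun h => by linarith [h.1]
    have m2 : θ ∈ Out p j := ⟨a, c⟩
    rw [indicator_of_notMem m1, indicator_of_mem m2, sn_pos a, sn_pos c]
    simp only [one_mul, neg_mul, zero_mul, zero_sub]
    ring

/-- The constant at the vertex `j`. -/
theorem vtx_const (hp : IsConvexPolygon p) (hf : Measurable f) (hb : ∀ x, ‖f x‖ ≤ 1)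
    (hχ : ∀ i, χ i = 1 ∨ χ i = -1) (hE : IsEigenfunction p 0 χ f) {rv : ℝ} (hrv : 0 < rv)
    {G : ℂ → ℝ → ℂ} (hG : Fib p rv f G) (j : Fin (n + 3)) (hir : Irrational ((tau p j - tau p (j - 1)) / π)) :
    ∃ c : ℂ, (∀ ψ : ℝ → ℂ, Continuous ψ → (∀ θ, ψ (θ + 2 * π) = ψ θ) →
      (∀ θ, ψ θ ≠ 0 → θ ∈ Inc p j) → Tendsto (fun ρ : ℝ =>
        ∫ θ in (0 : ℝ)..(2 * π), ψ θ * Kp p f j ρ θ) (𝓝[>] 0)
        (𝓝 (c * ∫ θ in (0 : ℝ)..(2 * π), ψ θ))) ∧
      (1 - χ j) * c = 0 ∧ (1 - χ (j - 1)) * c = 0 := by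
  have hpi := Real.pi_pos
  have ma : ∀ ρ, Measurable (ka p f j ρ) := by
    intro ρ
    unfold ka
    refine Kp_meas hp hf j (σ := fun θ => -sn (Real.sin (θ - tau p j)) * ρ) ?_
    exact ((sn_meas.comp (Real.measurable_sin.comp (measurable_id.sub_const _))).neg).mul_const ρ
  have mb : ∀ ρ, Measurable (kb p f j ρ) := by
    intro ρ
    unfold kb
    refine Kp_meas hp hf j (σ := fun θ => sn (Real.sin (θ - tau p (j - 1))) * ρ) ?_
    exact (sn_meas.comp (Real.measurable_sin.comp (measurable_id.sub_const _))).mul_const ρ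
  have ba : ∀ ρ θ, ‖ka p f j ρ θ‖ ≤ 1 := fun ρ θ => Kp_bound hp hE hb j _ _
  have bb : ∀ ρ θ, ‖kb p f j ρ θ‖ ≤ 1 := fun ρ θ => Kp_bound hp hE hb j _ _
  have hs2 : ∀ θ τ : ℝ, Real.sin (θ + 2 * π - τ) = Real.sin (θ - τ) := by
    intro θ τ
    rw [show θ + 2 * π - τ = θ - τ + 2 * π by ring, Real.sin_add_two_pi]
  have pa : ∀ ρ θ, ka p f j ρ (θ + 2 * π) = ka p f j ρ θ := by
    intro ρ θ
    unfold ka
    rw [hs2, Kp_per hE]
  have pb : ∀ ρ θ, kb p f j ρ (θ + 2 * π) = kb p f j ρ θ := by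
    intro ρ θ
    unfold kb
    rw [hs2, Kp_per hE]
  have hJ : ∀ k : ℤ, Tendsto (fun ρ => ∫ θ in (0 : ℝ)..(2 * π), ek k θ *
      (ka p f j ρ θ - kb p f j ρ θ)) (𝓝[>] 0) (𝓝 0) := by
    intro k
    have h1 := (J_inc hp hf hb hE hrv hG j (ek_cont k) (ek_per k)).sub
      (J_out hp hf hb hχ hE hrv hG j (ek_cont k) (ek_per k))
    rw [sub_zero] at h1
    refine h1.congr fun ρ => ?_
    have hDm : Measurable fun θ => Kp p f j ρ θ - Kp p f j (-ρ) θ :=
      (Kp_meas hp hf j (σ := fun _ => ρ) measurable_const).sub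
        (Kp_meas hp hf j (σ := fun _ => -ρ) measurable_const)
    have hi : ∀ S : Set ℝ, MeasurableSet S → IntervalIntegrable (fun θ => S.indicator (ek k) θ *
        (Kp p f j ρ θ - Kp p f j (-ρ) θ)) volume 0 (2 * π) := by
      intro S hS
      refine bdd_ii (u := fun θ => S.indicator (ek k) θ *
        (Kp p f j ρ θ - Kp p f j (-ρ) θ)) (C := 2) (((ek_cont k).measurable.indicator hS).mul hDm)
        (fun θ => ?_) _ _
      rw [norm_mul]
      have h2 : ‖S.indicator (ek k) θ‖ ≤ 1 := by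
        have h3 : ‖S.indicator (ek k) θ‖ ≤ ‖ek k θ‖ := norm_indicator_le_norm_self _ _
        rwa [ek_norm] at h3
      have h3 : ‖Kp p f j ρ θ - Kp p f j (-ρ) θ‖ ≤ 2 := by
        linarith [norm_sub_le (Kp p f j ρ θ) (Kp p f j (-ρ) θ), Kp_bound hp hE hb j ρ θ,
          Kp_bound hp hE hb j (-ρ) θ]
      calc _ ≤ 1 * 2 := mul_le_mul h2 h3 (norm_nonneg _) zero_le_one
        _ = 2 := by norm_num
    have hom : MeasurableSet (Out p j) := by
      have h1 : Continuous fun θ : ℝ => Real.sin (θ - tau p j) := by fun_prop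
      have h2 : Continuous fun θ : ℝ => Real.sin (θ - tau p (j - 1)) := by fun_prop
      exact ((isOpen_lt continuous_const h1).inter (isOpen_lt continuous_const h2)).measurableSet
    rw [← intervalIntegral.integral_sub (hi _ (inc_meas j)) (hi _ hom)]
    refine intervalIntegral.integral_congr_ae ?_
    filter_upwards [ae_sin (tau p j), ae_sin (tau p (j - 1))] with θ h2 h3 _
    exact (ab_diff j h2 h3 (ek k)).symm
  obtain ⟨h1, h2, h3⟩ := four ma ba pa mb bb pb (hχ j) (hχ (j - 1)) (ka_law hp hχ hE j)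
    (kb_law hp hχ hE j) hJ hir
  -- on the incoming directions
  have onInc : ∀ ψ : ℝ → ℂ, (∀ θ, ψ θ ≠ 0 → θ ∈ Inc p j) → ∀ ρ,
      ∫ θ in (0 : ℝ)..(2 * π), ψ θ * ka p f j ρ θ = ∫ θ in (0 : ℝ)..(2 * π), ψ θ * Kp p f j ρ θ := by
    intro ψ hψ ρ
    refine intervalIntegral.integral_congr fun θ _ => ?_
    by_cases h : ψ θ = 0
    · rw [h, zero_mul, zero_mul]
    · unfold ka
      rw [sn_neg (hψ θ h).1, neg_neg, one_mul]
  -- a positive test function
  obtain ⟨z0, hz0⟩ : (reg p).Nonempty := (Pool.Agent.W174.PG.basic n p hp).2.2.2.2.2.1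
  set ψ0 : ℝ → ℝ := fun θ => max 0 (-Real.sin (θ - tau p j)) *
    max 0 (-Real.sin (θ - tau p (j - 1))) with hψ0
  have c0 : Continuous ψ0 := by rw [hψ0]; fun_prop
  have p0 : ∀ θ, ψ0 (θ + 2 * π) = ψ0 θ := by
    intro θ
    simp only [hψ0, hs2]
  have s0 : ∀ θ, (ψ0 θ : ℂ) ≠ 0 → θ ∈ Inc p j := by
    intro θ h
    have h4 : ψ0 θ ≠ 0 := by exact_mod_cast h
    have h5 := left_ne_zero_of_mul h4
    have h6 := right_ne_zero_of_mul h4
    constructor
    · by_contra hcon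
      push Not at hcon
      exact h5 (max_eq_left (by linarith))
    · by_contra hcon
      push Not at hcon
      exact h6 (max_eq_left (by linarith))
  have hI0 : 0 < ∫ θ in (0 : ℝ)..(2 * π), ψ0 θ := by
    have hne : z0 ≠ p j := by
      rintro rfl
      have h4 := hz0 j
      rw [Pool.Agent.W174.PG.lft_left] at h4
      exact lt_irrefl _ h4
    have h4 := on_ray hne
    have h5 : 0 < ‖z0 - p j‖ := by rw [norm_pos_iff, sub_ne_zero]; exact hne
    have h6 : arg (p j - z0) ∈ Inc p j := inc_of_mem hp h5 (by rw [← h4]; exact hz0)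
    have h7 : 0 < ψ0 (arg (p j - z0)) := by
      simp only [hψ0]
      exact mul_pos (lt_max_of_lt_right (by linarith [h6.1]))
        (lt_max_of_lt_right (by linarith [h6.2]))
    -- periodic: move the point into the interval
    have hp0 : Function.Periodic ψ0 (2 * π) := p0
    have h8 := hp0.intervalIntegral_add_eq (arg (p j - z0) - π) 0
    rw [zero_add] at h8
    rw [← h8]
    refine intervalIntegral.integral_pos (by linarith) c0.continuousOn
      (fun θ _ => mul_nonneg (le_max_left _ _) (le_max_left _ _))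
      ⟨arg (p j - z0), ⟨by linarith, by linarith⟩, h7⟩
  have hI0c : ((∫ θ in (0 : ℝ)..(2 * π), ψ0 θ : ℝ) : ℂ) ≠ 0 := by exact_mod_cast hI0.ne'
  have hI0e : ∫ θ in (0 : ℝ)..(2 * π), (ψ0 θ : ℂ) = ((∫ θ in (0 : ℝ)..(2 * π), ψ0 θ : ℝ) : ℂ) :=
    intervalIntegral.integral_ofReal
  obtain ⟨L, hL⟩ := inc_lim hp hf hb hE hrv hG j (ψ := fun θ => (ψ0 θ : ℂ))
    (Complex.continuous_ofReal.comp c0) (fun θ => by rw [p0]) s0
  have hL1 := hL 1 (Or.inl rfl)
  simp only [one_mul] at hL1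
  have hπc : (2 * (π : ℂ)) ≠ 0 := by
    have : (π : ℂ) ≠ 0 := by exact_mod_cast hpi.ne'
    exact mul_ne_zero two_ne_zero this
  -- the mean values converge
  have hM : Tendsto (fun ρ => (1 / (2 * (π : ℂ))) * ∫ θ in (0 : ℝ)..(2 * π), ka p f j ρ θ)
      (𝓝[>] 0) (𝓝 (L / ((∫ θ in (0 : ℝ)..(2 * π), ψ0 θ : ℝ) : ℂ))) := by
    have h4 := dens ma ba h1 (ψ := fun θ => (ψ0 θ : ℂ))
      (Complex.continuous_ofReal.comp c0) (fun θ => by rw [p0])
    have h5 := (hL1.sub h4).div_const ((∫ θ in (0 : ℝ)..(2 * π), ψ0 θ : ℝ) : ℂ)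
    rw [sub_zero] at h5
    refine h5.congr fun ρ => ?_
    rw [onInc _ s0, hI0e]
    field_simp
    ring
  refine ⟨L / ((∫ θ in (0 : ℝ)..(2 * π), ψ0 θ : ℝ) : ℂ), ?_, ?_, ?_⟩
  · intro ψ hc hper hsupp
    have h4 := dens ma ba h1 hc hper
    have h5 := hM.mul_const (∫ θ in (0 : ℝ)..(2 * π), ψ θ)
    have h6 := h4.add h5
    rw [zero_add] at h6
    refine h6.congr fun ρ => ?_
    rw [onInc ψ hsupp]
    ring
  · have h4 := hM.const_mul (1 - χ j)
    have h5 := h2.const_mul (1 / (2 * (π : ℂ)))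
    rw [mul_zero] at h5
    refine tendsto_nhds_unique h4 (h5.congr fun ρ => ?_)
    ring
  · have h4 := hM.const_mul (1 - χ (j - 1))
    have h5 := h3.const_mul (1 / (2 * (π : ℂ)))
    rw [mul_zero] at h5
    refine tendsto_nhds_unique h4 (h5.congr fun ρ => ?_)
    ring

end Pool.Agent.Zk55.CF
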